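import Pool.Agent.N455.HT.Equi
import Pool.Agent.Y722.HS.Box

set_option autoImplicit false
set_option linter.unusedSectionVars false

/-!
# Boxes are equidistributed modulo all integers
-/

namespace Pool.Agent.V7H60.GH

open Filter Topology Pool.Agent.N455.HT Pool.Agent.N666.TM Pool.Agent.Y722.HS

variable {ι : Type} [Fintype ι] [DecidableEq ι] [Nonempty ι]

/-- an enumeration of the integral vectors -/
noncomputable def enum (ι : Type) [Fintype ι] [DecidableEq ι] [Nonempty ι] : ℕ ≃ (ι → ℤ) :=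
  (Classical.choice (nonempty_denumerable (ι → ℤ))).eqv.symm

/-- the numbers of the vectors in a box -/
noncomputable def SB (ι : Type) [Fintype ι] [DecidableEq ι] [Nonempty ι] (B : ℕ) : Finset ℕ :=
  (box ι B).map (enum ι).symm.toEmbedding

theorem card_SB (B : ℕ) : (SB ι B).card = (2 * B + 1) ^ Fintype.card ι := by
  unfold SB box
  rw [Finset.card_map, Fintype.card_piFinset, Finset.prod_const, Finset.card_univ]
  congr 1
  unfold IH
  rw [Int.card_Icc]
  omega

theorem mem_SB (B n : ℕ) : n ∈ SB ι B ↔ enum ι n ∈ box ι B := by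
  unfold SB
  rw [Finset.mem_map]
  constructor
  · rintro ⟨c, hc, rfl⟩
    simpa using hc
  · intro h
    exact ⟨enum ι n, h, by simp⟩

theorem mem_box {B : ℕ} {c : ι → ℤ} : c ∈ box ι B ↔ ∀ i, |c i| ≤ B := by
  unfold box IH
  rw [Fintype.mem_piFinset]
  refine forall_congr' fun i => ?_
  rw [Finset.mem_Icc, abs_le]

theorem equi_SB : Equi (SB ι) (enum ι) := by
  intro q hq r
  have hq0 : (0 : ℝ) < q := by exact_mod_cast hq
  have h1 : ∀ B : ℕ, (({n : ℕ | n ∈ SB ι B ∧ ∀ i, enum ι n i ≡ r i [ZMOD q]}.ncard : ℕ) : ℝ) /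
      (SB ι B).card = ∏ i : ι, ((((IH B).filter fun z => z ≡ r i [ZMOD q]).card : ℕ) : ℝ) /
        (2 * B + 1) := by
    intro B
    have e1 : {n : ℕ | n ∈ SB ι B ∧ ∀ i, enum ι n i ≡ r i [ZMOD q]} =
        (((Fintype.piFinset fun i => (IH B).filter fun z => z ≡ r i [ZMOD q]).map
          (enum ι).symm.toEmbedding : Finset ℕ) : Set ℕ) := by
      ext n
      simp only [Set.mem_ofPred_eq, Finset.coe_map, Set.mem_image, Finset.mem_coe,
        Fintype.mem_piFinset, Finset.mem_filter]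
      rw [mem_SB]
      unfold box
      rw [Fintype.mem_piFinset]
      constructor
      · rintro ⟨h2, h3⟩
        exact ⟨enum ι n, fun i => ⟨h2 i, h3 i⟩, by simp⟩
      · rintro ⟨c, hc, rfl⟩
        simp only [Equiv.toEmbedding_apply, Equiv.apply_symm_apply]
        exact ⟨fun i => (hc i).1, fun i => (hc i).2⟩
    rw [e1, Set.ncard_coe_finset, Finset.card_map, Fintype.card_piFinset, card_SB,
      Finset.prod_div_distrib, Finset.prod_const, Finset.card_univ]
    push_cast
    rfl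
  have h2 : Tendsto (fun B : ℕ => ∏ i : ι,
      ((((IH B).filter fun z => z ≡ r i [ZMOD q]).card : ℕ) : ℝ) / (2 * B + 1)) atTop
      (𝓝 (∏ _i : ι, 1 / (q : ℝ))) := by
    refine tendsto_finsetProd _ fun i _ => ?_
    have h3 : Tendsto (fun B : ℕ => 1 / (2 * (B : ℝ) + 1)) atTop (𝓝 0) := by
      have h4 : Tendsto (fun B : ℕ => 2 * (B : ℝ) + 1) atTop atTop :=
        tendsto_atTop_add_const_right _ _ (tendsto_natCast_atTop_atTop.const_mul_atTop two_pos)
      refine h4.inv_tendsto_atTop.congr fun B => ?_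
      rw [one_div]
      rfl
    rw [tendsto_iff_dist_tendsto_zero]
    refine squeeze_zero (fun _ => dist_nonneg) (fun B => ?_) h3
    have h5 := cnt_mod B q hq (r i)
    have hB : (0 : ℝ) < 2 * B + 1 := by positivity
    rw [Real.dist_eq]
    have h6 : ((((IH B).filter fun z => z ≡ r i [ZMOD q]).card : ℕ) : ℝ) / (2 * B + 1) - 1 / q =
        (((((IH B).filter fun z => z ≡ r i [ZMOD q]).card : ℕ) : ℝ) - (2 * B + 1) / q) /
          (2 * B + 1) := by
      field_simp
    rw [h6, abs_div, abs_of_pos hB]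
    gcongr
  rw [Finset.prod_const, Finset.card_univ, one_div_pow] at h2
  refine h2.congr fun B => (h1 B).symm

/-- sets which have density zero along all equidistributed sequences have density zero in boxes -/
theorem box_null (G : (ι → ℤ) → Prop)
    (h : ∀ (S : ℕ → Finset ℕ) (x : ℕ → ι → ℤ), Equi S x → NullIn S {n | ¬ G (x n)}) :
    Tendsto (fun B : ℕ => (({c : ι → ℤ | (∀ i, |c i| ≤ B) ∧ ¬ G c}.ncard : ℕ) : ℝ) /
      (2 * B + 1) ^ Fintype.card ι) atTop (𝓝 0) := by
  have h1 := h _ _ (equi_SB (ι := ι))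
  rw [Metric.tendsto_atTop]
  intro ε hε
  obtain ⟨N₀, hN₀⟩ := h1 (ε / 2) (by positivity)
  refine ⟨N₀, fun B hB => ?_⟩
  have h2 := hN₀ B hB
  have e1 : {t : ℕ | t ∈ SB ι B ∧ t ∈ {n | ¬ G (enum ι n)}} =
      (enum ι).symm '' {c : ι → ℤ | (∀ i, |c i| ≤ B) ∧ ¬ G c} := by
    ext n
    simp only [Set.mem_ofPred_eq, Set.mem_image]
    rw [mem_SB, mem_box]
    constructor
    · rintro ⟨h3, h4⟩
      exact ⟨enum ι n, ⟨h3, h4⟩, by simp⟩
    · rintro ⟨c, ⟨h3, h4⟩, rfl⟩
      simpa using ⟨h3, h4⟩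
  rw [e1, Set.ncard_image_of_injective _ (enum ι).symm.injective, card_SB] at h2
  have hpos : (0 : ℝ) < (2 * (B : ℝ) + 1) ^ Fintype.card ι := by positivity
  rw [Real.dist_eq, sub_zero, abs_of_nonneg (by positivity), div_lt_iff₀ hpos]
  refine lt_of_le_of_lt h2 ?_
  push_cast
  nlinarith

end Pool.Agent.V7H60.GH
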