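import Pool.Agent.V7H60.GH.Poly3

set_option autoImplicit false
set_option linter.unusedSectionVars false

/-!
# All tuples of polynomials outside of a thin set
-/

namespace Pool.Agent.V7H60.GH

open Polynomial Pool.Agent.V7H60.GC Pool.Agent.N455.HT

variable {k : ℕ} {d : Fin k → ℕ}

/-- indices of the coefficients -/
abbrev Cp (k : ℕ) (d : Fin k → ℕ) : Type := Σ i : Fin k, Fin (d i + 1)

/-- the polynomial without its constant term -/
noncomputable def gp {K : Type} [CommRing K] (v : Cp k d → K) (i : Fin k) : K[X] :=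
  pf fun e : Fin (d i + 1) => if e = 0 then 0 else v ⟨i, e⟩

theorem map_gp {K S : Type} [CommRing K] [CommRing S] (φ : K →+* S) (v : Cp k d → K) (i : Fin k) :
    (gp v i).map φ = gp (fun e => φ (v e)) i := by
  unfold gp
  rw [map_pf]
  congr 1
  funext e
  split_ifs
  · rw [map_zero]
  · rfl

theorem gp_add {K : Type} [CommRing K] (v : Cp k d → K) (i : Fin k) :
    gp v i + C (v ⟨i, 0⟩) = pf fun e => v ⟨i, e⟩ := by
  unfold gp pf
  rw [Fin.sum_univ_succ, Fin.sum_univ_succ]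
  simp only [if_pos, Fin.val_zero, pow_zero, mul_one, C_0, zero_add]
  rw [add_comm]
  congr 1

theorem derivative_gp {K : Type} [CommRing K] (v : Cp k d → K) (i : Fin k) :
    derivative (gp v i) = derivative (pf fun e => v ⟨i, e⟩) := by
  rw [← gp_add, derivative_add, derivative_C, add_zero]

/-- the example modulo `p` -/
noncomputable def B1 {F : Type} [Field F] (d : ℕ) : F[X] := X ^ d - C (d : F) * X

theorem B1_natDegree {F : Type} [Field F] {d : ℕ} (hd : 2 ≤ d) : (B1 d : F[X]).natDegree ≤ d := by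
  unfold B1
  refine (natDegree_sub_le _ _).trans (max_le ?_ ?_)
  · rw [natDegree_X_pow]
  · refine (natDegree_C_mul_le _ _).trans (natDegree_X_le.trans (by omega))

theorem B1_top {F : Type} [Field F] {d : ℕ} (hd : 2 ≤ d) : (B1 d : F[X]).coeff d = 1 := by
  unfold B1
  rw [coeff_sub, coeff_X_pow, if_pos rfl, coeff_C_mul, coeff_X, if_neg (by omega), mul_zero,
    sub_zero]

theorem B1_zero {F : Type} [Field F] {d : ℕ} (hd : 2 ≤ d) : (B1 d : F[X]).coeff 0 = 0 := by
  unfold B1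
  rw [coeff_sub, coeff_X_pow, if_neg (by omega), coeff_C_mul, coeff_X_zero, mul_zero, sub_zero]

theorem B1_der {F : Type} [Field F] {d : ℕ} : derivative (B1 d : F[X]) =
    C (d : F) * (X ^ (d - 1) - 1) := by
  unfold B1
  rw [derivative_sub, derivative_X_pow, derivative_C_mul, derivative_X]
  ring

theorem core_all (d : Fin k → ℕ) (hd : ∀ i, 2 ≤ d i) :
    ∃ (W : Finset (MvPolynomial (Cp k d) ℤ)[X]) (Z : Finset (MvPolynomial (Cp k d) ℤ)),
      (∀ p ∈ W, p.Monic ∧ 2 ≤ p.natDegree ∧ Irreducible p) ∧ (∀ z ∈ Z, z ≠ 0) ∧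
      ∀ c : Cp k d → ℤ, (∀ p ∈ W, ∀ a : ℤ, (p.map (ev c)).eval a ≠ 0) →
        (∀ z ∈ Z, ev c z ≠ 0) → ∃ σ : ℂ ≃+* ℂ, ∀ j (x : ℂ),
          (derivative (pf fun e => ((c ⟨j, e⟩ : ℤ) : ℂ))).eval x = 0 → σ x = x ∧
            ∀ y : ℂ, σ y = y → ∀ i, (pf fun e => ((c ⟨i, e⟩ : ℤ) : ℂ)).eval y ≠ x := by
  classical
  let R := MvPolynomial (Cp k d) ℤ
  let G : Cp k d → R := MvPolynomial.X
  let A : Dat k R := ⟨fun j => d j - 1, d, fun j => derivative (gp G j), gp G, fun _ => 1,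
    fun i => G ⟨i, 0⟩⟩
  obtain ⟨p, hp, hpB, hsp⟩ := exists_prime_split'
    ((Finset.univ.image fun i => (X ^ (d i) - 1 : ℤ[X])) ∪
      (Finset.univ.image fun i => (X ^ (d i - 1) - 1 : ℤ[X])))
    (by
      intro f hf
      rw [Finset.mem_union, Finset.mem_image, Finset.mem_image] at hf
      rcases hf with ⟨i, -, rfl⟩ | ⟨i, -, rfl⟩
      · have h1 := hd i
        have h2 := X_pow_sub_C_ne_zero (R := ℤ) (n := d i) (by omega) 1
        rwa [C_1] at h2
      · have h1 := hd i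
        have h2 := X_pow_sub_C_ne_zero (R := ℤ) (n := d i - 1) (by omega) 1
        rwa [C_1] at h2)
    (∑ i, d i)
  have hFt : Fact p.Prime := ⟨hp⟩
  have hlt : ∀ i, d i < p := fun i =>
    lt_of_le_of_lt (Finset.single_le_sum (f := d) (fun i _ => Nat.zero_le _) (Finset.mem_univ i)) hpB
  have hdne : ∀ i, ((d i : ℕ) : ZMod p) ≠ 0 := by
    intro i h0
    rw [CharP.cast_eq_zero_iff (ZMod p) p] at h0
    have h1 := Nat.le_of_dvd (by have := hd i; omega) h0
    have h2 := hlt i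
    omega
  have hdne' : ∀ i, ((d i - 1 : ℕ) : ZMod p) ≠ 0 := by
    intro i h0
    rw [CharP.cast_eq_zero_iff (ZMod p) p] at h0
    have h1 := Nat.le_of_dvd (by have := hd i; omega) h0
    have h2 := hlt i
    omega
  obtain ⟨g, hg0, hg⟩ := exists_nonpower (p := p)
  let b : Cp k d → ZMod p := fun e => if e.2 = 0 then g else (B1 (d e.1) : (ZMod p)[X]).coeff e.2
  let ρ : R →+* ZMod p := ev b
  have hρG : (fun e => ρ (G e)) = b := by
    funext e
    exact ev_X _ e
  have hρF : ∀ i, (gp G i).map ρ = B1 (d i) := by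
    intro i
    rw [map_gp, hρG]
    have h1 := pf_coeff (B1_natDegree (F := ZMod p) (hd i))
    rw [← h1]
    unfold gp
    congr 1
    funext e
    split_ifs with h2
    · rw [h2, Fin.val_zero, B1_zero (hd i)]
    · simp only [b]
      rw [if_neg h2]
  have hdc : ∀ i, ρ ((gp G i).coeff (d i)) = 1 := by
    intro i
    rw [← coeff_map, hρF, B1_top (hd i)]
  have hρr : ∀ j, (derivative (gp G j)).map ρ = C ((d j : ℕ) : ZMod p) * (X ^ (d j - 1) - 1) := by
    intro j
    rw [← derivative_map, hρF, B1_der]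
  have hnr : ∀ j, (derivative (gp G j)).natDegree ≤ d j - 1 := fun j =>
    (natDegree_derivative_le _).trans (Nat.sub_le_sub_right (natDegree_pf _) 1)
  have hsm : ∀ n, redp p (X ^ n - 1) = X ^ n - 1 := fun n => by simp [redp]
  have hsepX : ∀ j, (C ((d j : ℕ) : ZMod p) * (X ^ (d j - 1) - 1)).Separable := by
    intro j
    have h1 : (X ^ (d j - 1) - 1 : (ZMod p)[X]).Separable :=
      X_pow_sub_one_separable_iff.2 (hdne' j)
    exact Separable.unit_mul (isUnit_C.2 (hdne j).isUnit) h1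
  have hcore := core A hd (fun i => natDegree_pf _) hnr ρ
    (fun j => by
      change ρ ((derivative (gp G j)).coeff (d j - 1)) ≠ 0
      rw [coeff_derivative]
      have h1 : d j - 1 + 1 = d j := by have := hd j; omega
      have h2 : ((d j - 1 : ℕ) : R) + 1 = ((d j : ℕ) : R) := by
        rw [← Nat.cast_succ, Nat.succ_eq_add_one, h1]
      rw [h1, h2, map_mul, hdc, one_mul, map_natCast]
      exact hdne j)
    (fun i => by
      change ρ ((gp G i).coeff (d i)) ≠ 0
      rw [hdc]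
      exact one_ne_zero)
    (fun j => by
      change ((derivative (gp G j)).map ρ).Splits
      rw [hρr]
      have h1 := hsp _ (Finset.mem_union_right _ (Finset.mem_image_of_mem
        (fun i => (X ^ (d i - 1) - 1 : ℤ[X])) (Finset.mem_univ j)))
      rw [hsm] at h1
      exact Splits.C_mul h1 _)
    (fun j => by
      change ((derivative (gp G j)).map ρ).Separable
      rw [hρr]
      exact hsepX j)
    (fun i w => by
      change ρ ((gp G i).coeff (d i)) * w ^ (d i) - ρ (G ⟨i, 0⟩) ≠ 0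
      have h1 : ρ (G ⟨i, 0⟩) = g := by
        have h2 := congrFun hρG ⟨i, 0⟩
        exact h2.trans (if_pos rfl)
      rw [hdc, one_mul, h1, sub_ne_zero]
      exact hg (d i) (hd i) (hdne i)
        (hsp _ (Finset.mem_union_left _ (Finset.mem_image_of_mem
          (fun i => (X ^ (d i) - 1 : ℤ[X])) (Finset.mem_univ i)))) w)
    (fun e => e.2 = 0)
    (by
      intro Ω _ j j' u hu h
      have h6 : ∀ i, (gp G i).map j = (gp G i).map j' := by
        intro i
        rw [map_gp, map_gp]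
        unfold gp
        congr 1
        funext e
        split_ifs with h7
        · rfl
        · have h8 := h ⟨i, e⟩
          rw [if_neg h7] at h8
          exact h8
      refine ⟨fun i => ?_, h6, fun i => ?_, fun i => ?_⟩
      · change (derivative (gp G i)).map j = (derivative (gp G i)).map j'
        rw [← derivative_map, h6, derivative_map]
      · change j 1 = j' 1
        rw [map_one, map_one]
      · have h8 := h ⟨i, 0⟩
        rw [if_pos rfl] at h8
        exact h8)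
  have hAr0 : ∀ j, A.r j ≠ 0 := by
    intro j h0
    have h1 := hρr j
    change derivative (gp G j) = 0 at h0
    rw [h0, Polynomial.map_zero] at h1
    exact (hsepX j).ne_zero h1.symm
  obtain ⟨W, Z, hW, hZ, H⟩ := thin_of A hnr hAr0 hcore
  refine ⟨W, Z, hW, hZ, fun c h1 h2 => ?_⟩
  obtain ⟨σ, hσ⟩ := H c h1 h2
  have hG : (fun e => toC (ev c) (G e)) = fun e => ((c e : ℤ) : ℂ) := by
    funext e
    change ((ev c (MvPolynomial.X e) : ℤ) : ℂ) = _
    rw [ev_X]
  have hmg : ∀ i, (gp G i).map (toC (ev c)) = gp (fun e => ((c e : ℤ) : ℂ)) i := by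
    intro i
    rw [map_gp, hG]
  refine ⟨σ, fun j x hx => ?_⟩
  obtain ⟨h3, h4⟩ := hσ j x (by
    change ((derivative (gp G j)).map (toC (ev c))).eval x = 0
    rw [← derivative_map, hmg, derivative_gp]
    exact hx)
  refine ⟨h3, fun y hy i => ?_⟩
  have h5 := h4 y hy i
  change ((gp G i).map (toC (ev c))).eval y + toC (ev c) (G ⟨i, 0⟩) ≠ toC (ev c) 1 * x at h5
  rw [hmg, map_one, one_mul] at h5
  have h6 : toC (ev c) (G ⟨i, 0⟩) = ((c ⟨i, 0⟩ : ℤ) : ℂ) := congrFun hG ⟨i, 0⟩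
  rw [h6] at h5
  have h7 := congrArg (eval y) (gp_add (fun e : Cp k d => ((c e : ℤ) : ℂ)) i)
  rw [eval_add, eval_C] at h7
  rw [← h7]
  exact h5

/-- **All tuples of polynomials.** -/
theorem thin_all (d : Fin k → ℕ) (hd : ∀ i, 2 ≤ d i) :
    ∃ (W : Finset (MvPolynomial (Cp k d) ℤ)[X]) (Z : Finset (MvPolynomial (Cp k d) ℤ)),
      (∀ p ∈ W, p.Monic ∧ 2 ≤ p.natDegree ∧ Irreducible p) ∧ (∀ z ∈ Z, z ≠ 0) ∧
      ∀ c : Cp k d → ℤ, (∀ p ∈ W, ∀ a : ℤ, (p.map (ev c)).eval a ≠ 0) →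
        (∀ z ∈ Z, ev c z ≠ 0) → ∃ σ : ℂ ≃+* ℂ, ∀ j (x : ℂ),
          aeval x (derivative (∑ e : Fin (d j + 1), C ((c ⟨j, e⟩ : ℤ) : ℚ) * X ^ (e : ℕ) : ℚ[X])) = 0 →
            σ x = x ∧ ∀ y : ℂ, σ y = y → ∀ i,
              aeval y (∑ e : Fin (d i + 1), C ((c ⟨i, e⟩ : ℤ) : ℚ) * X ^ (e : ℕ) : ℚ[X]) ≠ x := by
  obtain ⟨W, Z, hW, hZ, H⟩ := core_all d hd
  refine ⟨W, Z, hW, hZ, fun c h1 h2 => ?_⟩
  obtain ⟨σ, hσ⟩ := H c h1 h2
  have e1 : ∀ i, ((∑ e : Fin (d i + 1), C ((c ⟨i, e⟩ : ℤ) : ℚ) * X ^ (e : ℕ) : ℚ[X])).map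
      (algebraMap ℚ ℂ) = pf fun e => ((c ⟨i, e⟩ : ℤ) : ℂ) := by
    intro i
    change (pf fun e => ((c ⟨i, e⟩ : ℤ) : ℚ)).map (algebraMap ℚ ℂ) = _
    rw [map_pf]
    congr 1
  refine ⟨σ, fun j x hx => ?_⟩
  rw [← eval_map_algebraMap, ← derivative_map, e1] at hx
  obtain ⟨h3, h4⟩ := hσ j x hx
  refine ⟨h3, fun y hy i => ?_⟩
  rw [← eval_map_algebraMap, e1]
  exact h4 y hy i

end Pool.Agent.V7H60.GH
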