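import Pool.Agent.V7H60.GH.Gen

set_option autoImplicit false
set_option linter.unusedSectionVars false

/-!
# Dynamical Mordell-Lang for all tuples of rational functions outside a thin set
-/

namespace Pool.Agent.V7H60.GH

open Polynomial Pool.Agent.TH838.DS Pool.Agent.H936R2 Pool.Agent.V7H60.GC Pool.Agent.N455.HT
  Pool.Agent.H905R3.DML

section

variable {k : ℕ} {d : Fin k → ℕ}

theorem eval_QP {K : Type} [CommRing K] (v : Co k d → K) (q : Fin k × Fin k) (u : K) :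
    (QP v q).eval u = J v q.2 (wv v [q.1] ![u, 1]) := by
  have h := J_nat (Polynomial.evalRingHom u) (fun e => C (v e)) q.2 (fun a => WP v [q.1] a)
  simp only [Polynomial.coe_evalRingHom, Polynomial.eval_C, eval_WP] at h
  exact h.symm

theorem J_zero {K : Type} [Field K] (v : Co k d → K) (i : Fin k) (hd : 2 ≤ d i) : J v i 0 = 0 := by
  have h := J_smul v i 0 0
  have h1 : (fun a => (0 : K) * (0 : Fin 2 → K) a) = 0 := by
    funext a
    simp
  rw [h1, zero_pow (by omega), zero_mul] at h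
  exact h

/-- from the automorphism to the hypotheses of the criterion -/
theorem crit (hd : ∀ i, 2 ≤ d i) (v : Co k d → ℂ) (σ : ℂ ≃+* ℂ)
    (h1 : ∀ i (z : ℂ), (JP v i).eval z = 0 → σ z = z)
    (h2 : ∀ q (z : ℂ), (QP v q).eval z = 0 → σ z ≠ z)
    (h3 : ∀ i, J v i ![1, 0] ≠ 0) (h4 : ∀ i i', J v i (wv v [i'] ![1, 0]) ≠ 0) :
    (∀ i (z : Fin 2 → ℂ), z ≠ 0 → pt (bs fun e => v ⟨i, e⟩) z ≠ 0) ∧
    ∀ i (z : Fin 2 → ℂ), z ≠ 0 → J v i z = 0 →
      ∃ e, 1 ≤ e ∧ FixC σ e z ∧ ∀ y : Fin 2 → ℂ, y ≠ 0 → FixC σ e y →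
        ∀ w : List (Fin k), w.length = 1 → ¬ Same (wv v w y) z := by
  -- critical points are finite and fixed
  have hfin : ∀ i (z : Fin 2 → ℂ), z ≠ 0 → J v i z = 0 → z 1 ≠ 0 ∧ σ (z 0 / z 1) = z 0 / z 1 := by
    intro i z hz hJ
    have hz1 : z 1 ≠ 0 := by
      intro hz1
      apply h3 i
      have hz0 := z0_ne hz hz1
      rw [nrm_zero hz1, J_smul] at hJ
      exact (mul_eq_zero.1 hJ).resolve_left (pow_ne_zero _ hz0)
    refine ⟨hz1, h1 i _ ?_⟩
    rw [eval_JP]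
    rw [nrm_one hz1, J_smul] at hJ
    exact (mul_eq_zero.1 hJ).resolve_left (pow_ne_zero _ hz1)
  -- preimages of critical points
  have hpre : ∀ i i' (y : Fin 2 → ℂ), y ≠ 0 → J v i (wv v [i'] y) = 0 →
      y 1 ≠ 0 ∧ σ (y 0 / y 1) ≠ y 0 / y 1 := by
    intro i i' y hy hJ
    obtain ⟨D, hD⟩ := wv_smul v [i']
    have hy1 : y 1 ≠ 0 := by
      intro hy1
      apply h4 i i'
      have hy0 := z0_ne hy hy1
      rw [nrm_zero hy1, hD, J_smul] at hJ
      exact (mul_eq_zero.1 hJ).resolve_left (pow_ne_zero _ (pow_ne_zero _ hy0))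
    refine ⟨hy1, h2 (i', i) _ ?_⟩
    rw [eval_QP]
    rw [nrm_one hy1, hD, J_smul] at hJ
    exact (mul_eq_zero.1 hJ).resolve_left (pow_ne_zero _ (pow_ne_zero _ hy1))
  have hreg : ∀ i (z : Fin 2 → ℂ), z ≠ 0 → pt (bs fun e => v ⟨i, e⟩) z ≠ 0 := by
    intro i z hz h0
    obtain ⟨-, hfix⟩ := hfin i z hz (J_of_zero v i z hz h0)
    have h5 : J v i (wv v [i] z) = 0 := by
      have h6 : wv v [i] z = 0 := h0
      rw [h6]
      exact J_zero v i (hd i)
    exact (hpre i i z hz h5).2 hfix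
  refine ⟨hreg, fun i z hz hJ => ⟨1, le_rfl, ?_, ?_⟩⟩
  · obtain ⟨hz1, hfix⟩ := hfin i z hz hJ
    refine ⟨σ (z 1) / z 1, fun a => ?_⟩
    change σ (z a) = _
    fin_cases a
    · change σ (z 0) = σ (z 1) / z 1 * z 0
      rw [map_div₀] at hfix
      have hσ1 : σ (z 1) ≠ 0 := (map_ne_zero_iff σ σ.injective).2 hz1
      rw [div_eq_div_iff hσ1 hz1] at hfix
      rw [div_mul_eq_mul_div, eq_div_iff hz1]
      linear_combination hfix
    · change σ (z 1) = σ (z 1) / z 1 * z 1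
      rw [div_mul_cancel₀ _ hz1]
  · intro y hy hyf w hw hS
    obtain ⟨i', rfl⟩ := List.length_eq_one_iff.1 hw
    have hw0 : wv v [i'] y ≠ 0 := hreg i' y hy
    -- the value is a multiple of `z`
    have hJ' : J v i (wv v [i'] y) = 0 := by
      obtain ⟨l, hl⟩ : ∃ l : ℂ, wv v [i'] y = fun a => l * z a := by
        unfold Same at hS
        by_cases hz1 : z 1 = 0
        · have hz0 := z0_ne hz hz1
          refine ⟨wv v [i'] y 0 / z 0, ?_⟩
          rw [hz1, mul_zero] at hS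
          have hS' := (mul_eq_zero.1 hS.symm).resolve_right hz0
          funext a
          fin_cases a
          · change wv v [i'] y 0 = wv v [i'] y 0 / z 0 * z 0
            rw [div_mul_cancel₀ _ hz0]
          · change wv v [i'] y 1 = wv v [i'] y 0 / z 0 * z 1
            rw [hS', hz1, mul_zero]
        · refine ⟨wv v [i'] y 1 / z 1, ?_⟩
          funext a
          fin_cases a
          · change wv v [i'] y 0 = wv v [i'] y 1 / z 1 * z 0
            rw [div_mul_eq_mul_div, eq_div_iff hz1]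
            exact hS
          · change wv v [i'] y 1 = wv v [i'] y 1 / z 1 * z 1
            rw [div_mul_cancel₀ _ hz1]
      rw [hl, J_smul, hJ, mul_zero]
    obtain ⟨hy1, hmov⟩ := hpre i i' y hy hJ'
    apply hmov
    obtain ⟨l, hl⟩ := hyf
    have e0 : σ (y 0) = l * y 0 := hl 0
    have e1 : σ (y 1) = l * y 1 := hl 1
    have hl0 : l ≠ 0 := by
      rintro rfl
      rw [zero_mul] at e1
      exact hy1 ((map_eq_zero_iff σ σ.injective).1 e1)
    rw [map_div₀, e0, e1, mul_div_mul_left _ _ hl0]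

/-- the conclusion for a tuple -/
def Good (v : Co k d → ℤ) : Prop :=
  (∀ i (z : Fin 2 → ℂ), z ≠ 0 → pt (bs fun e => ((v ⟨i, e⟩ : ℤ) : ℂ)) z ≠ 0) ∧
  ∀ (N : ℕ) (τ : Fin N → Fin k) (σ : Fin N → Fin N), Hm.DMLOver ⊤ σ (pull τ v)

theorem good_of (hd : ∀ i, 2 ≤ d i) (v : Co k d → ℤ) (σ : ℂ ≃+* ℂ)
    (h1 : ∀ i (z : ℂ), (JP (fun e => ((v e : ℤ) : ℂ)) i).eval z = 0 → σ z = z)
    (h2 : ∀ q (z : ℂ), (QP (fun e => ((v e : ℤ) : ℂ)) q).eval z = 0 → σ z ≠ z)
    (h3 : ∀ i, J (fun e => ((v e : ℤ) : ℂ)) i ![1, 0] ≠ 0)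
    (h4 : ∀ i i', J (fun e => ((v e : ℤ) : ℂ)) i
      (wv (fun e => ((v e : ℤ) : ℂ)) [i'] ![1, 0]) ≠ 0) : Good v := by
  obtain ⟨g1, g2⟩ := crit hd _ σ h1 h2 h3 h4
  refine ⟨g1, fun N τ s => ?_⟩
  refine all_points_g (g := σ) le_rfl (d := fun i => d (τ i))
    (fun i => by have := hd (τ i); omega) (pull τ v) (fun i z hz => g1 (τ i) z hz) ?_ s
  intro i z hz hJ
  obtain ⟨e, he, hf, hno⟩ := g2 (τ i) z hz hJ
  refine ⟨e, he, hf, fun y hy hyf w hw hS => ?_⟩
  apply hno y hy hyf (w.map τ) (by rw [List.length_map, hw])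
  rw [← wv_pull]
  exact hS

/-- **All tuples outside a thin set.** -/
theorem thin (d : Fin k → ℕ) (hd : ∀ i, 2 ≤ d i) :
    ∃ (W : Finset (MvPolynomial (Co k d) ℤ)[X]) (Z : Finset (MvPolynomial (Co k d) ℤ)),
      (∀ p ∈ W, p.Monic ∧ 2 ≤ p.natDegree ∧ Irreducible p) ∧ (∀ z ∈ Z, z ≠ 0) ∧
      ∀ v : Co k d → ℤ, (∀ p ∈ W, ∀ a : ℤ, (p.map (ev v)).eval a ≠ 0) →
        (∀ z ∈ Z, ev v z ≠ 0) → Good v := by
  classical
  obtain ⟨⟨Ω, hΩ, j, τ, hj, hFM⟩, hP, hQ, hA, hB⟩ := exists_FM d hd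
  obtain ⟨W, Z, hW, hZ, h⟩ := gal_spec (fun i => JP (gen d) i) (QP (gen d)) hP hQ j hj τ hFM
  refine ⟨W, Z ∪ (Finset.univ.image fun i => J (gen d) i ![1, 0]) ∪
    (Finset.univ.image fun q : Fin k × Fin k => J (gen d) q.1 (wv (gen d) [q.2] ![1, 0])),
    hW, ?_, ?_⟩
  · intro z hz
    simp only [Finset.mem_union, Finset.mem_image] at hz
    rcases hz with (hz | ⟨i, -, rfl⟩) | ⟨q, -, rfl⟩
    · exact hZ z hz
    · exact hA i
    · exact hB _ _
  · intro v hv1 hv2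
    obtain ⟨σ, hσ1, hσ2⟩ := h (ev v) hv1 (fun z hz => hv2 z (by
      simp only [Finset.mem_union]; tauto))
    have e1 : (fun e => toC (ev v) (gen d e)) = fun e => ((v e : ℤ) : ℂ) := by
      funext e
      change ((ev v (MvPolynomial.X e) : ℤ) : ℂ) = _
      rw [ev_X]
    have ez : ∀ z, toC (ev v) z = ((ev v z : ℤ) : ℂ) := fun z => rfl
    refine good_of hd v σ ?_ ?_ ?_ ?_
    · intro i z hz
      apply hσ1 i z
      rw [map_JP', e1]
      exact hz
    · intro q z hz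
      apply hσ2 q z
      rw [map_QP, e1]
      exact hz
    · intro i h0
      have h5 := J_nat (toC (ev v)) (gen d) i ![1, 0]
      have e2 : (fun a => toC (ev v) ((![1, 0] : Fin 2 → MvPolynomial (Co k d) ℤ) a)) = ![1, 0] := by
        funext a
        fin_cases a <;> simp
      rw [e1, e2, h0, ez] at h5
      apply hv2 (J (gen d) i ![1, 0]) (by
        simp only [Finset.mem_union, Finset.mem_image]
        exact Or.inl (Or.inr ⟨i, Finset.mem_univ _, rfl⟩))
      exact_mod_cast h5.symm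
    · intro i i' h0
      have h5 := J_nat (toC (ev v)) (gen d) i (wv (gen d) [i'] ![1, 0])
      have h6 := wv_nat (toC (ev v)) (gen d) [i'] ![1, 0]
      have e2 : (fun a => toC (ev v) ((![1, 0] : Fin 2 → MvPolynomial (Co k d) ℤ) a)) = ![1, 0] := by
        funext a
        fin_cases a <;> simp
      rw [e1, e2] at h6
      rw [e1, ← h6, h0, ez] at h5
      apply hv2 (J (gen d) i (wv (gen d) [i'] ![1, 0])) (by
        simp only [Finset.mem_union, Finset.mem_image]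
        exact Or.inr ⟨(i, i'), Finset.mem_univ _, rfl⟩)
      exact_mod_cast h5.symm

end

end Pool.Agent.V7H60.GH
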