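import Mathlib
import Pool.Agent.H977R3.CM.Aut

set_option autoImplicit false

/-!
# Specialisation of Galois groups: preliminaries
-/

namespace Pool.Agent.V7H60.GH

open Polynomial

/-- ring homomorphisms to `ℂ` extend along integral extensions -/
theorem exists_phi {R A : Type} [CommRing R] [CommRing A] [Algebra R A] [Algebra.IsIntegral R A]
    (hinj : Function.Injective (algebraMap R A)) (χ : R →+* ℂ) :
    ∃ φ : A →+* ℂ, ∀ r, φ (algebraMap R A r) = χ r := by
  have hprime : (RingHom.ker χ).IsPrime := RingHom.ker_isPrime χ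
  obtain ⟨Q, -, hQ, hQP⟩ := Ideal.exists_ideal_over_prime_of_isIntegral (R := R) (S := A)
    (RingHom.ker χ) ⊥ (by
      rw [← RingHom.ker_eq_comap_bot, (RingHom.injective_iff_ker_eq_bot _).1 hinj]
      exact bot_le)
  let f : R →+* A ⧸ Q := (Ideal.Quotient.mk Q).comp (algebraMap R A)
  have hf : RingHom.ker f = RingHom.ker χ := by
    rw [← hQP]
    ext r
    rw [RingHom.mem_ker, Ideal.mem_comap]
    exact Ideal.Quotient.eq_zero_iff_mem
  let B := R ⧸ RingHom.ker χ
  let fB : B →+* A ⧸ Q := Ideal.Quotient.lift (RingHom.ker χ) f (fun a ha => by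
    rw [← hf] at ha
    exact ha)
  let χB : B →+* ℂ := Ideal.Quotient.lift (RingHom.ker χ) χ (fun a ha => ha)
  let _ : Algebra B (A ⧸ Q) := fB.toAlgebra
  let _ : Algebra B ℂ := χB.toAlgebra
  have hfB : Function.Injective fB := by
    rw [injective_iff_map_eq_zero]
    intro a ha
    obtain ⟨r, rfl⟩ := Ideal.Quotient.mk_surjective a
    rw [Ideal.Quotient.eq_zero_iff_mem, ← hf]
    exact ha
  have hχB : Function.Injective χB := by
    rw [injective_iff_map_eq_zero]
    intro a ha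
    obtain ⟨r, rfl⟩ := Ideal.Quotient.mk_surjective a
    rw [Ideal.Quotient.eq_zero_iff_mem]
    exact ha
  have : IsDomain B := Ideal.Quotient.isDomain _
  have : IsDomain (A ⧸ Q) := Ideal.Quotient.isDomain _
  have : FaithfulSMul B (A ⧸ Q) := (faithfulSMul_iff_algebraMap_injective B (A ⧸ Q)).2 hfB
  have : FaithfulSMul B ℂ := (faithfulSMul_iff_algebraMap_injective B ℂ).2 hχB
  have : Algebra.IsIntegral B (A ⧸ Q) := by
    constructor
    intro a
    obtain ⟨a, rfl⟩ := Ideal.Quotient.mk_surjective a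
    obtain ⟨p, hp, hpa⟩ := Algebra.IsIntegral.isIntegral (R := R) a
    refine ⟨p.map (Ideal.Quotient.mk _), hp.map _, ?_⟩
    rw [eval₂_map]
    have h1 : (algebraMap B (A ⧸ Q)).comp (Ideal.Quotient.mk (RingHom.ker χ)) =
        (Ideal.Quotient.mk Q).comp (algebraMap R A) := by
      ext r
      rfl
    rw [h1, ← hom_eval₂, hpa, map_zero]
  let ψ : A ⧸ Q →ₐ[B] ℂ := IsAlgClosed.lift
  refine ⟨(ψ : A ⧸ Q →+* ℂ).comp (Ideal.Quotient.mk Q), fun r => ?_⟩
  have h1 := ψ.commutes (Ideal.Quotient.mk _ r)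
  exact h1

/-- conjugate algebraic numbers are exchanged by an automorphism of `ℂ` -/
theorem exists_sigma {a b : ℂ} (ha : IsIntegral ℚ a) (hb : aeval b (minpoly ℚ a) = 0) :
    ∃ σ : ℂ ≃+* ℂ, σ a = b := by
  let Qb := algebraicClosure ℚ ℂ
  have hbi : IsIntegral ℚ b := ⟨minpoly ℚ a, minpoly.monic ha, hb⟩
  have ha' : a ∈ Qb := mem_algebraicClosure_iff.2 ha.isAlgebraic
  have hb' : b ∈ Qb := mem_algebraicClosure_iff.2 hbi.isAlgebraic
  have : IsAlgClosure ℚ Qb := algebraicClosure.isAlgClosure ℚ ℂ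
  have : Normal ℚ Qb := IsAlgClosure.normal ℚ Qb
  obtain ⟨s, hs⟩ := minpoly.exists_algEquiv_of_root' (K := ℚ) (L := Qb) (x := ⟨b, hb'⟩)
    (y := ⟨a, ha'⟩) (Algebra.IsAlgebraic.isAlgebraic _) (by
      apply (algebraMap Qb ℂ).injective
      rw [← aeval_algebraMap_apply, map_zero]
      rw [← minpoly.algebraMap_eq (algebraMap Qb ℂ).injective (⟨a, ha'⟩ : Qb)]
      exact hb)
  obtain ⟨σ, hσ⟩ := Pool.Agent.H977R3.CM.exists_aut (algebraMap Qb ℂ) s.toRingEquiv
  refine ⟨σ, ?_⟩
  have h1 := hσ ⟨a, ha'⟩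
  change σ a = ((s ⟨a, ha'⟩ : Qb) : ℂ) at h1
  rw [h1, hs]

/-- monic divisors of products of linear factors -/
theorem dvd_prod {k : Type} [Field k] {G : Type} [DecidableEq G] (f : G → k) (s : Finset G) :
    ∀ q : k[X], q.Monic → q ∣ ∏ i ∈ s, (X - C (f i)) → ∃ t ⊆ s, q = ∏ i ∈ t, (X - C (f i)) := by
  induction s using Finset.induction_on with
  | empty =>
    intro q hq h
    rw [Finset.prod_empty] at h
    refine ⟨∅, subset_rfl, ?_⟩
    rw [Finset.prod_empty]
    exact hq.eq_one_of_isUnit (isUnit_of_dvd_one h)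
  | insert a s ha ih =>
    intro q hq h
    rw [Finset.prod_insert ha] at h
    by_cases h1 : (X - C (f a)) ∣ q
    · obtain ⟨q', rfl⟩ := h1
      have hq' : q'.Monic := (monic_X_sub_C _).of_mul_monic_left hq
      obtain ⟨t, ht, h2⟩ := ih q' hq' ((mul_dvd_mul_iff_left (X_sub_C_ne_zero _)).1 h)
      refine ⟨insert a t, Finset.insert_subset_insert a ht, ?_⟩
      rw [Finset.prod_insert (fun h => ha (ht h)), ← h2]
    · have h2 : IsCoprime q (X - C (f a)) :=
        ((irreducible_X_sub_C (f a)).coprime_iff_not_dvd.2 h1).symm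
      obtain ⟨t, ht, h3⟩ := ih q hq (h2.dvd_of_dvd_mul_left h)
      exact ⟨t, ht.trans (Finset.subset_insert _ _), h3⟩

end Pool.Agent.V7H60.GH
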