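import Pool.Agent.V7H60.GC.Cheb

set_option autoImplicit false
set_option linter.unusedSectionVars false

/-!
# A prime at which all critical points of the examples are rational
-/

namespace Pool.Agent.V7H60.GH

open Polynomial Pool.Agent.V7H60.GC

/-- the critical points of `(x ^ (n + 2) - x) / (x ^ (n + 1) + 1)` -/
noncomputable def Wp (n : ℕ) (K : Type) [CommRing K] : K[X] :=
  X ^ (2 * n + 2) + C ((2 * n + 2 : ℕ) : K) * X ^ (n + 1) - 1

theorem map_Wp (n : ℕ) {K S : Type} [CommRing K] [CommRing S] (φ : K →+* S) :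
    (Wp n K).map φ = Wp n S := by
  unfold Wp
  rw [Polynomial.map_sub, Polynomial.map_add, Polynomial.map_mul, Polynomial.map_pow,
    Polynomial.map_pow, Polynomial.map_X, Polynomial.map_C, map_natCast, Polynomial.map_one]

theorem Wp_monic (n : ℕ) (K : Type) [CommRing K] [Nontrivial K] : (Wp n K).Monic ∧
    (Wp n K).natDegree = 2 * n + 2 := by
  have h : Wp n K = X ^ (2 * n + 2) + (C ((2 * n + 2 : ℕ) : K) * X ^ (n + 1) - 1) := by
    unfold Wp
    ring
  have h1 : (C ((2 * n + 2 : ℕ) : K) * X ^ (n + 1) - 1 : K[X]).natDegree < 2 * n + 2 := by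
    refine lt_of_le_of_lt (natDegree_sub_le _ _) (max_lt ?_ ?_)
    · exact lt_of_le_of_lt (natDegree_C_mul_X_pow_le _ _) (by omega)
    · rw [natDegree_one]
      omega
  have h2 : (C ((2 * n + 2 : ℕ) : K) * X ^ (n + 1) - 1 : K[X]).degree < ((2 * n + 2 : ℕ) : WithBot ℕ) :=
    lt_of_le_of_lt degree_le_natDegree (by exact_mod_cast h1)
  rw [h]
  exact ⟨monic_X_pow_add h2, by
    rw [natDegree_add_eq_left_of_natDegree_lt (by rw [natDegree_X_pow]; exact h1), natDegree_X_pow]⟩

theorem Wp_separable (n : ℕ) {K : Type} [Field K] (h1 : ((2 * n + 2 : ℕ) : K) ≠ 0)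
    (h2 : (((n + 1) ^ 2 + 1 : ℕ) : K) ≠ 0) : (Wp n K).Separable := by
  unfold Polynomial.Separable
  have hder : derivative (Wp n K) = C ((2 * n + 2 : ℕ) : K) * (X ^ n * (X ^ (n + 1) + C ((n + 1 : ℕ) : K))) := by
    unfold Wp
    simp only [derivative_sub, derivative_add, derivative_X_pow, derivative_C_mul_X_pow,
      derivative_one, C_mul]
    have e1 : 2 * n + 2 - 1 = n + (n + 1) := by omega
    rw [e1, Nat.add_sub_cancel, pow_add]
    simp only [Nat.cast_add, Nat.cast_mul, Nat.cast_one, Nat.cast_ofNat]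
    ring
  rw [hder]
  have hX : IsCoprime (Wp n K) X := by
    refine ⟨-1, X ^ (2 * n + 1) + C ((2 * n + 2 : ℕ) : K) * X ^ n, ?_⟩
    unfold Wp
    ring
  have hT : IsCoprime (Wp n K) (X ^ (n + 1) + C ((n + 1 : ℕ) : K)) := by
    refine ⟨-C ((((n + 1) ^ 2 + 1 : ℕ) : K)⁻¹), C ((((n + 1) ^ 2 + 1 : ℕ) : K)⁻¹) *
      (X ^ (n + 1) + C ((n + 1 : ℕ) : K)), ?_⟩
    have e1 : (X ^ (n + 1) + C ((n + 1 : ℕ) : K)) * (X ^ (n + 1) + C ((n + 1 : ℕ) : K)) -
        Wp n K = C (((n + 1) ^ 2 + 1 : ℕ) : K) := by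
      unfold Wp
      simp only [Nat.cast_add, Nat.cast_mul, Nat.cast_one, Nat.cast_ofNat,
        Nat.cast_pow, map_add, map_mul, map_pow, map_one, map_natCast, map_ofNat]
      ring
    have e2 : C ((((n + 1) ^ 2 + 1 : ℕ) : K)⁻¹) * C (((n + 1) ^ 2 + 1 : ℕ) : K) = 1 := by
      rw [← C_mul, inv_mul_cancel₀ h2, C_1]
    linear_combination (C ((((n + 1) ^ 2 + 1 : ℕ) : K)⁻¹)) * e1 + e2
  refine IsCoprime.mul_right ?_ (IsCoprime.mul_right hX.pow_right hT)
  refine ⟨0, C ((((2 * n + 2 : ℕ) : K))⁻¹), ?_⟩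
  rw [zero_mul, zero_add, ← C_mul, inv_mul_cancel₀ h1, C_1]

/-- a prime modulo which all roots of given monic polynomials are rational -/
theorem exists_prime_split (F : Finset ℤ[X]) (hF : ∀ f ∈ F, f.Monic) (B : ℕ) :
    ∃ p : ℕ, p.Prime ∧ B < p ∧ ∀ f ∈ F, (f.map (Int.castRingHom (ZMod p))).Splits := by
  classical
  let T : Set ℂ := ⋃ f ∈ F, {z | ((f.map (Int.castRingHom ℂ))).eval z = 0}
  have hfin : T.Finite := by
    refine Set.Finite.biUnion F.finite_toSet fun f hf => ?_
    have h0 : f.map (Int.castRingHom ℂ) ≠ 0 := ((hF f hf).map _).ne_zero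
    refine Set.Finite.subset (f.map (Int.castRingHom ℂ)).roots.toFinset.finite_toSet ?_
    intro z hz
    rw [Finset.mem_coe, Multiset.mem_toFinset, mem_roots h0]
    exact hz
  have hT : ∀ t ∈ T, IsAlgebraic ℚ t := by
    intro t ht
    obtain ⟨f, hf, hz⟩ := Set.mem_iUnion₂.1 ht
    have h1 : IsIntegral ℤ t := ⟨f, hF f hf, by
      rw [← eval_map]
      exact hz⟩
    exact (h1.tower_top (A := ℚ)).isAlgebraic
  obtain ⟨P, hPB, hP⟩ := exists_pkg (RingEquiv.refl ℂ) T hfin hT B
  have hpr := P.hp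
  refine ⟨P.p, hpr.out, hPB, fun f hf => ?_⟩
  have hf1 := hF f hf
  have hval : ∀ x : P.R, P.ψ x ∈ (algebraMap (ZMod P.p) (AlgebraicClosure (ZMod P.p))).range := by
    intro x
    have h1 := P.frob x x rfl
    have h2 := (Subfield.mem_bot_iff_pow_eq_self (F := AlgebraicClosure (ZMod P.p)) (p := P.p)).2
      h1.symm
    rw [← ZMod.fieldRange_castHom_eq_bot P.p, RingHom.mem_fieldRange] at h2
    obtain ⟨u, hu⟩ := h2
    exact ⟨u, by rw [← hu]; congr 1; exact Subsingleton.elim _ _⟩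
  -- the factorisation over the ring
  have hsC : (f.map (Int.castRingHom ℂ)).Splits := IsAlgClosed.splits _
  have hex : ∀ z : ℂ, ∃ r : P.R, (f.map (Int.castRingHom ℂ)).eval z = 0 → P.ι r = z := by
    intro z
    by_cases hz : (f.map (Int.castRingHom ℂ)).eval z = 0
    · obtain ⟨r, hr⟩ := hP z (Set.mem_iUnion₂.2 ⟨f, hf, hz⟩)
      exact ⟨r, fun _ => hr⟩
    · exact ⟨0, fun h => absurd h hz⟩
  choose r hr using hex
  have h1 : f.map (Int.castRingHom P.R) =
      ((f.map (Int.castRingHom ℂ)).roots.map fun z => X - C (r z)).prod := by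
    apply Polynomial.map_injective P.ι P.inj
    rw [Polynomial.map_map, Polynomial.map_multiset_prod, Multiset.map_map]
    have e1 : P.ι.comp (Int.castRingHom P.R) = Int.castRingHom ℂ := RingHom.ext_int _ _
    rw [e1]
    conv_lhs => rw [hsC.eq_prod_roots_of_monic (hf1.map _)]
    congr 1
    refine Multiset.map_congr rfl fun z hz => ?_
    rw [Function.comp_apply, Polynomial.map_sub, Polynomial.map_X, Polynomial.map_C,
      hr z (mem_roots'.1 hz).2]
  have h2 : (f.map (Int.castRingHom (ZMod P.p))).map (algebraMap (ZMod P.p)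
      (AlgebraicClosure (ZMod P.p))) =
      ((f.map (Int.castRingHom ℂ)).roots.map fun z => X - C (P.ψ (r z))).prod := by
    have e1 : (algebraMap (ZMod P.p) (AlgebraicClosure (ZMod P.p))).comp
        (Int.castRingHom (ZMod P.p)) = P.ψ.comp (Int.castRingHom P.R) := RingHom.ext_int _ _
    rw [Polynomial.map_map, e1, ← Polynomial.map_map, h1, Polynomial.map_multiset_prod,
      Multiset.map_map]
    congr 1
    refine Multiset.map_congr rfl fun z _ => ?_
    rw [Function.comp_apply, Polynomial.map_sub, Polynomial.map_X, Polynomial.map_C]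
  refine Splits.of_splits_map (algebraMap (ZMod P.p) (AlgebraicClosure (ZMod P.p)))
    (IsAlgClosed.splits _) ?_
  intro a ha
  rw [h2] at ha
  have h3 : a ∈ (((f.map (Int.castRingHom ℂ)).roots.map fun z => P.ψ (r z)).map
      fun a => X - C a).prod.roots := by
    rw [Multiset.map_map]
    exact ha
  rw [roots_multiset_prod_X_sub_C, Multiset.mem_map] at h3
  obtain ⟨z, -, rfl⟩ := h3
  exact hval _

end Pool.Agent.V7H60.GH
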