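import Pool.Agent.V7H60.GH.Main

set_option autoImplicit false
set_option linter.unusedSectionVars false

/-!
# Frobenius elements fix and move roots
-/

namespace Pool.Agent.V7H60.GH

open Polynomial

section

variable {R L : Type} [CommRing R] [IsDomain R] [IsIntegrallyClosed R] [Field L] [Algebra R L]
  {kk : Type} [Field kk] {p : ℕ} [Fact p.Prime]

theorem red_prod (hinj : Function.Injective (algebraMap R L)) {q : R[X]}
    (hs : (q.map (algebraMap R L)).Splits) (ψ : integralClosure R L →+* kk) (ρ : R →+* ZMod p)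
    (i : ZMod p →+* kk) (hi : ∀ r, ψ (algebraMap R (integralClosure R L) r) = i (ρ r)) :
    C (i (ρ q.leadingCoeff)) * ((q.map (algebraMap R L)).roots.map fun r =>
      C (i (ρ q.leadingCoeff)) * X - C (ψ (bet q r))).prod =
      C (i (ρ q.leadingCoeff)) ^ (Multiset.card (q.map (algebraMap R L)).roots) *
        (q.map ρ).map i := by
  have h1 := congrArg (Polynomial.map ψ) (bet_prod hinj hs)
  have hcomp : ψ.comp (algebraMap R (integralClosure R L)) = i.comp ρ := by
    ext r
    exact hi r
  rw [Polynomial.map_mul, Polynomial.map_mul, Polynomial.map_pow, Polynomial.map_C,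
    Polynomial.map_multiset_prod, Multiset.map_map, hi, Polynomial.map_map, hcomp,
    ← Polynomial.map_map] at h1
  rw [← h1]
  congr 2
  refine Multiset.map_congr rfl fun r _ => ?_
  rw [Function.comp_apply, Polynomial.map_sub, Polynomial.map_mul, Polynomial.map_C,
    Polynomial.map_X, Polynomial.map_C, hi]

theorem red_root (hinj : Function.Injective (algebraMap R L)) {q : R[X]} (hq : q ≠ 0)
    (hs : (q.map (algebraMap R L)).Splits) (ψ : integralClosure R L →+* kk) (ρ : R →+* ZMod p)
    (i : ZMod p →+* kk) (hi : ∀ r, ψ (algebraMap R (integralClosure R L) r) = i (ρ r))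
    (hl : ρ q.leadingCoeff ≠ 0) {r : L} (hr : aeval r q = 0) :
    ((q.map ρ).map i).eval (ψ (bet q r) / i (ρ q.leadingCoeff)) = 0 := by
  have hl' : i (ρ q.leadingCoeff) ≠ 0 := (map_ne_zero_iff i i.injective).2 hl
  have h1 := congrArg (fun f => eval (ψ (bet q r) / i (ρ q.leadingCoeff)) f)
    (red_prod hinj hs ψ ρ i hi)
  simp only [eval_mul, eval_pow, eval_C] at h1
  have hmem : r ∈ (q.map (algebraMap R L)).roots := by
    rw [mem_roots ((Polynomial.map_ne_zero_iff hinj).2 hq), IsRoot.def, eval_map_algebraMap]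
    exact hr
  have h2 : eval (ψ (bet q r) / i (ρ q.leadingCoeff))
      ((q.map (algebraMap R L)).roots.map fun r =>
        C (i (ρ q.leadingCoeff)) * X - C (ψ (bet q r))).prod = 0 := by
    rw [eval_multiset_prod, Multiset.map_map, Multiset.prod_eq_zero_iff, Multiset.mem_map]
    refine ⟨r, hmem, ?_⟩
    rw [Function.comp_apply, eval_sub, eval_mul, eval_C, eval_X, eval_C, mul_div_cancel₀ _ hl',
      sub_self]
  rw [h2, mul_zero] at h1
  exact (mul_eq_zero.1 h1.symm).resolve_left (pow_ne_zero _ hl')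

theorem red_inj (hinj : Function.Injective (algebraMap R L)) {q : R[X]} (hq : q ≠ 0)
    (hs : (q.map (algebraMap R L)).Splits) (ψ : integralClosure R L →+* kk) (ρ : R →+* ZMod p)
    (i : ZMod p →+* kk) (hi : ∀ r, ψ (algebraMap R (integralClosure R L) r) = i (ρ r))
    (hl : ρ q.leadingCoeff ≠ 0) (hsep : (q.map ρ).Separable) {r r' : L} (hr : aeval r q = 0)
    (hr' : aeval r' q = 0) (h : ψ (bet q r) = ψ (bet q r')) : r = r' := by
  classical
  by_contra hne
  have hl' : i (ρ q.leadingCoeff) ≠ 0 := (map_ne_zero_iff i i.injective).2 hl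
  have hmem : ∀ s, aeval s q = 0 → s ∈ (q.map (algebraMap R L)).roots := by
    intro s hs
    rw [mem_roots ((Polynomial.map_ne_zero_iff hinj).2 hq), IsRoot.def, eval_map_algebraMap]
    exact hs
  have h1 : ({r, r'} : Multiset L) ≤ (q.map (algebraMap R L)).roots := by
    rw [Multiset.le_iff_subset]
    · intro s hs
      rw [Multiset.insert_eq_cons, Multiset.mem_cons, Multiset.mem_singleton] at hs
      rcases hs with rfl | rfl
      · exact hmem _ hr
      · exact hmem _ hr'
    · rw [Multiset.insert_eq_cons, Multiset.nodup_cons]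
      exact ⟨by rwa [Multiset.mem_singleton], Multiset.nodup_singleton _⟩
  have h2 := Multiset.prod_dvd_prod_of_le (Multiset.map_le_map (f := fun s =>
    C (i (ρ q.leadingCoeff)) * X - C (ψ (bet q s))) h1)
  have h3 : (({r, r'} : Multiset L).map fun s =>
      C (i (ρ q.leadingCoeff)) * X - C (ψ (bet q s))).prod =
      (C (i (ρ q.leadingCoeff)) * (X - C (ψ (bet q r) / i (ρ q.leadingCoeff)))) *
      (C (i (ρ q.leadingCoeff)) * (X - C (ψ (bet q r) / i (ρ q.leadingCoeff)))) := by
    rw [Multiset.insert_eq_cons, Multiset.map_cons, Multiset.map_singleton, Multiset.prod_cons,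
      Multiset.prod_singleton, ← h]
    have h4 : C (i (ρ q.leadingCoeff)) * (X - C (ψ (bet q r) / i (ρ q.leadingCoeff))) =
        C (i (ρ q.leadingCoeff)) * X - C (ψ (bet q r)) := by
      rw [mul_sub, ← C_mul, mul_div_cancel₀ _ hl']
    rw [h4]
  rw [h3] at h2
  have h5 := h2.trans (dvd_mul_left _ (C (i (ρ q.leadingCoeff))))
  rw [red_prod hinj hs ψ ρ i hi] at h5
  have h6 : (X - C (ψ (bet q r) / i (ρ q.leadingCoeff))) *
      (X - C (ψ (bet q r) / i (ρ q.leadingCoeff))) ∣ (q.map ρ).map i := by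
    have h7 : IsUnit (C (i (ρ q.leadingCoeff)) ^
        (Multiset.card (q.map (algebraMap R L)).roots)) :=
      (isUnit_C.2 (isUnit_iff_ne_zero.2 hl')).pow _
    refine dvd_trans ?_ (h7.dvd_mul_left.1 h5)
    exact mul_dvd_mul (dvd_mul_left _ _) (dvd_mul_left _ _)
  have h8 := (hsep.map (f := i)).squarefree _ h6
  exact not_isUnit_X_sub_C _ h8

end

/-- **Frobenius elements.** -/
theorem frob {R : Type} [CommRing R] [IsDomain R] [IsIntegrallyClosed R] [IsNoetherianRing R]
    [CharZero R] {p : ℕ} [Fact p.Prime] (ρ : R →+* ZMod p)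
    {κ κ' : Type} [Fintype κ] [Fintype κ'] (P : κ → R[X]) (Q : κ' → R[X])
    (hPl : ∀ k, ρ (P k).leadingCoeff ≠ 0) (hQl : ∀ k, ρ (Q k).leadingCoeff ≠ 0)
    (hPs : ∀ k, ((P k).map ρ).Splits) (hPn : ∀ k, ((P k).map ρ).Separable)
    (hQn : ∀ k (a : ZMod p), ((Q k).map ρ).eval a ≠ 0) :
    ∃ (Ω : Type) (_ : Field Ω) (j : R →+* Ω) (τ : Ω ≃+* Ω), Function.Injective j ∧
      FM P Q j τ := by
  classical
  have hP : ∀ k, P k ≠ 0 := fun k h => hPl k (by rw [h, leadingCoeff_zero, map_zero])
  have hQ : ∀ k, Q k ≠ 0 := fun k h => hQl k (by rw [h, leadingCoeff_zero, map_zero])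
  let K := FractionRing R
  have hch : CharZero K := charZero_of_injective_algebraMap (IsFractionRing.injective R K)
  let T : R[X] := (∏ k, P k) * ∏ k, Q k
  have hT0 : T ≠ 0 := mul_ne_zero (Finset.prod_ne_zero_iff.2 fun k _ => hP k)
    (Finset.prod_ne_zero_iff.2 fun k _ => hQ k)
  let Ω := (T.map (algebraMap R K)).SplittingField
  have hnorm : Normal K Ω := Normal.of_isSplittingField (T.map (algebraMap R K))
  have hgal : IsGalois K Ω := ⟨⟩
  have hinj : Function.Injective (algebraMap R Ω) := inj_RL R K Ω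
  have hinjL : Function.Injective (algebraMap (integralClosure R Ω) Ω) :=
    FaithfulSMul.algebraMap_injective _ _
  have hTL : (T.map (algebraMap R Ω)).Splits := by
    have h1 := IsSplittingField.splits Ω (T.map (algebraMap R K))
    rw [Polynomial.map_map, ← IsScalarTower.algebraMap_eq R K Ω] at h1
    exact h1
  have hTL0 : T.map (algebraMap R Ω) ≠ 0 := (Polynomial.map_ne_zero_iff hinj).2 hT0
  have hsP : ∀ k, ((P k).map (algebraMap R Ω)).Splits := by
    intro k
    refine hTL.of_dvd hTL0 (Polynomial.map_dvd _ ?_)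
    exact (Finset.dvd_prod_of_mem P (Finset.mem_univ k)).trans (dvd_mul_right _ _)
  have hsQ : ∀ k, ((Q k).map (algebraMap R Ω)).Splits := by
    intro k
    refine hTL.of_dvd hTL0 (Polynomial.map_dvd _ ?_)
    exact (Finset.dvd_prod_of_mem Q (Finset.mem_univ k)).trans (dvd_mul_left _ _)
  -- the prime
  have hfinA : Module.Finite R (integralClosure R Ω) := IsIntegralClosure.finite R K Ω _
  have hprime : (RingHom.ker ρ).IsPrime := RingHom.ker_isPrime ρ
  obtain ⟨B, -, hB, hBρ⟩ := Ideal.exists_ideal_over_prime_of_isIntegral (R := R)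
    (S := integralClosure R Ω) (RingHom.ker ρ) ⊥ (by
      rw [← RingHom.ker_eq_comap_bot, (RingHom.injective_iff_ker_eq_bot _).1 (inj_RA hinj)]
      exact bot_le)
  have hsurj : Function.Surjective ρ := ZMod.ringHom_surjective ρ
  have hunder : B.under R = RingHom.ker ρ := hBρ
  let e : (R ⧸ B.under R) ≃ ZMod p :=
    ((Ideal.quotEquivOfEq hunder).trans (RingHom.quotientKerEquivOfSurjective hsurj)).toEquiv
  have hcard : Nat.card (R ⧸ B.under R) = p := by
    rw [Nat.card_congr e, Nat.card_zmod]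
  have hfin1 : Finite (R ⧸ B.under R) := Finite.of_equiv _ e.symm
  have hfin2 : Module.Finite (R ⧸ B.under R) (integralClosure R Ω ⧸ B) :=
    Module.Finite.of_restrictScalars_finite R _ _
  have hfin3 : Finite (integralClosure R Ω ⧸ B) := Module.finite_of_finite (R ⧸ B.under R)
  let _ := IsIntegralClosure.MulSemiringAction R K Ω (integralClosure R Ω)
  have hfr : IsFractionRing (integralClosure R Ω) Ω :=
    IsIntegralClosure.isFractionRing_of_finite_extension R K Ω (integralClosure R Ω)
  have hcomm : SMulCommClass (Ω ≃ₐ[K] Ω) R (integralClosure R Ω) :=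
    ⟨fun g r a => map_smul (galRestrict R K Ω (integralClosure R Ω) g) r a⟩
  have hinv : Algebra.IsInvariant R (integralClosure R Ω) (Ω ≃ₐ[K] Ω) :=
    Algebra.isInvariant_of_isGalois R K Ω (integralClosure R Ω)
  obtain ⟨g, hg⟩ := IsArithFrobAt.exists_of_isInvariant R (Ω ≃ₐ[K] Ω) B
  have hg' : ∀ a : integralClosure R Ω, act g a - a ^ p ∈ B := by
    intro a
    have h1 := hg a
    rw [hcard] at h1
    exact h1
  have hbetmem : ∀ q : R[X], ∀ r : Ω, aeval r q = 0 → act g (bet q r) = bet q (g r) := by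
    intro q r hr
    apply hinjL
    rw [alg_act, bet_coe hr]
    have hgr : aeval (g r) q = 0 := by
      have e1 := hom_eval₂ q (algebraMap R Ω) ((g : Ω →ₐ[K] Ω) : Ω →+* Ω) r
      have e2 : (((g : Ω →ₐ[K] Ω) : Ω →+* Ω)).comp (algebraMap R Ω) = algebraMap R Ω := by
        ext s
        rw [RingHom.comp_apply, IsScalarTower.algebraMap_apply R K Ω]
        exact g.commutes _
      rw [e2] at e1
      have e3 : eval₂ (algebraMap R Ω) r q = 0 := hr
      rw [e3, map_zero] at e1
      exact e1.symm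
    change _ = ((bet q (g r) : integralClosure R Ω) : Ω)
    rw [bet_coe hgr, Algebra.smul_def, Algebra.smul_def, map_mul,
      IsScalarTower.algebraMap_apply R K Ω, g.commutes]
  -- the residue field
  have hdom : IsDomain (integralClosure R Ω ⧸ B) := Ideal.Quotient.isDomain B
  have hmax : B.IsMaximal := Ideal.Quotient.maximal_of_isField B (Finite.isField_of_domain _)
  let _ : Field (integralClosure R Ω ⧸ B) := Ideal.Quotient.field B
  let ψ : integralClosure R Ω →+* integralClosure R Ω ⧸ B := Ideal.Quotient.mk B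
  have hker : ∀ r, ρ r = 0 ↔ ψ (algebraMap R (integralClosure R Ω) r) = 0 := by
    intro r
    rw [Ideal.Quotient.eq_zero_iff_mem, ← RingHom.mem_ker, ← hBρ, Ideal.mem_comap]
  have hchar : CharP (integralClosure R Ω ⧸ B) p := by
    constructor
    intro n
    have h1 := hker (n : R)
    rw [map_natCast, map_natCast, map_natCast] at h1
    rw [← h1, CharP.cast_eq_zero_iff (ZMod p) p]
  let i : ZMod p →+* integralClosure R Ω ⧸ B := ZMod.castHom (dvd_refl p) _
  have hi : ∀ r, ψ (algebraMap R (integralClosure R Ω) r) = i (ρ r) := by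
    intro r
    obtain ⟨n, hn⟩ := ZMod.intCast_surjective (ρ r)
    have h1 : ρ (r - n) = 0 := by rw [map_sub, map_intCast, hn, sub_self]
    have h2 := (hker _).1 h1
    rw [map_sub, map_sub, map_intCast, map_intCast, sub_eq_zero] at h2
    rw [h2, ← hn, map_intCast]
  have hpow : ∀ x : integralClosure R Ω ⧸ B, x ^ p = x ↔ ∃ u, i u = x := by
    intro x
    rw [← Subfield.mem_bot_iff_pow_eq_self (F := integralClosure R Ω ⧸ B) (p := p),
      ← ZMod.fieldRange_castHom_eq_bot p, RingHom.mem_fieldRange]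
  have hψg : ∀ a, ψ (act g a) = ψ a ^ p := by
    intro a
    rw [← map_pow]
    exact Ideal.Quotient.eq.2 (hg' a)
  refine ⟨Ω, inferInstance, algebraMap R Ω, g.toRingEquiv, hinj, ⟨?_, hsP, hsQ, ?_, ?_⟩⟩
  · intro r
    rw [IsScalarTower.algebraMap_apply R K Ω]
    exact g.commutes _
  · intro k z hz
    rw [eval_map_algebraMap] at hz
    change g z = z
    have hgz : aeval (g z) (P k) = 0 := by
      have e1 := hom_eval₂ (P k) (algebraMap R Ω) ((g : Ω →ₐ[K] Ω) : Ω →+* Ω) z
      have e2 : (((g : Ω →ₐ[K] Ω) : Ω →+* Ω)).comp (algebraMap R Ω) = algebraMap R Ω := by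
        ext s
        rw [RingHom.comp_apply, IsScalarTower.algebraMap_apply R K Ω]
        exact g.commutes _
      rw [e2] at e1
      have e3 : eval₂ (algebraMap R Ω) z (P k) = 0 := hz
      rw [e3, map_zero] at e1
      exact e1.symm
    refine red_inj hinj (hP k) (hsP k) ψ ρ i hi (hPl k) (hPn k) hgz hz ?_
    rw [← hbetmem _ _ hz, hψg]
    rw [hpow]
    -- the root is in the prime field
    have h1 := red_root hinj (hP k) (hsP k) ψ ρ i hi (hPl k) hz
    have hl' : i (ρ (P k).leadingCoeff) ≠ 0 := (map_ne_zero_iff i i.injective).2 (hPl k)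
    have h2 : ((P k).map ρ) ≠ 0 := (hPn k).ne_zero
    have h3 : ψ (bet (P k) z) / i (ρ (P k).leadingCoeff) ∈ (((P k).map ρ).map i).roots := by
      rw [mem_roots ((Polynomial.map_ne_zero_iff i.injective).2 h2)]
      exact h1
    rw [(hPs k).roots_map, Multiset.mem_map] at h3
    obtain ⟨u, -, hu⟩ := h3
    refine ⟨u * ρ (P k).leadingCoeff, ?_⟩
    rw [map_mul, hu, div_mul_cancel₀ _ hl']
  · intro k z hz hgz
    rw [eval_map_algebraMap] at hz
    change g z = z at hgz
    have hl' : i (ρ (Q k).leadingCoeff) ≠ 0 := (map_ne_zero_iff i i.injective).2 (hQl k)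
    have h1 := red_root hinj (hQ k) (hsQ k) ψ ρ i hi (hQl k) hz
    have h2 : ψ (bet (Q k) z) ^ p = ψ (bet (Q k) z) := by
      rw [← hψg, hbetmem _ _ hz, hgz]
    obtain ⟨u, hu⟩ := (hpow _).1 h2
    have h3 : ψ (bet (Q k) z) / i (ρ (Q k).leadingCoeff) = i (u / ρ (Q k).leadingCoeff) := by
      rw [map_div₀, hu]
    rw [h3, eval_map, eval₂_at_apply] at h1
    exact hQn k _ ((map_eq_zero i).1 h1)

end Pool.Agent.V7H60.GH
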