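import Pool.Agent.V7H60.GH.Form
import Pool.Agent.V7H60.GH.Ex
import Pool.Agent.V7H60.GH.Frob

set_option autoImplicit false
set_option linter.unusedSectionVars false

/-!
# Rational functions with rational critical points which are not values, modulo a prime
-/

namespace Pool.Agent.V7H60.GH

open Polynomial Pool.Agent.TH838.DS Pool.Agent.H936R2 Pool.Agent.V7H60.GC

/-- a value which is omitted -/
theorem exists_omit (n : ℕ) (p : ℕ) [Fact p.Prime] (hp : p ≠ 2) :
    ∃ b : ZMod p, ∀ x : ZMod p, x ^ (n + 2) - x - b * (x ^ (n + 1) + 1) ≠ 0 := by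
  have h1 : ¬ Function.Injective (fun x : ZMod p => (x ^ (n + 2) - x) / (x ^ (n + 1) + 1)) := by
    intro h
    have h2 : (0 : ZMod p) = 1 := h (by simp)
    exact zero_ne_one h2
  rw [Finite.injective_iff_surjective] at h1
  unfold Function.Surjective at h1
  push Not at h1
  obtain ⟨b, hb⟩ := h1
  refine ⟨b, fun x hx => ?_⟩
  by_cases h2 : x ^ (n + 1) + 1 = 0
  · rw [h2, mul_zero, sub_zero] at hx
    have h3 : (2 : ZMod p) * x = 0 := by
      have e1 : x ^ (n + 2) = x ^ (n + 1) * x := pow_succ _ _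
      linear_combination x * h2 - hx + e1
    have h4 : (2 : ZMod p) ≠ 0 := by
      intro h
      have h5 : ((2 : ℕ) : ZMod p) = 0 := by exact_mod_cast h
      rw [CharP.cast_eq_zero_iff (ZMod p) p] at h5
      exact hp ((Nat.prime_dvd_prime_iff_eq Fact.out Nat.prime_two).1 h5)
    have h5 := (mul_eq_zero.1 h3).resolve_left h4
    rw [h5, zero_pow (Nat.succ_ne_zero n), zero_add] at h2
    exact one_ne_zero h2
  · apply hb x
    rw [div_eq_iff h2]
    linear_combination hx

/-- the numerator -/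
noncomputable def FF (n : ℕ) {K : Type} [CommRing K] (b : K) : K[X] :=
  X ^ (n + 2) - X - C b * (X ^ (n + 1) + 1)

/-- the denominator -/
noncomputable def GG (n : ℕ) (K : Type) [CommRing K] : K[X] := X ^ (n + 1) + 1

theorem wron (n : ℕ) {K : Type} [CommRing K] (b : K) :
    derivative (FF n b) * GG n K - FF n b * derivative (GG n K) = Wp n K := by
  unfold FF GG Wp
  simp only [derivative_sub, derivative_add, derivative_mul, derivative_X_pow, derivative_X,
    derivative_one, derivative_C, Nat.add_sub_cancel]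
  have e1 : n + 2 - 1 = n + 1 := by omega
  rw [e1]
  simp only [Nat.cast_add, Nat.cast_mul, Nat.cast_one, Nat.cast_ofNat, map_add, map_mul, map_one,
    map_natCast, map_ofNat]
  ring

theorem GG_natDegree (n : ℕ) (K : Type) [CommRing K] [Nontrivial K] :
    (GG n K).natDegree = n + 1 := by
  unfold GG
  have := natDegree_X_pow_add_C (R := K) (n := n + 1) (r := 1)
  rwa [C_1] at this

theorem FF_monic (n : ℕ) {K : Type} [CommRing K] [Nontrivial K] (b : K) : (FF n b).Monic ∧
    (FF n b).natDegree = n + 2 := by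
  have h : FF n b = X ^ (n + 2) + (-X - C b * GG n K) := by
    unfold FF GG
    ring
  have h1 : (-X - C b * GG n K : K[X]).natDegree < n + 2 := by
    refine lt_of_le_of_lt (natDegree_sub_le _ _) (max_lt ?_ ?_)
    · rw [natDegree_neg, natDegree_X]
      omega
    · refine lt_of_le_of_lt (natDegree_C_mul_le _ _) ?_
      rw [GG_natDegree]
      omega
  have h2 : (-X - C b * GG n K : K[X]).degree < ((n + 2 : ℕ) : WithBot ℕ) :=
    lt_of_le_of_lt degree_le_natDegree (by exact_mod_cast h1)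
  rw [h]
  exact ⟨monic_X_pow_add h2, by
    rw [natDegree_add_eq_left_of_natDegree_lt (by rw [natDegree_X_pow]; exact h1),
      natDegree_X_pow]⟩

/-- the conditions modulo `p` -/
structure RedOk {k : ℕ} (d : Fin k → ℕ) (p : ℕ) [Fact p.Prime] (v : Co k d → ZMod p) : Prop where
  split : ∀ j, (JP v j).Splits
  sep : ∀ j, (JP v j).Separable
  deg : ∀ j, (JP v j).natDegree = 2 * (d j - 1)
  dne : ∀ j, ((d j : ℕ) : ZMod p) ≠ 0
  top : ∀ j, v ⟨j, (0, Fin.last (d j))⟩ = 1
  top' : ∀ j, v ⟨j, (1, Fin.last (d j))⟩ = 0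
  pre : ∀ j, v ⟨j, (1, ⟨d j - 1, by omega⟩)⟩ = 1
  nz : ∀ j (x : ZMod p), (pf fun e => v ⟨j, (0, e)⟩).eval x ≠ 0

theorem exists_red {k : ℕ} (d : Fin k → ℕ) (hd : ∀ j, 2 ≤ d j) :
    ∃ (p : ℕ) (_ : Fact p.Prime) (v : Co k d → ZMod p), RedOk d p v := by
  classical
  obtain ⟨p, hp, hB, hs⟩ := exists_prime_split (Finset.univ.image fun j => Wp (d j - 2) ℤ)
    (by
      intro f hf
      obtain ⟨j, -, rfl⟩ := Finset.mem_image.1 hf
      exact (Wp_monic _ _).1)
    (2 + ∑ j, ((d j) ^ 2 + 2 * d j))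
  have hF : Fact p.Prime := ⟨hp⟩
  have hlt : ∀ j, 2 + (d j) ^ 2 + 2 * d j < p := by
    intro j
    have h1 := Finset.single_le_sum (f := fun j => (d j) ^ 2 + 2 * d j)
      (fun i _ => Nat.zero_le _) (Finset.mem_univ j)
    omega
  have hne : ∀ m : ℕ, 0 < m → m < p → ((m : ℕ) : ZMod p) ≠ 0 := by
    intro m h0 hm h
    rw [CharP.cast_eq_zero_iff (ZMod p) p] at h
    exact absurd (Nat.le_of_dvd h0 h) (by omega)
  have hp2 : p ≠ 2 := by omega
  choose b hb using fun n => exists_omit n p hp2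
  let v : Co k d → ZMod p := fun e =>
    if e.2.1 = 0 then (FF (d e.1 - 2) (b (d e.1 - 2))).coeff e.2.2
    else (GG (d e.1 - 2) (ZMod p)).coeff e.2.2
  have hv0 : ∀ j, (pf fun e => v ⟨j, (0, e)⟩) = FF (d j - 2) (b (d j - 2)) := by
    intro j
    have h1 : (fun e : Fin (d j + 1) => v ⟨j, (0, e)⟩) =
        fun e : Fin (d j + 1) => (FF (d j - 2) (b (d j - 2))).coeff e := by
      funext e
      simp [v]
    rw [h1, pf_coeff]
    rw [(FF_monic _ _).2]
    have := hd j
    omega
  have hv1 : ∀ j, (pf fun e => v ⟨j, (1, e)⟩) = GG (d j - 2) (ZMod p) := by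
    intro j
    have h1 : (fun e : Fin (d j + 1) => v ⟨j, (1, e)⟩) =
        fun e : Fin (d j + 1) => (GG (d j - 2) (ZMod p)).coeff e := by
      funext e
      simp [v]
    rw [h1, pf_coeff]
    rw [GG_natDegree]
    have := hd j
    omega
  have hJP : ∀ j, JP v j = C ((d j : ℕ) : ZMod p) * Wp (d j - 2) (ZMod p) := by
    intro j
    rw [JP_eq, hv0, hv1, wron]
  have hdne : ∀ j, ((d j : ℕ) : ZMod p) ≠ 0 := by
    intro j
    have h1 := hlt j
    have h2 := hd j
    exact hne _ (by omega) (by nlinarith)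
  refine ⟨p, hF, v, ⟨?_, ?_, ?_, hdne, ?_, ?_, ?_, ?_⟩⟩
  · intro j
    rw [hJP]
    refine Splits.C_mul ?_ _
    have h1 := hs _ (Finset.mem_image_of_mem _ (Finset.mem_univ j))
    rwa [map_Wp] at h1
  · intro j
    rw [hJP]
    have h1 := hlt j
    have h2 := hd j
    have h3 : (Wp (d j - 2) (ZMod p)).Separable := by
      refine Wp_separable _ ?_ ?_
      · have e1 : 2 * (d j - 2) + 2 = 2 * d j - 2 := by omega
        rw [e1]
        obtain ⟨s, hs'⟩ : ∃ s, s = d j ^ 2 := ⟨_, rfl⟩
        rw [← hs'] at h1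
        exact hne _ (by omega) (by omega)
      · obtain ⟨m, hm⟩ : ∃ m, d j = m + 2 := ⟨d j - 2, by omega⟩
        have e1 : d j - 2 + 1 = m + 1 := by omega
        rw [e1]
        rw [hm] at h1
        exact hne _ (by positivity) (by nlinarith)
    have h4 : IsUnit (C ((d j : ℕ) : ZMod p)) := isUnit_C.2 (isUnit_iff_ne_zero.2 (hdne j))
    exact h3.unit_mul h4
  · intro j
    rw [hJP, natDegree_C_mul (hdne j), (Wp_monic _ _).2]
    have := hd j
    omega
  · intro j
    have h1 : v ⟨j, (0, Fin.last (d j))⟩ = (FF (d j - 2) (b (d j - 2))).coeff (d j) := by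
      simp [v]
    rw [h1]
    have h2 := (FF_monic (d j - 2) (b (d j - 2))).1.coeff_natDegree
    rw [(FF_monic _ _).2] at h2
    have e1 : d j - 2 + 2 = d j := by
      have := hd j
      omega
    rwa [e1] at h2
  · intro j
    have h1 : v ⟨j, (1, Fin.last (d j))⟩ = (GG (d j - 2) (ZMod p)).coeff (d j) := by
      simp [v]
    rw [h1]
    apply coeff_eq_zero_of_natDegree_lt
    rw [GG_natDegree]
    have := hd j
    omega
  · intro j
    have h1 : v ⟨j, (1, ⟨d j - 1, by omega⟩)⟩ = (GG (d j - 2) (ZMod p)).coeff (d j - 1) := by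
      simp [v]
    rw [h1]
    unfold GG
    have e1 : d j - 1 = d j - 2 + 1 := by
      have := hd j
      omega
    rw [e1, coeff_add, coeff_X_pow, if_pos rfl, coeff_one, if_neg (Nat.succ_ne_zero _), add_zero]
  · intro j x
    rw [hv0]
    unfold FF
    simp only [eval_sub, eval_mul, eval_add, eval_pow, eval_X, eval_C, eval_one]
    exact hb _ x

end Pool.Agent.V7H60.GH
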