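import Pool.Agent.V7H60.GC.Fin

set_option autoImplicit false
set_option linter.unusedSectionVars false

/-!
# The polynomials of the critical points and of their preimages
-/

namespace Pool.Agent.V7H60.GH

open Pool.Agent.TH838.DS Pool.Agent.H936R2 Pool.Agent.V7H60.GC

section

variable {K : Type} [CommRing K]

/-- derivative of the form with respect to the first variable -/
noncomputable def D0 {d : ℕ} (c : Fin (d + 1) → K) (z : Fin 2 → K) : K :=
  ∑ e : Fin (d + 1), c e * ((((e : ℕ) : K) * z 0 ^ ((e : ℕ) - 1)) * z 1 ^ (d - (e : ℕ)))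

/-- derivative of the form with respect to the second variable -/
noncomputable def D1 {d : ℕ} (c : Fin (d + 1) → K) (z : Fin 2 → K) : K :=
  ∑ e : Fin (d + 1), c e * (z 0 ^ (e : ℕ) * (((d - (e : ℕ) : ℕ) : K) * z 1 ^ (d - (e : ℕ) - 1)))

theorem J_eq {N : ℕ} {d : Fin N → ℕ} (v : Co N d → K) (i : Fin N) (z : Fin 2 → K) :
    J v i z = D0 (fun e => v ⟨i, (0, e)⟩) z * D1 (fun e => v ⟨i, (1, e)⟩) z -
      D1 (fun e => v ⟨i, (0, e)⟩) z * D0 (fun e => v ⟨i, (1, e)⟩) z := by
  have h : J v i z = MvPolynomial.eval z (MvPolynomial.pderiv 0 (bf fun e => v ⟨i, (0, e)⟩)) *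
      MvPolynomial.eval z (MvPolynomial.pderiv 1 (bf fun e => v ⟨i, (1, e)⟩)) -
      MvPolynomial.eval z (MvPolynomial.pderiv 1 (bf fun e => v ⟨i, (0, e)⟩)) *
        MvPolynomial.eval z (MvPolynomial.pderiv 0 (bf fun e => v ⟨i, (1, e)⟩)) := by
    unfold J
    rw [Matrix.det_fin_two]
    rfl
  rw [h, eval_d0, eval_d0, eval_d1, eval_d1]
  rfl

open Polynomial in
/-- the dehomogenised form -/
noncomputable def pf {d : ℕ} (c : Fin (d + 1) → K) : K[X] := ∑ e : Fin (d + 1), C (c e) * X ^ (e : ℕ)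

open Polynomial in
theorem natDegree_pf {d : ℕ} (c : Fin (d + 1) → K) : (pf c).natDegree ≤ d := by
  refine natDegree_sum_le_of_forall_le _ _ fun e _ => ?_
  exact (natDegree_C_mul_X_pow_le _ _).trans (by omega)

open Polynomial in
theorem pf_coeff {d : ℕ} {f : K[X]} (hf : f.natDegree ≤ d) :
    pf (fun e : Fin (d + 1) => f.coeff e) = f := by
  unfold pf
  rw [Fin.sum_univ_eq_sum_range (fun n => C (f.coeff n) * X ^ n)]
  exact (as_sum_range_C_mul_X_pow' f (by omega)).symm

open Polynomial in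
theorem map_pf {S : Type} [CommRing S] (φ : K →+* S) {d : ℕ} (c : Fin (d + 1) → K) :
    (pf c).map φ = pf fun e => φ (c e) := by
  unfold pf
  rw [Polynomial.map_sum]
  refine Finset.sum_congr rfl fun e _ => ?_
  rw [Polynomial.map_mul, Polynomial.map_C, Polynomial.map_pow, Polynomial.map_X]

open Polynomial in
theorem WP_eq {N : ℕ} {d : Fin N → ℕ} (v : Co N d → K) (i : Fin N) (a : Fin 2) :
    WP v [i] a = pf fun e => v ⟨i, (a, e)⟩ := by
  change MvPolynomial.eval (X1 K) (bs (fun e => C (v ⟨i, e⟩)) a) = _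
  rw [bs, eval_bf]
  refine Finset.sum_congr rfl fun e _ => ?_
  simp [X1]

open Polynomial in
theorem JP_eq {N : ℕ} {d : Fin N → ℕ} (v : Co N d → K) (i : Fin N) :
    JP v i = C ((d i : ℕ) : K) * (derivative (pf fun e => v ⟨i, (0, e)⟩) * (pf fun e => v ⟨i, (1, e)⟩) -
      (pf fun e => v ⟨i, (0, e)⟩) * derivative (pf fun e => v ⟨i, (1, e)⟩)) := by
  have h0 : ∀ c : Fin (d i + 1) → K, D0 (fun e => C (c e)) (X1 K) = derivative (pf c) := by
    intro c
    unfold D0 pf
    rw [derivative_sum]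
    refine Finset.sum_congr rfl fun e _ => ?_
    rw [derivative_C_mul_X_pow]
    simp only [X1, Matrix.cons_val_zero, Matrix.cons_val_one, one_pow, mul_one, C_mul]
    rw [mul_assoc, map_natCast]
  have h1 : ∀ c : Fin (d i + 1) → K, D1 (fun e => C (c e)) (X1 K) =
      C ((d i : ℕ) : K) * pf c - X * derivative (pf c) := by
    intro c
    unfold D1 pf
    rw [derivative_sum, Finset.mul_sum, Finset.mul_sum, ← Finset.sum_sub_distrib]
    refine Finset.sum_congr rfl fun e _ => ?_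
    rw [derivative_C_mul_X_pow]
    simp only [X1, Matrix.cons_val_zero, Matrix.cons_val_one, one_pow, mul_one, C_mul, map_natCast]
    have he : (e : ℕ) ≤ d i := by omega
    rw [Nat.cast_sub he]
    rcases Nat.eq_zero_or_pos (e : ℕ) with h | h
    · rw [h]
      simp
      ring
    · obtain ⟨n, hn⟩ := Nat.exists_eq_succ_of_ne_zero h.ne'
      rw [hn, Nat.succ_sub_one, pow_succ]
      ring
  unfold JP
  rw [J_eq, h0, h0, h1, h1]
  ring

/-- scaling of the denominators -/
def scal {N : ℕ} {d : Fin N → ℕ} (t : K) (v : Co N d → K) : Co N d → K :=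
  fun e => if e.2.1 = 0 then v e else t * v e

theorem J_scal {N : ℕ} {d : Fin N → ℕ} (t : K) (v : Co N d → K) (i : Fin N) (z : Fin 2 → K) :
    J (scal t v) i z = t * J v i z := by
  rw [J_eq, J_eq]
  have h0 : (fun e => scal t v ⟨i, (0, e)⟩) = fun e => v ⟨i, (0, e)⟩ := by
    funext e
    simp [scal]
  have h1 : D0 (fun e => scal t v ⟨i, (1, e)⟩) z = t * D0 (fun e => v ⟨i, (1, e)⟩) z := by
    unfold D0
    rw [Finset.mul_sum]
    refine Finset.sum_congr rfl fun e _ => ?_
    simp only [scal]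
    rw [if_neg (by decide)]
    ring
  have h2 : D1 (fun e => scal t v ⟨i, (1, e)⟩) z = t * D1 (fun e => v ⟨i, (1, e)⟩) z := by
    unfold D1
    rw [Finset.mul_sum]
    refine Finset.sum_congr rfl fun e _ => ?_
    simp only [scal]
    rw [if_neg (by decide)]
    ring
  rw [h0, h1, h2]
  ring

theorem D0_inf {d : ℕ} (c : Fin (d + 1) → K) (t : K) :
    D0 c ![t, 0] = d * c (Fin.last d) * t ^ (d - 1) := by
  unfold D0
  rw [Finset.sum_eq_single (Fin.last d)]
  · simp
    ring
  · intro e _ he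
    have h1 : (e : ℕ) ≠ d := fun h => he (Fin.ext h)
    have h2 : d - (e : ℕ) ≠ 0 := by omega
    simp [h2]
  · intro h
    exact absurd (Finset.mem_univ _) h

theorem D1_inf {d : ℕ} (hd : 1 ≤ d) (c : Fin (d + 1) → K) (t : K) :
    D1 c ![t, 0] = c ⟨d - 1, by omega⟩ * t ^ (d - 1) := by
  unfold D1
  rw [Finset.sum_eq_single (⟨d - 1, by omega⟩ : Fin (d + 1))]
  · have h1 : d - (d - 1) = 1 := by omega
    simp [h1]
  · intro e _ he
    have h1 : (e : ℕ) ≠ d - 1 := fun h => he (Fin.ext h)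
    by_cases h2 : (e : ℕ) = d
    · simp [h2]
    · have h3 : d - (e : ℕ) - 1 ≠ 0 := by omega
      simp [h3]
  · intro h
    exact absurd (Finset.mem_univ _) h

open Polynomial in
theorem natDegree_D0 {d : ℕ} (c : Fin (d + 1) → K[X]) (hc : ∀ e, (c e).natDegree = 0)
    (z : Fin 2 → K[X]) (m : ℕ) (hz : ∀ a, (z a).natDegree ≤ m) :
    (D0 c z).natDegree ≤ (d - 1) * m := by
  refine natDegree_sum_le_of_forall_le _ _ fun e _ => ?_
  rcases Nat.eq_zero_or_pos (e : ℕ) with h | h
  · rw [h]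
    simp
  · have h1 : (z 0 ^ ((e : ℕ) - 1)).natDegree ≤ ((e : ℕ) - 1) * m :=
      natDegree_pow_le.trans (Nat.mul_le_mul_left _ (hz 0))
    have h2 : (z 1 ^ (d - (e : ℕ))).natDegree ≤ (d - (e : ℕ)) * m :=
      natDegree_pow_le.trans (Nat.mul_le_mul_left _ (hz 1))
    have h3 : ((((e : ℕ) : K[X]) * z 0 ^ ((e : ℕ) - 1))).natDegree ≤ ((e : ℕ) - 1) * m := by
      refine natDegree_mul_le.trans ?_
      rw [natDegree_natCast, zero_add]
      exact h1
    refine natDegree_mul_le.trans ?_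
    rw [hc, zero_add]
    refine natDegree_mul_le.trans ?_
    have h4 : (d - 1) * m = ((e : ℕ) - 1) * m + (d - (e : ℕ)) * m := by
      rw [← add_mul]
      congr 1
      omega
    omega

open Polynomial in
theorem natDegree_D1 {d : ℕ} (c : Fin (d + 1) → K[X]) (hc : ∀ e, (c e).natDegree = 0)
    (z : Fin 2 → K[X]) (m : ℕ) (hz : ∀ a, (z a).natDegree ≤ m) :
    (D1 c z).natDegree ≤ (d - 1) * m := by
  refine natDegree_sum_le_of_forall_le _ _ fun e _ => ?_
  rcases Nat.eq_zero_or_pos (d - (e : ℕ)) with h | h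
  · rw [h]
    simp
  · have h1 : (z 0 ^ (e : ℕ)).natDegree ≤ (e : ℕ) * m :=
      natDegree_pow_le.trans (Nat.mul_le_mul_left _ (hz 0))
    have h2 : (z 1 ^ (d - (e : ℕ) - 1)).natDegree ≤ (d - (e : ℕ) - 1) * m :=
      natDegree_pow_le.trans (Nat.mul_le_mul_left _ (hz 1))
    have h3 : ((((d - (e : ℕ) : ℕ) : K[X]) * z 1 ^ (d - (e : ℕ) - 1))).natDegree ≤
        (d - (e : ℕ) - 1) * m := by
      refine natDegree_mul_le.trans ?_
      rw [natDegree_natCast, zero_add]
      exact h2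
    refine natDegree_mul_le.trans ?_
    rw [hc, zero_add]
    refine natDegree_mul_le.trans ?_
    have h4 : (d - 1) * m = (e : ℕ) * m + (d - (e : ℕ) - 1) * m := by
      rw [← add_mul]
      congr 1
      omega
    omega

open Polynomial in
theorem natDegree_J {N : ℕ} {d : Fin N → ℕ} (v : Co N d → K) (i : Fin N) (z : Fin 2 → K[X]) (m : ℕ)
    (hz : ∀ a, (z a).natDegree ≤ m) :
    (J (fun e => C (v e)) i z).natDegree ≤ 2 * (d i - 1) * m := by
  rw [J_eq]
  have h0 := natDegree_D0 (fun e => C (v ⟨i, (0, e)⟩)) (fun e => natDegree_C _) z m hz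
  have h1 := natDegree_D1 (fun e => C (v ⟨i, (0, e)⟩)) (fun e => natDegree_C _) z m hz
  have h2 := natDegree_D0 (fun e => C (v ⟨i, (1, e)⟩)) (fun e => natDegree_C _) z m hz
  have h3 := natDegree_D1 (fun e => C (v ⟨i, (1, e)⟩)) (fun e => natDegree_C _) z m hz
  have h4 : 2 * (d i - 1) * m = (d i - 1) * m + (d i - 1) * m := by ring
  rw [h4]
  refine (natDegree_sub_le _ _).trans (max_le ?_ ?_)
  · exact natDegree_mul_le.trans (add_le_add h0 h3)
  · exact natDegree_mul_le.trans (add_le_add h1 h2)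

end

end Pool.Agent.V7H60.GH
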