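import Pool.Agent.V7H60.GH.Exam

set_option autoImplicit false
set_option linter.unusedSectionVars false

/-!
# Generic rational functions: an automorphism which fixes the critical points and moves their
# preimages
-/

namespace Pool.Agent.V7H60.GH

open Polynomial Pool.Agent.TH838.DS Pool.Agent.H936R2 Pool.Agent.V7H60.GC Pool.Agent.N455.HT

theorem FM.pull {R R' : Type} [CommRing R] [CommRing R'] {κ κ' : Type} {P : κ → R[X]}
    {Q : κ' → R[X]} {P' : κ → R'[X]} {Q' : κ' → R'[X]} {Ω : Type} [Field Ω] {j' : R' →+* Ω}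
    {τ : Ω ≃+* Ω} (h : FM P' Q' j' τ) (hj' : Function.Injective j') (j0 : R →+* R') {u : R'}
    (hu : u ≠ 0) (hP : ∀ k, (P k).map j0 = C u * P' k) (hQ : ∀ k, (Q k).map j0 = C u * Q' k) :
    FM P Q (j'.comp j0) τ := by
  have hu' : j' u ≠ 0 := fun h0 => hu (hj' (h0.trans (map_zero _).symm))
  have e1 : ∀ k, (P k).map (j'.comp j0) = C (j' u) * (P' k).map j' := by
    intro k
    rw [← Polynomial.map_map, hP, Polynomial.map_mul, Polynomial.map_C]
  have e2 : ∀ k, (Q k).map (j'.comp j0) = C (j' u) * (Q' k).map j' := by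
    intro k
    rw [← Polynomial.map_map, hQ, Polynomial.map_mul, Polynomial.map_C]
  refine ⟨fun r => h.fix (j0 r), ?_, ?_, ?_, ?_⟩
  · intro k
    rw [e1]
    exact Splits.C_mul (h.sP k) _
  · intro k
    rw [e2]
    exact Splits.C_mul (h.sQ k) _
  · intro k z hz
    rw [e1, eval_mul, eval_C] at hz
    exact h.rP k z ((mul_eq_zero.1 hz).resolve_left hu')
  · intro k z hz
    rw [e2, eval_mul, eval_C] at hz
    exact h.rQ k z ((mul_eq_zero.1 hz).resolve_left hu')

section

variable {k : ℕ} {d : Fin k → ℕ} {K S : Type} [CommRing K] [CommRing S]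

/-- the polynomial of the points which `f_i` maps to critical points of `f_j` -/
noncomputable def QP (v : Co k d → K) (q : Fin k × Fin k) : K[X] :=
  J (fun e => C (v e)) q.2 (fun a => WP v [q.1] a)

/-- the same with denominators divided by `t` -/
noncomputable def QQ (t : K) (v : Co k d → K) (q : Fin k × Fin k) : K[X] :=
  J (fun e => C (v e)) q.2 (fun a => WP (scal t v) [q.1] a)

theorem C_scal (t : K) (v : Co k d → K) :
    (fun e => C (scal t v e)) = scal (C t) fun e => C (v e) := by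
  funext e
  unfold scal
  split_ifs
  · rfl
  · rw [C_mul]

theorem QP_scal (t : K) (v : Co k d → K) (q : Fin k × Fin k) :
    QP (scal t v) q = C t * QQ t v q := by
  unfold QP QQ
  rw [C_scal, J_scal]

theorem JP_scal (t : K) (v : Co k d → K) (i : Fin k) : JP (scal t v) i = C t * JP v i := by
  unfold JP
  rw [C_scal, J_scal]

theorem map_scal (φ : K →+* S) (t : K) (v : Co k d → K) :
    (fun e => φ (scal t v e)) = scal (φ t) fun e => φ (v e) := by
  funext e
  unfold scal
  split_ifs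
  · rfl
  · rw [map_mul]

theorem map_WP' (φ : K →+* S) (v : Co k d → K) (i : Fin k) (a : Fin 2) :
    (WP v [i] a).map φ = WP (fun e => φ (v e)) [i] a := by
  rw [WP_eq, WP_eq, map_pf]

theorem map_QQ (φ : K →+* S) (t : K) (v : Co k d → K) (q : Fin k × Fin k) :
    (QQ t v q).map φ = QQ (φ t) (fun e => φ (v e)) q := by
  have h := J_nat (Polynomial.mapRingHom φ) (fun e => C (v e)) q.2
    (fun a => WP (scal t v) [q.1] a)
  simp only [Polynomial.coe_mapRingHom, Polynomial.map_C, map_WP', map_scal] at h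
  exact h.symm

theorem map_QP (φ : K →+* S) (v : Co k d → K) (q : Fin k × Fin k) :
    (QP v q).map φ = QP (fun e => φ (v e)) q := by
  have h := J_nat (Polynomial.mapRingHom φ) (fun e => C (v e)) q.2
    (fun a => WP v [q.1] a)
  simp only [Polynomial.coe_mapRingHom, Polynomial.map_C, map_WP'] at h
  exact h.symm

theorem map_JP' (φ : K →+* S) (v : Co k d → K) (i : Fin k) :
    (JP v i).map φ = JP (fun e => φ (v e)) i := by
  have h := J_nat (Polynomial.mapRingHom φ) (fun e => C (v e)) i (X1 K)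
  have h1 : (fun a => (Polynomial.mapRingHom φ) (X1 K a)) = X1 S := by
    funext a
    fin_cases a <;> simp [X1]
  simp only [Polynomial.coe_mapRingHom, Polynomial.map_C] at h
  rw [← Polynomial.coe_mapRingHom, h1] at h
  exact h.symm

theorem natDegree_JP (v : Co k d → K) (i : Fin k) : (JP v i).natDegree ≤ 2 * (d i - 1) := by
  have h := natDegree_J v i (X1 K) 1 (by
    intro a
    fin_cases a
    · exact natDegree_X_le
    · simp [X1])
  rwa [mul_one] at h

theorem natDegree_QQ (t : K) (v : Co k d → K) (q : Fin k × Fin k) :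
    (QQ t v q).natDegree ≤ 2 * (d q.2 - 1) * d q.1 :=
  natDegree_J v q.2 _ _ fun a => by
    rw [WP_eq]
    exact natDegree_pf _

/-- leading coefficients of a polynomial and of a reduction -/
theorem lead_ne {K : Type} [CommRing K] {F : Type} [Field F] (ρ : K →+* F) {q : K[X]} {n : ℕ}
    (h1 : q.natDegree ≤ n) (h2 : (q.map ρ).natDegree = n) (h3 : q.map ρ ≠ 0) :
    ρ q.leadingCoeff ≠ 0 := by
  have h4 : q.natDegree = n := le_antisymm h1 (h2 ▸ natDegree_map_le)
  have h5 := leadingCoeff_ne_zero.2 h3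
  unfold leadingCoeff at h5 ⊢
  rw [h2, coeff_map] at h5
  rwa [h4]

end

section

variable {k : ℕ} {d : Fin k → ℕ} {p : ℕ} [Fact p.Prime] {v : Co k d → ZMod p}

theorem J_inf {F : Type} [CommRing F] (w : Co k d → F) (i : Fin k) (hd : 1 ≤ d i) (t : F)
    (h0 : w ⟨i, (0, Fin.last (d i))⟩ = 1) (h1 : w ⟨i, (1, Fin.last (d i))⟩ = 0)
    (h2 : w ⟨i, (1, ⟨d i - 1, by omega⟩)⟩ = 1) :
    J w i ![t, 0] = (d i : F) * t ^ (2 * (d i - 1)) := by
  rw [J_eq, D0_inf, D0_inf, D1_inf hd, D1_inf hd, h0, h1, h2, two_mul, pow_add]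
  ring

theorem QQ_red (hd : ∀ j, 2 ≤ d j) (h : RedOk d p v) (q : Fin k × Fin k) :
    QQ 0 v q = C ((d q.2 : ℕ) : ZMod p) * (pf fun e => v ⟨q.1, (0, e)⟩) ^ (2 * (d q.2 - 1)) := by
  unfold QQ
  have h1 : (fun a => WP (scal 0 v) [q.1] a) = ![pf fun e => v ⟨q.1, (0, e)⟩, 0] := by
    funext a
    rw [WP_eq]
    fin_cases a
    · simp [scal]
    · simp only [scal]
      unfold pf
      simp
  rw [h1, J_inf (fun e => C (v e)) q.2 (by have := hd q.2; omega) _ (by rw [h.top, C_1])
    (by rw [h.top', C_0]) (by rw [h.pre, C_1])]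
  simp

theorem pf_top (h : RedOk d p v) (i : Fin k) :
    (pf fun e => v ⟨i, (0, e)⟩).natDegree = d i ∧ (pf fun e => v ⟨i, (0, e)⟩) ≠ 0 := by
  have h1 : (pf fun e => v ⟨i, (0, e)⟩).coeff (d i) = 1 := by
    unfold pf
    rw [finsetSum_coeff, Finset.sum_eq_single (Fin.last (d i))]
    · rw [Fin.val_last, coeff_C_mul_X_pow, if_pos rfl]
      exact h.top i
    · intro e _ he
      rw [coeff_C_mul_X_pow, if_neg]
      intro h2
      exact he (Fin.ext h2.symm)
    · intro h2
      exact absurd (Finset.mem_univ _) h2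
  refine ⟨le_antisymm (natDegree_pf _) (le_natDegree_of_ne_zero (by rw [h1]; exact one_ne_zero)), ?_⟩
  intro h2
  rw [h2, coeff_zero] at h1
  exact zero_ne_one h1

end

/-- the generic coefficients -/
noncomputable def gen {k : ℕ} (d : Fin k → ℕ) : Co k d → MvPolynomial (Co k d) ℤ :=
  fun e => MvPolynomial.X e

theorem inj_scal {ι : Type} (s : ι → ℚ) (hs : ∀ e, s e ≠ 0)
    (j0 : MvPolynomial ι ℤ →+* MvPolynomial ι ℤ)
    (h : ∀ e, MvPolynomial.map (Int.castRingHom ℚ) (j0 (MvPolynomial.X e)) =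
      MvPolynomial.C (s e) * MvPolynomial.X e) : Function.Injective j0 := by
  let A1 : MvPolynomial ι ℤ →+* MvPolynomial ι ℚ := MvPolynomial.map (Int.castRingHom ℚ)
  let A2 : MvPolynomial ι ℚ →+* MvPolynomial ι ℚ :=
    MvPolynomial.eval₂Hom MvPolynomial.C fun e => MvPolynomial.C (s e)⁻¹ * MvPolynomial.X e
  have h1 : A2.comp (A1.comp j0) = A1 := by
    apply MvPolynomial.ringHom_ext
    · intro r
      have e1 : j0 (MvPolynomial.C r) = MvPolynomial.C r := by
        have := congrArg (fun f : ℤ →+* MvPolynomial ι ℤ => f r)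
          (RingHom.ext_int (j0.comp MvPolynomial.C) MvPolynomial.C)
        exact this
      rw [RingHom.comp_apply, RingHom.comp_apply, e1]
      simp [A1, A2]
    · intro e
      rw [RingHom.comp_apply, RingHom.comp_apply]
      change A2 (MvPolynomial.map (Int.castRingHom ℚ) (j0 (MvPolynomial.X e))) = _
      rw [h e, map_mul]
      simp only [A2, A1, MvPolynomial.coe_eval₂Hom, MvPolynomial.eval₂_C, MvPolynomial.eval₂_X,
        MvPolynomial.map_X]
      rw [← mul_assoc, ← MvPolynomial.C_mul, mul_inv_cancel₀ (hs e), MvPolynomial.C_1, one_mul]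
  have h2 : Function.Injective A1 := MvPolynomial.map_injective _ Int.cast_injective
  intro a b hab
  apply h2
  rw [← h1, RingHom.comp_apply, RingHom.comp_apply, RingHom.comp_apply, RingHom.comp_apply, hab]

/-- **The generic tuple of rational functions.** -/
theorem exists_FM {k : ℕ} (d : Fin k → ℕ) (hd : ∀ j, 2 ≤ d j) :
    (∃ (Ω : Type) (_ : Field Ω) (j : MvPolynomial (Co k d) ℤ →+* Ω) (τ : Ω ≃+* Ω),
      Function.Injective j ∧ FM (fun i => JP (gen d) i) (QP (gen d)) j τ) ∧
    (∀ i, JP (gen d) i ≠ 0) ∧ (∀ q, QP (gen d) q ≠ 0) ∧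
    (∀ i, J (gen d) i ![1, 0] ≠ 0) ∧
    ∀ i i', J (gen d) i (wv (gen d) [i'] ![1, 0]) ≠ 0 := by
  classical
  obtain ⟨p, hF, v, hv⟩ := exists_red d hd
  let R := MvPolynomial (Co k d) ℤ
  let ρ : R →+* ZMod p := ev v
  have hρ : (fun e => ρ (gen d e)) = v := by
    funext e
    exact ev_X v e
  let t : R := (p : R)
  have ht : ρ t = 0 := by
    change ρ (p : R) = 0
    rw [map_natCast, CharP.cast_eq_zero]
  have ht0 : t ≠ 0 := Nat.cast_ne_zero.2 hF.out.ne_zero
  let j0 : R →+* R := ev (scal t (gen d))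
  have hj0 : (fun e => j0 (gen d e)) = scal t (gen d) := by
    funext e
    exact ev_X _ e
  have hj0inj : Function.Injective j0 := by
    refine inj_scal (fun e => if e.2.1 = 0 then 1 else (p : ℚ)) ?_ j0 ?_
    · intro e
      split_ifs
      · exact one_ne_zero
      · exact Nat.cast_ne_zero.2 hF.out.ne_zero
    · intro e
      have e1 : j0 (MvPolynomial.X e) = scal t (gen d) e := ev_X _ e
      rw [e1]
      unfold scal gen
      split_ifs
      · rw [MvPolynomial.map_X, MvPolynomial.C_1, one_mul]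
      · rw [map_mul, MvPolynomial.map_X, map_natCast, map_natCast]
  have hPred : ∀ i, (JP (gen d) i).map ρ = JP v i := by
    intro i
    rw [map_JP', hρ]
  have hQred : ∀ q, (QQ t (gen d) q).map ρ =
      C ((d q.2 : ℕ) : ZMod p) * (pf fun e => v ⟨q.1, (0, e)⟩) ^ (2 * (d q.2 - 1)) := by
    intro q
    rw [map_QQ, hρ, ht, QQ_red hd hv]
  have hQne : ∀ q, (QQ t (gen d) q).map ρ ≠ 0 := by
    intro q
    rw [hQred]
    exact mul_ne_zero (C_ne_zero.2 (hv.dne _)) (pow_ne_zero _ (pf_top hv q.1).2)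
  obtain ⟨Ω, hΩ, j', τ, hj', hFM⟩ := frob (p := p) ρ (fun i => JP (gen d) i) (QQ t (gen d))
    (fun i => lead_ne ρ (natDegree_JP _ i) (by rw [hPred, hv.deg]) (by
      rw [hPred]
      exact (hv.sep i).ne_zero))
    (fun q => lead_ne ρ (natDegree_QQ _ _ q) (by
      rw [hQred, natDegree_C_mul (hv.dne _), natDegree_pow, (pf_top hv q.1).1]) (hQne q))
    (fun i => by
      rw [hPred]
      exact hv.split i)
    (fun i => by
      rw [hPred]
      exact hv.sep i)
    (fun q a => by
      rw [hQred, eval_mul, eval_C, eval_pow]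
      exact mul_ne_zero (hv.dne _) (pow_ne_zero _ (hv.nz _ a)))
  have hPj : ∀ i, (JP (gen d) i).map j0 = C t * JP (gen d) i := by
    intro i
    rw [map_JP', hj0, JP_scal]
  have hQj : ∀ q, (QP (gen d) q).map j0 = C t * QQ t (gen d) q := by
    intro q
    rw [map_QP, hj0, QP_scal]
  have hQQ0 : ∀ q, QQ t (gen d) q ≠ 0 := fun q h0 => hQne q (by rw [h0, Polynomial.map_zero])
  have hdd : ∀ i, 1 ≤ d i := fun i => by have := hd i; omega
  refine ⟨⟨Ω, hΩ, j'.comp j0, τ, hj'.comp hj0inj, hFM.pull hj' j0 ht0 hPj hQj⟩, ?_, ?_, ?_, ?_⟩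
  · intro i h0
    have h1 := hPred i
    rw [h0, Polynomial.map_zero] at h1
    exact (hv.sep i).ne_zero h1.symm
  · intro q h0
    have h1 := hQj q
    rw [h0, Polynomial.map_zero] at h1
    exact mul_ne_zero (C_ne_zero.2 ht0) (hQQ0 q) h1.symm
  · intro i h0
    have h1 := J_nat ρ (gen d) i ![1, 0]
    have e1 : (fun a => ρ ((![1, 0] : Fin 2 → R) a)) = ![1, 0] := by
      funext a
      fin_cases a <;> simp
    rw [h0, map_zero, hρ, e1, J_inf v i (hdd i) 1 (hv.top i) (hv.top' i) (hv.pre i), one_pow,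
      mul_one] at h1
    exact hv.dne i h1
  · intro i i' h0
    -- apply `j0`, divide by `t`, reduce
    have h1 := J_nat j0 (gen d) i (wv (gen d) [i'] ![1, 0])
    have e1 : (fun a => j0 ((![1, 0] : Fin 2 → R) a)) = ![1, 0] := by
      funext a
      fin_cases a <;> simp
    have e2 : (fun a => ρ ((![1, 0] : Fin 2 → R) a)) = ![1, 0] := by
      funext a
      fin_cases a <;> simp
    have h2 := wv_nat j0 (gen d) [i'] ![1, 0]
    rw [e1, hj0] at h2
    rw [h0, map_zero, ← h2, hj0, J_scal] at h1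
    have h3 := (mul_eq_zero.1 h1).resolve_left ht0
    have h4 := J_nat ρ (gen d) i (wv (scal t (gen d)) [i'] ![1, 0])
    have h5 := wv_nat ρ (scal t (gen d)) [i'] ![1, 0]
    rw [e2, map_scal, hρ, ht] at h5
    rw [h3, map_zero, hρ, ← h5] at h4
    have h6 : wv (scal 0 v) [i'] ![1, 0] = ![1, 0] := by
      funext a
      change MvPolynomial.eval ![1, 0] (bs (fun e => scal 0 v ⟨i', e⟩) a) = _
      rw [bs, eval_bf, Finset.sum_eq_single (Fin.last (d i'))]
      · fin_cases a
        · simp [scal, hv.top]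
        · simp [scal]
      · intro e _ he
        have h7 : (e : ℕ) ≠ d i' := fun h => he (Fin.ext h)
        have h8 : d i' - (e : ℕ) ≠ 0 := by omega
        simp [h8]
      · intro h
        exact absurd (Finset.mem_univ _) h
    rw [h6, J_inf v i (hdd i) 1 (hv.top i) (hv.top' i) (hv.pre i), one_pow, mul_one] at h4
    exact hv.dne i h4

end Pool.Agent.V7H60.GH
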