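import Pool.Agent.V7H60.GH.Roots
import Pool.Agent.N455.HT.Equi

set_option autoImplicit false
set_option linter.unusedSectionVars false

/-!
# Automorphisms which fix and move roots, for almost all members of a family
-/

namespace Pool.Agent.V7H60.GH

open Polynomial

/-- `τ` fixes the coefficients and the roots of the `P k` and moves the roots of the `Q k` -/
structure FM {R : Type} [CommRing R] {κ κ' : Type} (P : κ → R[X]) (Q : κ' → R[X])
    {Ω : Type} [Field Ω] (j : R →+* Ω) (τ : Ω ≃+* Ω) : Prop where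
  fix : ∀ r, τ (j r) = j r
  sP : ∀ k, ((P k).map j).Splits
  sQ : ∀ k, ((Q k).map j).Splits
  rP : ∀ k (z : Ω), ((P k).map j).eval z = 0 → τ z = z
  rQ : ∀ k (z : Ω), ((Q k).map j).eval z = 0 → τ z ≠ z

theorem gal_spec {R : Type} [CommRing R] [IsDomain R] [IsIntegrallyClosed R] [CharZero R]
    {κ κ' : Type} [Fintype κ] [Fintype κ'] (P : κ → R[X]) (Q : κ' → R[X])
    (hP : ∀ k, P k ≠ 0) (hQ : ∀ k, Q k ≠ 0) {Ω : Type} [Field Ω] (j : R →+* Ω)
    (hj : Function.Injective j) (τ : Ω ≃+* Ω) (h : FM P Q j τ) :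
    ∃ (W : Finset R[X]) (Z : Finset R), (∀ p ∈ W, p.Monic ∧ 2 ≤ p.natDegree ∧ Irreducible p) ∧
      (∀ z ∈ Z, z ≠ 0) ∧
      ∀ χ : R →+* ℤ, (∀ p ∈ W, ∀ a : ℤ, (p.map χ).eval a ≠ 0) → (∀ z ∈ Z, χ z ≠ 0) →
      ∃ σ : ℂ ≃+* ℂ, (∀ k (z : ℂ), ((P k).map (toC χ)).eval z = 0 → σ z = z) ∧
        ∀ k (z : ℂ), ((Q k).map (toC χ)).eval z = 0 → σ z ≠ z := by
  classical
  let K := FractionRing R
  let _ : Algebra R Ω := j.toAlgebra
  let f : K →+* Ω := IsFractionRing.lift hj
  let _ : Algebra K Ω := f.toAlgebra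
  have hf : ∀ r, f (algebraMap R K r) = j r := fun r => IsFractionRing.lift_algebraMap hj r
  have : IsScalarTower R K Ω := IsScalarTower.of_algebraMap_eq fun r => (hf r).symm
  have hRKj : (algebraMap K Ω).comp (algebraMap R K) = j := by
    ext r
    exact hf r
  let T : R[X] := (∏ k, P k) * ∏ k, Q k
  have hT0 : T ≠ 0 := mul_ne_zero (Finset.prod_ne_zero_iff.2 fun k _ => hP k)
    (Finset.prod_ne_zero_iff.2 fun k _ => hQ k)
  have hTs : ((T.map (algebraMap R K)).map (algebraMap K Ω)).Splits := by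
    rw [Polynomial.map_map, hRKj, Polynomial.map_mul, Polynomial.map_prod, Polynomial.map_prod]
    exact (Splits.prod fun k _ => h.sP k).mul (Splits.prod fun k _ => h.sQ k)
  let L := IntermediateField.adjoin K ((T.map (algebraMap R K)).rootSet Ω)
  have hsplit : IsSplittingField K L (T.map (algebraMap R K)) :=
    IntermediateField.adjoin_rootSet_isSplittingField hTs
  have hfin : FiniteDimensional K L := IsSplittingField.finiteDimensional L (T.map (algebraMap R K))
  have hnorm : Normal K L := Normal.of_isSplittingField (T.map (algebraMap R K))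
  have hch : CharZero K := charZero_of_injective_algebraMap (IsFractionRing.injective R K)
  have hgal : IsGalois K L := ⟨⟩
  have hRL : (algebraMap L Ω).comp (algebraMap R L) = j := by
    ext r
    rw [RingHom.comp_apply, IsScalarTower.algebraMap_apply R K L,
      ← IsScalarTower.algebraMap_apply K L Ω]
    exact hf r
  have hfixK : ∀ x : K, τ (algebraMap K Ω x) = algebraMap K Ω x := by
    intro x
    obtain ⟨a, b, hb, rfl⟩ := IsFractionRing.div_surjective (A := R) x
    have ha' : τ (algebraMap K Ω (algebraMap R K a)) = algebraMap K Ω (algebraMap R K a) := by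
      have e : algebraMap K Ω (algebraMap R K a) = j a := hf a
      rw [e]
      exact h.fix a
    have hb' : τ (algebraMap K Ω (algebraMap R K b)) = algebraMap K Ω (algebraMap R K b) := by
      have e : algebraMap K Ω (algebraMap R K b) = j b := hf b
      rw [e]
      exact h.fix b
    rw [map_div₀, map_div₀, ha', hb']
  let τ' : Ω ≃ₐ[K] Ω := AlgEquiv.ofRingEquiv (f := τ) hfixK
  let g : L ≃ₐ[K] L := τ'.restrictNormal L
  have hg : ∀ r : L, ((g r : L) : Ω) = τ (r : Ω) := fun r => AlgEquiv.restrictNormal_commutes τ' L r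
  have hTL : (T.map (algebraMap R L)).Splits := by
    have h1 := IsSplittingField.splits L (T.map (algebraMap R K))
    rw [Polynomial.map_map, ← IsScalarTower.algebraMap_eq R K L] at h1
    exact h1
  have hinj : Function.Injective (algebraMap R L) := inj_RL R K L
  have hTL0 : T.map (algebraMap R L) ≠ 0 := (Polynomial.map_ne_zero_iff hinj).2 hT0
  have haev : ∀ (p : R[X]) (r : L), aeval r p = 0 → (p.map j).eval (r : Ω) = 0 := by
    intro p r hr
    have h1 := congrArg (algebraMap L Ω) hr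
    rw [map_zero, aeval_def, hom_eval₂, hRL] at h1
    rw [eval_map]
    exact h1
  refine gal_spec_L (K := K) (L := L) P Q hP hQ ?_ ?_ g ?_ ?_
  · intro k
    refine hTL.of_dvd hTL0 (Polynomial.map_dvd _ ?_)
    exact (Finset.dvd_prod_of_mem P (Finset.mem_univ k)).trans (dvd_mul_right _ _)
  · intro k
    refine hTL.of_dvd hTL0 (Polynomial.map_dvd _ ?_)
    exact (Finset.dvd_prod_of_mem Q (Finset.mem_univ k)).trans (dvd_mul_left _ _)
  · intro k r hr
    apply Subtype.ext
    rw [hg]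
    exact h.rP k r (haev _ r hr)
  · intro k r hr hgr
    apply h.rQ k r (haev _ r hr)
    rw [← hg, hgr]

section

open Pool.Agent.N455.HT Pool.Agent.N666.TM

variable {ι : Type} [Fintype ι] [DecidableEq ι]

/-- **Galois groups of almost all members of a family.** -/
theorem gal_hit {S : ℕ → Finset ℕ} {x : ℕ → ι → ℤ} (hw : WS S x)
    {κ κ' : Type} [Fintype κ] [Fintype κ'] (P : κ → (MvPolynomial ι ℤ)[X])
    (Q : κ' → (MvPolynomial ι ℤ)[X])
    (hP : ∀ k, P k ≠ 0) (hQ : ∀ k, Q k ≠ 0) {Ω : Type} [Field Ω] (j : MvPolynomial ι ℤ →+* Ω)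
    (hj : Function.Injective j) (τ : Ω ≃+* Ω) (h : FM P Q j τ) :
    NullIn S {n | ¬ ∃ σ : ℂ ≃+* ℂ,
      (∀ k (z : ℂ), ((P k).map (toC (ev (x n)))).eval z = 0 → σ z = z) ∧
        ∀ k (z : ℂ), ((Q k).map (toC (ev (x n)))).eval z = 0 → σ z ≠ z} := by
  classical
  obtain ⟨W, Z, hW, hZ, h1⟩ := gal_spec P Q hP hQ j hj τ h
  have n1 : NullIn S (⋃ p ∈ W, {n | ∃ a : ℤ, IsRt p (x n) a}) :=
    NullIn.biUnion' W _ fun p hp => hit_irr hw (hW p hp).1 (hW p hp).2.1 (hW p hp).2.2
  have n2 : NullIn S (⋃ z ∈ Z, {n | ev (x n) z = 0}) :=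
    NullIn.biUnion' Z _ fun z hz => zero_null hw (hZ z hz)
  refine NullIn.mono' (NullIn.union' n1 n2) ?_
  intro n hn
  by_contra hcon
  apply hn
  rw [Set.mem_union, not_or] at hcon
  refine h1 (ev (x n)) ?_ ?_
  · intro p hp a ha
    exact hcon.1 (Set.mem_biUnion hp ⟨a, ha⟩)
  · intro z hz hz0
    exact hcon.2 (Set.mem_biUnion hz hz0)

end

end Pool.Agent.V7H60.GH
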