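import Pool.Agent.V7H60.GH.Util
import Pool.Agent.V7H60.GH.Gen

set_option autoImplicit false
set_option linter.unusedSectionVars false

/-!
# Translates of polynomials
-/

namespace Pool.Agent.V7H60.GH

open Polynomial Pool.Agent.V7H60.GC Pool.Agent.N455.HT

section hq

variable {K S : Type} [CommRing K] [CommRing S]

/-- the homogenisation of `r` in degree `N` -/
noncomputable def hq (N : ℕ) (r : K[X]) (U V : K) : K :=
  ∑ n ∈ Finset.range (N + 1), r.coeff n * U ^ n * V ^ (N - n)

theorem map_hq (φ : K →+* S) (N : ℕ) (r : K[X]) (U V : K) :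
    φ (hq N r U V) = hq N (r.map φ) (φ U) (φ V) := by
  unfold hq
  rw [map_sum]
  refine Finset.sum_congr rfl fun n _ => ?_
  rw [map_mul, map_mul, map_pow, map_pow, coeff_map]

theorem hq_smul (N : ℕ) (r : K[X]) (t U V : K) : hq N r (t * U) (t * V) = t ^ N * hq N r U V := by
  unfold hq
  rw [Finset.mul_sum]
  refine Finset.sum_congr rfl fun n hn => ?_
  have h1 : n ≤ N := by
    rw [Finset.mem_range] at hn
    omega
  have h2 : t ^ N = t ^ n * t ^ (N - n) := by
    rw [← pow_add]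
    congr 1
    omega
  rw [h2, mul_pow, mul_pow]
  ring

theorem hq_one {N : ℕ} {r : K[X]} (hr : r.natDegree ≤ N) (U : K) : hq N r U 1 = r.eval U := by
  unfold hq
  rw [eval_eq_sum_range' (Nat.lt_succ_of_le hr)]
  refine Finset.sum_congr rfl fun n _ => ?_
  rw [one_pow, mul_one]

theorem hq_zero (N : ℕ) (r : K[X]) (U : K) : hq N r U 0 = r.coeff N * U ^ N := by
  unfold hq
  rw [Finset.sum_range_succ, Nat.sub_self, pow_zero, mul_one]
  rw [Finset.sum_eq_zero, zero_add]
  intro n hn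
  rw [Finset.mem_range] at hn
  rw [zero_pow (by omega), mul_zero]

theorem hq_X {N : ℕ} {r : K[X]} (hr : r.natDegree ≤ N) : hq N (r.map C) (X : K[X]) 1 = r := by
  rw [hq_one (natDegree_map_le.trans hr), eval_map, eval₂_C_X]

theorem natDegree_hq (N : ℕ) (r : K[X]) (U V : K[X]) (m : ℕ) (hU : U.natDegree ≤ m)
    (hV : V.natDegree = 0) : (hq N (r.map C) U V).natDegree ≤ N * m := by
  unfold hq
  refine natDegree_sum_le_of_forall_le _ _ fun n hn => ?_
  rw [Finset.mem_range] at hn
  have h1 : (U ^ n).natDegree ≤ n * m := natDegree_pow_le.trans (Nat.mul_le_mul_left _ hU)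
  have h2 : (V ^ (N - n)).natDegree ≤ 0 := by
    refine natDegree_pow_le.trans ?_
    rw [hV, mul_zero]
  have h3 : ((r.map C).coeff n * U ^ n).natDegree ≤ n * m := by
    refine natDegree_mul_le.trans ?_
    rw [coeff_map, natDegree_C, zero_add]
    exact h1
  refine natDegree_mul_le.trans ?_
  have h4 : n * m ≤ N * m := Nat.mul_le_mul_right _ (by omega)
  omega

theorem map_map_C (φ : K →+* S) (r : K[X]) :
    (r.map C).map (Polynomial.mapRingHom φ) = (r.map φ).map C := by
  rw [Polynomial.map_map, Polynomial.map_map]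
  congr 1
  ext a
  simp

end hq

section

variable {k : ℕ}

/-- the data: degrees, polynomials, denominators -/
structure Dat (k : ℕ) (K : Type) [CommRing K] where
  /-- degrees of the `r j` -/
  N : Fin k → ℕ
  /-- degrees of the `F i` -/
  d : Fin k → ℕ
  /-- the critical points are roots of the `r j` -/
  r : Fin k → K[X]
  /-- the functions -/
  F : Fin k → K[X]
  /-- denominators -/
  D : Fin k → K
  /-- translations -/
  l : Fin k → K

/-- base change -/
noncomputable def Dat.map {K S : Type} [CommRing K] [CommRing S] (φ : K →+* S) (A : Dat k K) :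
    Dat k S where
  N := A.N
  d := A.d
  r := fun j => (A.r j).map φ
  F := fun i => (A.F i).map φ
  D := fun i => φ (A.D i)
  l := fun i => φ (A.l i)

/-- the preimages of the roots of `r_j` under `(F_i + l_i) / D_i` -/
noncomputable def TQ {K : Type} [CommRing K] (A : Dat k K) (q : Fin k × Fin k) : K[X] :=
  hq (A.N q.2) ((A.r q.2).map C) (A.F q.1 + C (A.l q.1)) (C (A.D q.1))

theorem map_TQ {K S : Type} [CommRing K] [CommRing S] (φ : K →+* S) (A : Dat k K)
    (q : Fin k × Fin k) : (TQ A q).map φ = TQ (A.map φ) q := by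
  unfold TQ
  have h1 := map_hq (Polynomial.mapRingHom φ) (A.N q.2) ((A.r q.2).map C)
    (A.F q.1 + C (A.l q.1)) (C (A.D q.1))
  rw [map_map_C, Polynomial.coe_mapRingHom, Polynomial.map_add, Polynomial.map_C,
    Polynomial.map_C] at h1
  exact h1

theorem eval_TQ {K : Type} [CommRing K] (A : Dat k K) (q : Fin k × Fin k) (z : K) :
    (TQ A q).eval z = hq (A.N q.2) (A.r q.2) ((A.F q.1).eval z + A.l q.1) (A.D q.1) := by
  have h1 := map_hq (Polynomial.evalRingHom z) (A.N q.2) ((A.r q.2).map C)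
    (A.F q.1 + C (A.l q.1)) (C (A.D q.1))
  have h2 : ((A.r q.2).map C).map (Polynomial.evalRingHom z) = A.r q.2 := by
    rw [Polynomial.map_map]
    have h3 : (Polynomial.evalRingHom z).comp C = RingHom.id K := by
      ext a
      simp
    rw [h3, Polynomial.map_id]
  rw [h2] at h1
  simp only [Polynomial.coe_evalRingHom, Polynomial.eval_add, Polynomial.eval_C] at h1
  exact h1

/-- the rescaled family -/
noncomputable def TR {K : Type} [CommRing K] (A : Dat k K) (t : K) (e : Fin k → ℕ) (L : ℕ)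
    (q : Fin k × Fin k) : K[X] :=
  hq (A.N q.2) ((A.r q.2).map C) (hq (A.d q.1) ((A.F q.1).map C) X (C (t ^ e q.1)) - C (A.l q.1))
    (C (A.D q.1 * t ^ L))

theorem map_TR {K S : Type} [CommRing K] [CommRing S] (φ : K →+* S) (A : Dat k K) (t : K)
    (e : Fin k → ℕ) (L : ℕ) (q : Fin k × Fin k) :
    (TR A t e L q).map φ = TR (A.map φ) (φ t) e L q := by
  have h1 := map_hq (Polynomial.mapRingHom φ) (A.N q.2) ((A.r q.2).map C)
    (hq (A.d q.1) ((A.F q.1).map C) X (C (t ^ e q.1)) - C (A.l q.1)) (C (A.D q.1 * t ^ L))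
  have h2 := map_hq (Polynomial.mapRingHom φ) (A.d q.1) ((A.F q.1).map C) X (C (t ^ e q.1))
  rw [map_map_C, Polynomial.coe_mapRingHom, Polynomial.map_C, Polynomial.map_X, map_pow φ] at h2
  rw [map_map_C, Polynomial.coe_mapRingHom] at h1
  unfold TR
  rw [h1, Polynomial.map_sub, Polynomial.map_C, Polynomial.map_C, map_mul φ, map_pow φ, h2]
  rfl

theorem comp_map_C {Ω : Type} [Field Ω] (r w : Polynomial Ω) :
    (r.map C).map (Polynomial.compRingHom w) = r.map C := by
  rw [Polynomial.map_map]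
  congr 1
  ext a
  simp

/-- the two families correspond to each other -/
theorem TR_comp {Ω : Type} [Field Ω] (A B : Dat k Ω) {t : Ω} (ht : t ≠ 0) (e : Fin k → ℕ) (L : ℕ)
    (hL : ∀ i, e i * A.d i = L) (hF : ∀ i, (A.F i).natDegree ≤ A.d i)
    (hN : B.N = A.N) (hr : ∀ i, B.r i = A.r i) (hFF : ∀ i, B.F i = A.F i)
    (hD : ∀ i, B.D i = A.D i) (hl : ∀ i, B.l i = -(A.l i) / t ^ L)
    (q : Fin k × Fin k) :
    (TR A t e L q).comp (C (t ^ e q.1) * X) = C ((t ^ L) ^ (A.N q.2)) * TQ B q := by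
  have h1 := map_hq (Polynomial.compRingHom (C (t ^ e q.1) * X)) (A.N q.2) ((A.r q.2).map C)
    (hq (A.d q.1) ((A.F q.1).map C) X (C (t ^ e q.1)) - C (A.l q.1)) (C (A.D q.1 * t ^ L))
  have h2 := map_hq (Polynomial.compRingHom (C (t ^ e q.1) * X)) (A.d q.1) ((A.F q.1).map C) X
    (C (t ^ e q.1))
  rw [comp_map_C] at h1 h2
  simp only [Polynomial.coe_compRingHom_apply, Polynomial.C_comp, Polynomial.X_comp] at h2
  simp only [Polynomial.coe_compRingHom_apply, Polynomial.sub_comp, Polynomial.C_comp, h2] at h1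
  unfold TR
  rw [h1]
  have h3 : hq (A.d q.1) ((A.F q.1).map C) (C (t ^ e q.1) * X) (C (t ^ e q.1)) =
      C (t ^ L) * A.F q.1 := by
    have h4 := hq_smul (A.d q.1) ((A.F q.1).map C) (C (t ^ e q.1)) (X : Polynomial Ω) 1
    rw [mul_one, hq_X (hF q.1), ← C_pow, ← pow_mul, hL] at h4
    exact h4
  rw [h3]
  have ht' : t ^ L ≠ 0 := pow_ne_zero _ ht
  unfold TQ
  rw [hN, hr, hFF, hD, hl]
  generalize t ^ L = T at ht' ⊢
  have e1 : (C (T ^ (A.N q.2)) : Polynomial Ω) = C T ^ (A.N q.2) := C_pow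
  rw [e1, ← hq_smul]
  congr 1
  · rw [mul_add, ← C_mul, sub_eq_add_neg, ← C_neg]
    congr 2
    field_simp
  · rw [← C_mul, mul_comm]

/-- an element which is not a power -/
theorem exists_nonpower {p : ℕ} [Fact p.Prime] : ∃ g : ZMod p, g ≠ 0 ∧ ∀ d : ℕ, 2 ≤ d →
    ((d : ℕ) : ZMod p) ≠ 0 → (redp p (X ^ d - 1)).Splits → ∀ w : ZMod p, w ^ d ≠ g := by
  obtain ⟨g, hg⟩ := IsCyclic.exists_generator (α := (ZMod p)ˣ)
  refine ⟨(g : ZMod p), g.ne_zero, ?_⟩
  intro d hd hdp hs w hw
  have hq : redp p (X ^ d - 1) = X ^ d - 1 := by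
    simp [redp]
  rw [hq] at hs
  have hdeg : (X ^ d - 1 : (ZMod p)[X]).natDegree = d := by
    have := natDegree_X_pow_sub_C (R := ZMod p) (n := d) (r := 1)
    rwa [C_1] at this
  obtain ⟨u, hu, hu2⟩ := second_root (z := 1) hs (by omega) (by
    rw [derivative_sub, derivative_X_pow, derivative_one, sub_zero, eval_mul, eval_C, eval_pow,
      eval_X, one_pow, mul_one]
    exact hdp)
  rw [eval_sub, eval_pow, eval_X, eval_one, sub_eq_zero] at hu2
  have hw0 : w ≠ 0 := by
    rintro rfl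
    rw [zero_pow (by omega)] at hw
    exact g.ne_zero hw.symm
  have hu0 : u ≠ 0 := by
    rintro rfl
    rw [zero_pow (by omega)] at hu2
    exact zero_ne_one hu2
  -- the power map is surjective on units
  have hsurj : Function.Surjective (fun x : (ZMod p)ˣ => x ^ d) := by
    intro y
    obtain ⟨m, hm⟩ := Subgroup.mem_zpowers_iff.1 (hg y)
    refine ⟨(Units.mk0 w hw0) ^ m, ?_⟩
    have e1 : (Units.mk0 w hw0) ^ d = g := by
      apply Units.ext
      rw [Units.val_pow_eq_pow_val, Units.val_mk0, hw]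
    change ((Units.mk0 w hw0) ^ m) ^ d = y
    rw [← zpow_natCast, ← zpow_mul, mul_comm, zpow_mul, zpow_natCast, e1, hm]
  have hinj := Finite.injective_iff_surjective.2 hsurj
  have h1 : Units.mk0 u hu0 = 1 := by
    apply hinj
    apply Units.ext
    change ((Units.mk0 u hu0 ^ d : (ZMod p)ˣ) : ZMod p) = (((1 : (ZMod p)ˣ) ^ d : (ZMod p)ˣ) : ZMod p)
    rw [Units.val_pow_eq_pow_val, Units.val_mk0, hu2, one_pow, Units.val_one]
  apply hu
  have h2 := congrArg (fun x : (ZMod p)ˣ => (x : ZMod p)) h1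
  exact h2

/-- the substitution is injective -/
theorem inj_sub {ι : Type} {Ω : Type} [Field Ω] [CharZero Ω] (j' : MvPolynomial ι ℤ →+* Ω)
    (hj' : Function.Injective j') (s : ι → ℤ) (hs : ∀ i, s i ≠ 0)
    (j : MvPolynomial ι ℤ →+* Ω)
    (h : ∀ i, ((s i : ℤ) : Ω) * j (MvPolynomial.X i) = j' (MvPolynomial.X i)) :
    Function.Injective j := by
  let κ : MvPolynomial ι ℤ →+* MvPolynomial ι ℤ :=
    ev fun i => ((s i : ℤ) : MvPolynomial ι ℤ) * MvPolynomial.X i
  have h1 : j.comp κ = j' := by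
    apply MvPolynomial.ringHom_ext
    · intro n
      have e1 : (j.comp κ).comp MvPolynomial.C = j'.comp MvPolynomial.C := RingHom.ext_int _ _
      exact congrArg (fun f : ℤ →+* Ω => f n) e1
    · intro i
      rw [RingHom.comp_apply]
      have e2 : κ (MvPolynomial.X i) =
          ((s i : ℤ) : MvPolynomial ι ℤ) * MvPolynomial.X i := ev_X _ i
      rw [e2, map_mul, map_intCast, h i]
  have h2 : ∀ P : MvPolynomial ι ℤ, ∃ (N : ℤ) (P' : MvPolynomial ι ℤ), N ≠ 0 ∧
      ((N : ℤ) : MvPolynomial ι ℤ) * P = κ P' := by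
    intro P
    induction P using MvPolynomial.induction_on with
    | C a =>
      refine ⟨1, MvPolynomial.C a, one_ne_zero, ?_⟩
      have e1 : κ.comp MvPolynomial.C = MvPolynomial.C := RingHom.ext_int _ _
      rw [Int.cast_one, one_mul]
      exact (congrArg (fun f : ℤ →+* MvPolynomial ι ℤ => f a) e1).symm
    | add P Q hP hQ =>
      obtain ⟨N1, P1, h3, h4⟩ := hP
      obtain ⟨N2, P2, h5, h6⟩ := hQ
      refine ⟨N1 * N2, (N2 : MvPolynomial ι ℤ) * P1 + (N1 : MvPolynomial ι ℤ) * P2,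
        mul_ne_zero h3 h5, ?_⟩
      rw [map_add, map_mul, map_mul, map_intCast, map_intCast, ← h4, ← h6, Int.cast_mul]
      ring
    | mul_X P i hP =>
      obtain ⟨N1, P1, h3, h4⟩ := hP
      refine ⟨N1 * s i, P1 * MvPolynomial.X i, mul_ne_zero h3 (hs i), ?_⟩
      have e2 : κ (MvPolynomial.X i) =
          ((s i : ℤ) : MvPolynomial ι ℤ) * MvPolynomial.X i := ev_X _ i
      rw [map_mul, ← h4, e2, Int.cast_mul]
      ring
  rw [injective_iff_map_eq_zero]
  intro P hP
  obtain ⟨N, P', hN, h3⟩ := h2 P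
  have h4 := congrArg j h3
  rw [map_mul, hP, mul_zero, ← RingHom.comp_apply, h1] at h4
  have h5 : P' = 0 := hj' (h4.symm.trans (map_zero _).symm)
  rw [h5, map_zero] at h3
  exact (mul_eq_zero.1 h3).resolve_left (Int.cast_ne_zero.2 hN)

end

end Pool.Agent.V7H60.GH
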