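import Pool.Agent.V7H60.GH.Poly

set_option autoImplicit false
set_option linter.unusedSectionVars false

/-!
# Translates of polynomials: the automorphism
-/

namespace Pool.Agent.V7H60.GH

open Polynomial Pool.Agent.V7H60.GC Pool.Agent.N455.HT

variable {k : ℕ}

theorem TR_red {K F : Type} [CommRing K] [Field F] (ρ : K →+* F) (A : Dat k K) {t : K}
    (ht : ρ t = 0) {e : Fin k → ℕ} (he : ∀ i, e i ≠ 0) {L : ℕ} (hL : L ≠ 0)
    (q : Fin k × Fin k) : (TR A t e L q).map ρ =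
      C (ρ ((A.r q.2).coeff (A.N q.2))) *
        (C (ρ ((A.F q.1).coeff (A.d q.1))) * X ^ (A.d q.1) - C (ρ (A.l q.1))) ^ (A.N q.2) := by
  rw [map_TR, ht]
  unfold TR
  rw [zero_pow (he _), zero_pow hL, mul_zero, C_0, hq_zero, hq_zero, coeff_map, coeff_map]
  change C (((A.r q.2).map ρ).coeff (A.N q.2)) *
    (C (((A.F q.1).map ρ).coeff (A.d q.1)) * X ^ (A.d q.1) - C (ρ (A.l q.1))) ^ (A.N q.2) = _
  rw [coeff_map, coeff_map]

theorem natDegree_TR {K : Type} [CommRing K] (A : Dat k K) (t : K) (e : Fin k → ℕ) (L : ℕ)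
    (q : Fin k × Fin k) : (TR A t e L q).natDegree ≤ A.N q.2 * A.d q.1 := by
  refine natDegree_hq _ _ _ _ _ ?_ (natDegree_C _)
  rw [natDegree_sub_C]
  have h1 := natDegree_hq (A.d q.1) (A.F q.1) (X : Polynomial K) (C (t ^ e q.1)) 1
    natDegree_X_le (natDegree_C _)
  rwa [mul_one] at h1

theorem core {ι : Type} [Finite ι] (A : Dat k (MvPolynomial ι ℤ)) (hd : ∀ i, 2 ≤ A.d i)
    (hF : ∀ i, (A.F i).natDegree ≤ A.d i) (hr : ∀ j, (A.r j).natDegree ≤ A.N j)
    {p : ℕ} [hFt : Fact p.Prime] (ρ : MvPolynomial ι ℤ →+* ZMod p)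
    (h1 : ∀ j, ρ ((A.r j).coeff (A.N j)) ≠ 0) (h2 : ∀ i, ρ ((A.F i).coeff (A.d i)) ≠ 0)
    (h3 : ∀ j, ((A.r j).map ρ).Splits) (h4 : ∀ j, ((A.r j).map ρ).Separable)
    (h5 : ∀ i (w : ZMod p), ρ ((A.F i).coeff (A.d i)) * w ^ (A.d i) - ρ (A.l i) ≠ 0)
    (T : ι → Prop) [DecidablePred T]
    (hsub : ∀ (Ω : Type) [Field Ω] (j j' : MvPolynomial ι ℤ →+* Ω) (u : Ω), u ≠ 0 →
      (∀ m, j (MvPolynomial.X m) =
        if T m then -(j' (MvPolynomial.X m)) / u else j' (MvPolynomial.X m)) →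
      (∀ i, (A.r i).map j = (A.r i).map j') ∧ (∀ i, (A.F i).map j = (A.F i).map j') ∧
      (∀ i, j (A.D i) = j' (A.D i)) ∧ ∀ i, j (A.l i) = -(j' (A.l i)) / u) :
    (∃ (Ω : Type) (_ : Field Ω) (j : MvPolynomial ι ℤ →+* Ω) (τ : Ω ≃+* Ω),
      Function.Injective j ∧ FM A.r (TQ A) j τ) ∧ (∀ q, TQ A q ≠ 0) := by
  classical
  let R := MvPolynomial ι ℤ
  have hρp : ρ (p : R) = 0 := by
    rw [map_natCast, CharP.cast_eq_zero]
  let L : ℕ := ∏ i, A.d i
  let e : Fin k → ℕ := fun i => L / A.d i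
  have hLe : ∀ i, e i * A.d i = L := fun i =>
    Nat.div_mul_cancel (Finset.dvd_prod_of_mem A.d (Finset.mem_univ i))
  have hL0 : L ≠ 0 := Finset.prod_ne_zero_iff.2 fun i _ => by have := hd i; omega
  have he0 : ∀ i, e i ≠ 0 := by
    intro i h0
    have h6 := hLe i
    rw [h0, zero_mul] at h6
    exact hL0 h6.symm
  have hQred := TR_red ρ A (t := (p : R)) hρp he0 hL0
  have hbdeg : ∀ i, (C (ρ ((A.F i).coeff (A.d i))) * X ^ (A.d i) - C (ρ (A.l i))).natDegree =
      A.d i := by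
    intro i
    rw [natDegree_sub_C, natDegree_C_mul_X_pow _ _ (h2 i)]
  have hbne : ∀ i, C (ρ ((A.F i).coeff (A.d i))) * X ^ (A.d i) - C (ρ (A.l i)) ≠ 0 := by
    intro i h0
    have h6 := hbdeg i
    rw [h0, natDegree_zero] at h6
    have := hd i
    omega
  have hQne : ∀ q, (TR A (p : R) e L q).map ρ ≠ 0 := by
    intro q
    rw [hQred]
    exact mul_ne_zero (C_ne_zero.2 (h1 _)) (pow_ne_zero _ (hbne _))
  obtain ⟨Ω, hΩ, j', τ, hj', hFM⟩ := frob (p := p) ρ A.r (TR A (p : R) e L)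
    (fun i => by
      have h6 : (A.r i).natDegree = A.N i := by
        refine le_antisymm (hr i) (le_natDegree_of_ne_zero ?_)
        intro h0
        apply h1 i
        rw [h0, map_zero]
      unfold leadingCoeff
      rw [h6]
      exact h1 i)
    (fun q => lead_ne ρ (natDegree_TR A _ e L q) (by
      rw [hQred, natDegree_C_mul (h1 _), natDegree_pow, hbdeg]) (hQne q))
    h3 h4
    (fun q a => by
      rw [hQred, eval_mul, eval_C, eval_pow]
      refine mul_ne_zero (h1 _) (pow_ne_zero _ ?_)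
      rw [eval_sub, eval_mul, eval_C, eval_pow, eval_X, eval_C]
      exact h5 q.1 a)
  -- change of parameters
  have hchar : CharZero Ω := charZero_of_injective_ringHom hj'
  have hpΩ : ((p : ℕ) : Ω) ≠ 0 := Nat.cast_ne_zero.2 hFt.out.ne_zero
  have hu0 : ((p : ℕ) : Ω) ^ L ≠ 0 := pow_ne_zero _ hpΩ
  let cc : ι → Ω := fun m => if T m then -(j' (MvPolynomial.X m)) / ((p : ℕ) : Ω) ^ L
    else j' (MvPolynomial.X m)
  let j : R →+* Ω := ev cc
  have hjX : ∀ m, j (MvPolynomial.X m) = cc m := fun m => ev_X _ m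
  have hinj : Function.Injective j := by
    refine inj_sub j' hj' (fun m => if T m then -((p : ℤ) ^ L) else 1) (fun m => ?_) j
      (fun m => ?_)
    · split_ifs
      · exact neg_ne_zero.2 (pow_ne_zero _ (Int.natCast_ne_zero.2 hFt.out.ne_zero))
      · exact one_ne_zero
    · rw [hjX]
      simp only [cc]
      split_ifs
      · push_cast
        field_simp
      · rw [Int.cast_one, one_mul]
  obtain ⟨s1, s2, s3, s4⟩ := hsub Ω j j' (((p : ℕ) : Ω) ^ L) hu0 hjX
  have hQ : ∀ q, ((TR A (p : R) e L q).map j').comp (C (((p : ℕ) : Ω) ^ e q.1) * X) =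
      C ((((p : ℕ) : Ω) ^ L) ^ (A.N q.2)) * (TQ A q).map j := by
    intro q
    have e1 : j' (p : R) = ((p : ℕ) : Ω) := map_natCast _ _
    rw [map_TR, e1, map_TQ]
    exact TR_comp (A.map j') (A.map j) hpΩ e L hLe
      (fun i => natDegree_map_le.trans (hF i)) rfl s1 s2 s3 s4 q
  have hu : ∀ q : Fin k × Fin k, (((p : ℕ) : Ω) ^ L) ^ (A.N q.2) ≠ 0 :=
    fun q => pow_ne_zero _ hu0
  have hw : ∀ q : Fin k × Fin k, ((p : ℕ) : Ω) ^ e q.1 ≠ 0 := fun q => pow_ne_zero _ hpΩ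
  refine ⟨⟨Ω, hΩ, j, τ, hinj, ⟨?_, ?_, ?_, ?_, ?_⟩⟩, ?_⟩
  · intro x
    have h6 : ((τ : Ω ≃+* Ω) : Ω →+* Ω).comp j = j := by
      apply MvPolynomial.ringHom_ext
      · intro n
        have e1 : (((τ : Ω ≃+* Ω) : Ω →+* Ω).comp j).comp MvPolynomial.C =
          j.comp MvPolynomial.C := RingHom.ext_int _ _
        exact congrArg (fun f : ℤ →+* Ω => f n) e1
      · intro i
        rw [RingHom.comp_apply, hjX]
        change τ (cc i) = cc i
        simp only [cc]
        split_ifs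
        · rw [map_div₀, map_neg, hFM.fix, map_pow, map_natCast]
        · exact hFM.fix _
    exact congrArg (fun f : R →+* Ω => f x) h6
  · intro i
    have h6 := hFM.sP i
    rw [← s1] at h6
    exact h6
  · intro q
    have h6 := hFM.sQ q
    have hlin : (C (((p : ℕ) : Ω) ^ e q.1) * X : Polynomial Ω).natDegree ≤ 1 := by
      refine (natDegree_C_mul_le _ _).trans natDegree_X_le
    have hlc : (C (((p : ℕ) : Ω) ^ e q.1) * X : Polynomial Ω).leadingCoeff ≠ 0 := by
      rw [leadingCoeff_ne_zero]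
      exact mul_ne_zero (C_ne_zero.2 (hw q)) X_ne_zero
    have h7 := h6.comp_of_natDegree_le_one_of_invertible hlin (invertibleOfNonzero hlc)
    rw [hQ] at h7
    have h8 := Splits.C_mul h7 ((((p : ℕ) : Ω) ^ L) ^ (A.N q.2))⁻¹
    rw [← mul_assoc, ← C_mul, inv_mul_cancel₀ (hu q), C_1, one_mul] at h8
    exact h8
  · intro i z hz
    apply hFM.rP i z
    rw [← s1]
    exact hz
  · intro q z hz hτ
    have h6 := congrArg (fun f => eval z f) (hQ q)
    simp only [eval_comp, eval_mul, eval_C, eval_X] at h6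
    rw [hz, mul_zero] at h6
    apply hFM.rQ q _ h6
    rw [map_mul, map_pow, map_natCast, hτ]
  · intro q h0
    have h6 := hQ q
    rw [h0, Polynomial.map_zero, mul_zero] at h6
    have h7 : (TR A (p : R) e L q).map j' = 0 := by
      have h8 := congrArg (fun f => f.comp (C (((p : ℕ) : Ω) ^ e q.1)⁻¹ * X)) h6
      simp only [zero_comp, comp_assoc] at h8
      have h9 : (C (((p : ℕ) : Ω) ^ e q.1) * X : Polynomial Ω).comp
          (C (((p : ℕ) : Ω) ^ e q.1)⁻¹ * X) = X := by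
        rw [mul_comp, C_comp, X_comp, ← mul_assoc, ← C_mul, mul_inv_cancel₀ (hw q), C_1, one_mul]
      rw [h9, comp_X] at h8
      exact h8
    have h10 : TR A (p : R) e L q = 0 := (Polynomial.map_eq_zero_iff hj').1 h7
    apply hQne q
    rw [h10, Polynomial.map_zero]

end Pool.Agent.V7H60.GH
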