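import Pool.Agent.V7H60.GC.Cheb

set_option autoImplicit false
set_option linter.unusedSectionVars false

/-!
# Integral polynomials modulo large primes
-/

namespace Pool.Agent.V7H60.GH

open Polynomial Pool.Agent.V7H60.GC

/-- reduction modulo `p` -/
noncomputable abbrev redp (p : ℕ) (f : ℤ[X]) : (ZMod p)[X] := f.map (Int.castRingHom (ZMod p))

theorem int_ne {p : ℕ} (_ : p.Prime) {m : ℤ} (hm : m ≠ 0) (h : m.natAbs < p) :
    ((m : ℤ) : ZMod p) ≠ 0 := by
  intro h0
  rw [ZMod.intCast_zmod_eq_zero_iff_dvd] at h0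
  have h1 := Int.natAbs_dvd_natAbs.2 h0
  rw [Int.natAbs_natCast] at h1
  exact absurd (Nat.le_of_dvd (Int.natAbs_pos.2 hm) h1) (by omega)

/-- coprime polynomials stay coprime modulo large primes -/
theorem coprime_large {f g : ℤ[X]}
    (h : IsCoprime (f.map (algebraMap ℤ ℚ)) (g.map (algebraMap ℤ ℚ))) :
    ∃ B : ℕ, ∀ p : ℕ, p.Prime → B < p → IsCoprime (redp p f) (redp p g) := by
  obtain ⟨u, v, huv⟩ := h
  obtain ⟨b, hb, hbu⟩ := IsLocalization.integerNormalization_spec (nonZeroDivisors ℤ) u
  obtain ⟨c, hc, hcv⟩ := IsLocalization.integerNormalization_spec (nonZeroDivisors ℤ) v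
  set U := IsLocalization.integerNormalization (nonZeroDivisors ℤ) u
  set V := IsLocalization.integerNormalization (nonZeroDivisors ℤ) v
  have hb0 : b ≠ 0 := nonZeroDivisors.ne_zero hb
  have hc0 : c ≠ 0 := nonZeroDivisors.ne_zero hc
  have h1 : C c * U * f + C b * V * g = C (b * c) := by
    apply Polynomial.map_injective (algebraMap ℤ ℚ) (FaithfulSMul.algebraMap_injective ℤ ℚ)
    simp only [Polynomial.map_add, Polynomial.map_mul, Polynomial.map_C, hbu, hcv]
    have e1 : b • u = C (algebraMap ℤ ℚ b) * u := by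
      rw [← algebraMap_smul ℚ b u, smul_eq_C_mul]
    have e2 : c • v = C (algebraMap ℤ ℚ c) * v := by
      rw [← algebraMap_smul ℚ c v, smul_eq_C_mul]
    rw [e1, e2, map_mul, C_mul]
    linear_combination (C (algebraMap ℤ ℚ b) * C (algebraMap ℤ ℚ c)) * huv
  refine ⟨(b * c).natAbs, fun p hp hB => ?_⟩
  have hF : Fact p.Prime := ⟨hp⟩
  have h2 := int_ne hp (mul_ne_zero hb0 hc0) hB
  have h3 := congrArg (redp p) h1
  simp only [redp, Polynomial.map_add, Polynomial.map_mul, Polynomial.map_C] at h3
  set t : ZMod p := Int.castRingHom (ZMod p) (b * c) with ht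
  have ht0 : t ≠ 0 := h2
  have h4 : C t⁻¹ * C t = (1 : (ZMod p)[X]) := by
    rw [← C_mul, inv_mul_cancel₀ ht0, C_1]
  refine ⟨C t⁻¹ * (C (Int.castRingHom (ZMod p) c) * U.map (Int.castRingHom (ZMod p))),
    C t⁻¹ * (C (Int.castRingHom (ZMod p) b) * V.map (Int.castRingHom (ZMod p))), ?_⟩
  linear_combination (C t⁻¹) * h3 + h4

theorem separable_large {f : ℤ[X]} (h : (f.map (algebraMap ℤ ℚ)).Separable) :
    ∃ B : ℕ, ∀ p : ℕ, p.Prime → B < p → (redp p f).Separable := by
  obtain ⟨B, hB⟩ := coprime_large (f := f) (g := derivative f) (by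
    rw [← derivative_map]
    exact h)
  refine ⟨B, fun p hp hpB => ?_⟩
  unfold Polynomial.Separable
  rw [derivative_map]
  exact hB p hp hpB

/-- a separable polynomial with given roots -/
theorem exists_sep {f : ℤ[X]} (hf : f ≠ 0) : ∃ r : ℤ[X], r ≠ 0 ∧
    (r.map (algebraMap ℤ ℚ)).Separable ∧
    ∀ z : ℂ, (f.map (Int.castRingHom ℂ)).eval z = 0 → (r.map (Int.castRingHom ℂ)).eval z = 0 := by
  classical
  set g : ℚ[X] := f.map (algebraMap ℤ ℚ) with hg
  have hg0 : g ≠ 0 := (Polynomial.map_ne_zero_iff (FaithfulSMul.algebraMap_injective ℤ ℚ)).2 hf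
  set s := UniqueFactorizationMonoid.radical g with hs
  obtain ⟨b, hb, hbs⟩ := IsLocalization.integerNormalization_spec (nonZeroDivisors ℤ) s
  set r := IsLocalization.integerNormalization (nonZeroDivisors ℤ) s
  have hb0 : b ≠ 0 := nonZeroDivisors.ne_zero hb
  have hbQ : (algebraMap ℤ ℚ b) ≠ 0 := fun h => hb0 (FaithfulSMul.algebraMap_injective ℤ ℚ (by
    rw [h, map_zero]))
  have e1 : r.map (algebraMap ℤ ℚ) = C (algebraMap ℤ ℚ b) * s := by
    rw [hbs, ← algebraMap_smul ℚ b s, smul_eq_C_mul]
  have hs0 : s ≠ 0 := UniqueFactorizationMonoid.radical_ne_zero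
  refine ⟨r, ?_, ?_, ?_⟩
  · rintro hr
    rw [hr, Polynomial.map_zero] at e1
    exact mul_ne_zero (C_ne_zero.2 hbQ) hs0 e1.symm
  · rw [e1]
    have h1 : s.Separable := PerfectField.separable_iff_squarefree.2
      UniqueFactorizationMonoid.squarefree_radical
    exact h1.unit_mul (isUnit_C.2 (isUnit_iff_ne_zero.2 hbQ))
  · intro z hz
    have hC : (algebraMap ℚ ℂ).comp (algebraMap ℤ ℚ) = Int.castRingHom ℂ := RingHom.ext_int _ _
    have hz' : aeval z g = 0 := by
      rw [aeval_def, ← eval_map, hg, Polynomial.map_map, hC]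
      exact hz
    have hint : IsIntegral ℚ z := (IsAlgebraic.isIntegral ⟨g, hg0, hz'⟩)
    have h1 : minpoly ℚ z ∣ s :=
      (UniqueFactorizationMonoid.dvd_radical_iff_of_irreducible (minpoly.irreducible hint) hg0).2
        (minpoly.dvd ℚ z hz')
    have h2 : aeval z s = 0 := by
      obtain ⟨t, ht⟩ := h1
      rw [ht, map_mul, minpoly.aeval, zero_mul]
    rw [← hC, ← Polynomial.map_map, e1, Polynomial.map_mul, eval_mul, eval_map_algebraMap,
      eval_map_algebraMap, h2, mul_zero]

/-- a prime modulo which given polynomials split -/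
theorem exists_prime_split' (F : Finset ℤ[X]) (hF : ∀ f ∈ F, f ≠ 0) (B : ℕ) :
    ∃ p : ℕ, p.Prime ∧ B < p ∧ ∀ f ∈ F, (redp p f).Splits := by
  classical
  let T : Set ℂ := ⋃ f ∈ F, {z | ((f.map (Int.castRingHom ℂ))).eval z = 0}
  have hfC : ∀ f ∈ F, f.map (Int.castRingHom ℂ) ≠ 0 := fun f hf =>
    (Polynomial.map_ne_zero_iff (Int.castRingHom ℂ).injective_int).2 (hF f hf)
  have hfin : T.Finite := by
    refine Set.Finite.biUnion F.finite_toSet fun f hf => ?_
    refine Set.Finite.subset (f.map (Int.castRingHom ℂ)).roots.toFinset.finite_toSet ?_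
    intro z hz
    rw [Finset.mem_coe, Multiset.mem_toFinset, mem_roots (hfC f hf)]
    exact hz
  have hT : ∀ t ∈ T, IsAlgebraic ℚ t := by
    intro t ht
    obtain ⟨f, hf, hz⟩ := Set.mem_iUnion₂.1 ht
    have h1 : IsAlgebraic ℤ t := ⟨f, hF f hf, by
      rw [aeval_def, ← eval_map]
      exact hz⟩
    exact (IsFractionRing.isAlgebraic_iff ℤ ℚ ℂ).1 h1
  obtain ⟨P, hPB, hP⟩ := exists_pkg (RingEquiv.refl ℂ) T hfin hT
    (B + ∑ f ∈ F, f.leadingCoeff.natAbs)
  have hpr := P.hp
  refine ⟨P.p, hpr.out, by omega, fun f hf => ?_⟩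
  have hf1 := hF f hf
  have hval : ∀ x : P.R, P.ψ x ∈ (algebraMap (ZMod P.p) (AlgebraicClosure (ZMod P.p))).range := by
    intro x
    have h1 := P.frob x x rfl
    have h2 := (Subfield.mem_bot_iff_pow_eq_self (F := AlgebraicClosure (ZMod P.p)) (p := P.p)).2
      h1.symm
    rw [← ZMod.fieldRange_castHom_eq_bot P.p, RingHom.mem_fieldRange] at h2
    obtain ⟨u, hu⟩ := h2
    exact ⟨u, by rw [← hu]; congr 1; exact Subsingleton.elim _ _⟩
  have hlead : ((f.leadingCoeff : ℤ) : ZMod P.p) ≠ 0 := by
    apply int_ne hpr.out (leadingCoeff_ne_zero.2 hf1)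
    have := Finset.single_le_sum (f := fun f : ℤ[X] => f.leadingCoeff.natAbs)
      (fun i _ => Nat.zero_le _) hf
    omega
  -- the factorisation over the ring
  have hsC : (f.map (Int.castRingHom ℂ)).Splits := IsAlgClosed.splits _
  have hex : ∀ z : ℂ, ∃ r : P.R, (f.map (Int.castRingHom ℂ)).eval z = 0 → P.ι r = z := by
    intro z
    by_cases hz : (f.map (Int.castRingHom ℂ)).eval z = 0
    · obtain ⟨r, hr⟩ := hP z (Set.mem_iUnion₂.2 ⟨f, hf, hz⟩)
      exact ⟨r, fun _ => hr⟩
    · exact ⟨0, fun h => absurd h hz⟩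
  choose r hr using hex
  have h1 : f.map (Int.castRingHom P.R) = C ((f.leadingCoeff : ℤ) : P.R) *
      ((f.map (Int.castRingHom ℂ)).roots.map fun z => X - C (r z)).prod := by
    apply Polynomial.map_injective P.ι P.inj
    rw [Polynomial.map_map, Polynomial.map_mul, Polynomial.map_C, map_intCast,
      Polynomial.map_multiset_prod, Multiset.map_map]
    have e1 : P.ι.comp (Int.castRingHom P.R) = Int.castRingHom ℂ := RingHom.ext_int _ _
    rw [e1]
    conv_lhs => rw [hsC.eq_prod_roots, leadingCoeff_map_of_injective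
      (Int.castRingHom ℂ).injective_int]
    congr 2
    refine Multiset.map_congr rfl fun z hz => ?_
    rw [Function.comp_apply, Polynomial.map_sub, Polynomial.map_X, Polynomial.map_C,
      hr z (mem_roots'.1 hz).2]
  have h2 : (f.map (Int.castRingHom (ZMod P.p))).map (algebraMap (ZMod P.p)
      (AlgebraicClosure (ZMod P.p))) = C ((f.leadingCoeff : ℤ) : AlgebraicClosure (ZMod P.p)) *
      ((f.map (Int.castRingHom ℂ)).roots.map fun z => X - C (P.ψ (r z))).prod := by
    have e1 : (algebraMap (ZMod P.p) (AlgebraicClosure (ZMod P.p))).comp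
        (Int.castRingHom (ZMod P.p)) = P.ψ.comp (Int.castRingHom P.R) := RingHom.ext_int _ _
    rw [Polynomial.map_map, e1, ← Polynomial.map_map, h1, Polynomial.map_mul, Polynomial.map_C,
      map_intCast, Polynomial.map_multiset_prod, Multiset.map_map]
    congr 2
    refine Multiset.map_congr rfl fun z _ => ?_
    rw [Function.comp_apply, Polynomial.map_sub, Polynomial.map_X, Polynomial.map_C]
  refine Splits.of_splits_map (algebraMap (ZMod P.p) (AlgebraicClosure (ZMod P.p)))
    (IsAlgClosed.splits _) ?_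
  intro a ha
  have hc0 : ((f.leadingCoeff : ℤ) : AlgebraicClosure (ZMod P.p)) ≠ 0 := by
    have e2 : ((f.leadingCoeff : ℤ) : AlgebraicClosure (ZMod P.p)) =
        algebraMap (ZMod P.p) (AlgebraicClosure (ZMod P.p)) ((f.leadingCoeff : ℤ) : ZMod P.p) :=
      (map_intCast _ _).symm
    rw [e2]
    exact (map_ne_zero_iff _ (algebraMap (ZMod P.p) (AlgebraicClosure (ZMod P.p))).injective).2
      hlead
  rw [h2, roots_C_mul _ hc0] at ha
  have h3 : a ∈ (((f.map (Int.castRingHom ℂ)).roots.map fun z => P.ψ (r z)).map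
      fun a => X - C a).prod.roots := by
    rw [Multiset.map_map]
    exact ha
  rw [roots_multiset_prod_X_sub_C, Multiset.mem_map] at h3
  obtain ⟨z, -, rfl⟩ := h3
  exact hval _

/-- a second root of a split polynomial -/
theorem second_root {F : Type} [Field F] {q : F[X]} (hs : q.Splits) (hd : 2 ≤ q.natDegree) {z : F}
    (hz : (derivative q).eval z ≠ 0) : ∃ u, u ≠ z ∧ q.eval u = 0 := by
  classical
  have hq : q ≠ 0 := by
    rintro rfl
    simp at hd
  by_contra hcon
  push Not at hcon
  have h1 : ∀ u ∈ q.roots, u = z := by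
    intro u hu
    by_contra hne
    exact hcon u hne (mem_roots'.1 hu).2
  have h2 := Multiset.eq_replicate_card.2 h1
  have h3 : Multiset.card q.roots = q.natDegree := hs.natDegree_eq_card_roots.symm
  have h4 : q.roots.count z = q.natDegree := by
    rw [h2, Multiset.count_replicate_self, h3]
  rw [count_roots] at h4
  have h5 : 1 < q.rootMultiplicity z := by omega
  rw [one_lt_rootMultiplicity_iff_isRoot hq] at h5
  exact hz h5.2

/-- an omitted value of a rational function on the projective line over a finite field -/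
theorem exists_omit' {F : Type} [Field F] [Finite F] {A B : F[X]} {a b : F}
    (hAB : IsCoprime A B) (hab : a ≠ 0 ∨ b ≠ 0) {z u : F} (hzu : u ≠ z)
    (h : A.eval z * B.eval u = A.eval u * B.eval z) :
    ∃ y0 y1 : F, (∀ x, y0 * B.eval x - y1 * A.eval x ≠ 0) ∧ y0 * b - y1 * a ≠ 0 := by
  classical
  have hno : ∀ x, ¬ (A.eval x = 0 ∧ B.eval x = 0) := by
    rintro x ⟨h1, h2⟩
    obtain ⟨s, t, hst⟩ := hAB
    have h3 := congrArg (eval x) hst
    rw [eval_add, eval_mul, eval_mul, h1, h2, mul_zero, mul_zero, add_zero, eval_one] at h3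
    exact zero_ne_one h3
  let Φ : Option F → Option F := fun o => match o with
    | none => if b = 0 then none else some (a / b)
    | some x => if B.eval x = 0 then none else some (A.eval x / B.eval x)
  have hni : ¬ Function.Injective Φ := by
    intro hinj
    apply hzu
    have h1 : Φ (some u) = Φ (some z) := by
      change (if B.eval u = 0 then none else some (A.eval u / B.eval u)) =
        (if B.eval z = 0 then none else some (A.eval z / B.eval z))
      by_cases hBz : B.eval z = 0
      · have hAz : A.eval z ≠ 0 := fun h0 => hno z ⟨h0, hBz⟩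
        rw [hBz, mul_zero] at h
        have hBu := (mul_eq_zero.1 h).resolve_left hAz
        rw [if_pos hBu, if_pos hBz]
      · by_cases hBu : B.eval u = 0
        · rw [hBu, mul_zero] at h
          exact absurd ⟨(mul_eq_zero.1 h.symm).resolve_right hBz, hBu⟩ (hno u)
        · rw [if_neg hBu, if_neg hBz]
          congr 1
          rw [div_eq_div_iff hBu hBz]
          exact h.symm
    exact Option.some_injective _ (hinj h1)
  rw [Finite.injective_iff_surjective] at hni
  unfold Function.Surjective at hni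
  push Not at hni
  obtain ⟨y, hy⟩ := hni
  rcases y with _ | w
  · refine ⟨1, 0, fun x => ?_, ?_⟩
    · rw [one_mul, zero_mul, sub_zero]
      intro h0
      exact hy (some x) (if_pos h0)
    · rw [one_mul, zero_mul, sub_zero]
      intro h0
      exact hy none (if_pos h0)
  · refine ⟨w, 1, fun x h0 => ?_, fun h0 => ?_⟩
    · rw [one_mul, sub_eq_zero] at h0
      by_cases hB : B.eval x = 0
      · rw [hB, mul_zero] at h0
        exact hno x ⟨h0.symm, hB⟩
      · apply hy (some x)
        change (if B.eval x = 0 then none else some (A.eval x / B.eval x)) = some w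
        rw [if_neg hB, ← h0, mul_div_cancel_right₀ _ hB]
    · rw [one_mul, sub_eq_zero] at h0
      by_cases hb0 : b = 0
      · rw [hb0, mul_zero] at h0
        rcases hab with h1 | h1
        · exact h1 h0.symm
        · exact h1 hb0
      · apply hy none
        change (if b = 0 then none else some (a / b)) = some w
        rw [if_neg hb0, ← h0, mul_div_cancel_right₀ _ hb0]

end Pool.Agent.V7H60.GH
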