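import Pool.Agent.V7H60.GH.Form
import Pool.Agent.V7H60.GH.Util

set_option autoImplicit false
set_option linter.unusedSectionVars false

/-!
# Given rational functions modulo a suitable prime
-/

namespace Pool.Agent.V7H60.GH

open Polynomial Pool.Agent.TH838.DS Pool.Agent.H936R2 Pool.Agent.V7H60.GC

section

variable {k : ℕ} {d : Fin k → ℕ}

theorem pt_one {K : Type} [CommRing K] (v : Co k d → K) (i : Fin k) (u : K) (a : Fin 2) :
    pt (bs fun e => v ⟨i, e⟩) ![u, 1] a = (pf fun e => v ⟨i, (a, e)⟩).eval u := by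
  rw [← WP_eq, eval_WP]
  rfl

theorem pt_inf {K : Type} [CommRing K] (v : Co k d → K) (i : Fin k) (a : Fin 2) :
    pt (bs fun e => v ⟨i, e⟩) ![1, 0] a = v ⟨i, (a, Fin.last (d i))⟩ := by
  change MvPolynomial.eval ![1, 0] (bs (fun e => v ⟨i, e⟩) a) = _
  rw [bs, eval_bf, Finset.sum_eq_single (Fin.last (d i))]
  · simp
  · intro e _ he
    have h7 : (e : ℕ) ≠ d i := fun h => he (Fin.ext h)
    have h8 : d i - (e : ℕ) ≠ 0 := by omega
    simp [h8]
  · intro h
    exact absurd (Finset.mem_univ _) h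

/-- the forms have no common zeros -/
def NoZ (h : Co k d → ℤ) : Prop :=
  ∀ i (z : Fin 2 → ℂ), z ≠ 0 → pt (bs fun e => ((h ⟨i, e⟩ : ℤ) : ℂ)) z ≠ 0

variable {h : Co k d → ℤ}

theorem noz_top (hz : NoZ h) (i : Fin k) :
    h ⟨i, (0, Fin.last (d i))⟩ ≠ 0 ∨ h ⟨i, (1, Fin.last (d i))⟩ ≠ 0 := by
  by_contra hcon
  push Not at hcon
  apply hz i ![1, 0] (by
    intro h0
    have := congrFun h0 0
    simp at this)
  funext a
  have h1 := pt_inf (fun e => ((h e : ℤ) : ℂ)) i a
  refine h1.trans ?_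
  fin_cases a
  · simp [hcon.1]
  · simp [hcon.2]

theorem noz_coprime (hz : NoZ h) (i : Fin k) :
    IsCoprime ((pf fun e => h ⟨i, (0, e)⟩).map (algebraMap ℤ ℚ))
      ((pf fun e => h ⟨i, (1, e)⟩).map (algebraMap ℤ ℚ)) := by
  rw [isCoprime_iff_aeval_ne_zero_of_isAlgClosed ℚ ℂ]
  intro u
  by_contra hcon
  push Not at hcon
  apply hz i ![u, 1] (by
    intro h0
    have := congrFun h0 1
    simp at this)
  have hC : (algebraMap ℚ ℂ).comp (algebraMap ℤ ℚ) = Int.castRingHom ℂ := RingHom.ext_int _ _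
  have key : ∀ a, aeval u ((pf fun e => h ⟨i, (a, e)⟩).map (algebraMap ℤ ℚ)) =
      pt (bs fun e => ((h ⟨i, e⟩ : ℤ) : ℂ)) ![u, 1] a := by
    intro a
    rw [aeval_def, ← eval_map, Polynomial.map_map, hC, map_pf]
    exact (pt_one (fun e => ((h e : ℤ) : ℂ)) i u a).symm
  funext a
  rw [← key]
  fin_cases a
  · exact hcon.1
  · exact hcon.2

theorem pf_coeff_top {K : Type} [CommRing K] {n : ℕ} (c : Fin (n + 1) → K) :
    (pf c).coeff n = c (Fin.last n) := by
  unfold pf
  rw [finsetSum_coeff, Finset.sum_eq_single (Fin.last n)]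
  · rw [Fin.val_last, coeff_C_mul_X_pow, if_pos rfl]
  · intro e _ he
    rw [coeff_C_mul_X_pow, if_neg]
    intro h2
    exact he (Fin.ext h2.symm)
  · intro h2
    exact absurd (Finset.mem_univ _) h2

/-- the determinant of Wronski -/
noncomputable def Wr (h : Co k d → ℤ) (i : Fin k) : ℤ[X] :=
  derivative (pf fun e => h ⟨i, (0, e)⟩) * (pf fun e => h ⟨i, (1, e)⟩) -
    (pf fun e => h ⟨i, (0, e)⟩) * derivative (pf fun e => h ⟨i, (1, e)⟩)

theorem Wr_ne (hz : NoZ h) (i : Fin k) (hd : 1 ≤ d i) : Wr h i ≠ 0 := by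
  intro h0
  set F : ℚ[X] := (pf fun e => h ⟨i, (0, e)⟩).map (algebraMap ℤ ℚ) with hF
  set G : ℚ[X] := (pf fun e => h ⟨i, (1, e)⟩).map (algebraMap ℤ ℚ) with hG
  have hco : IsCoprime F G := noz_coprime hz i
  have h1 : derivative F * G = F * derivative G := by
    have h2 := congrArg (Polynomial.map (algebraMap ℤ ℚ)) h0
    unfold Wr at h2
    rw [Polynomial.map_sub, Polynomial.map_mul, Polynomial.map_mul, Polynomial.map_zero,
      ← derivative_map, ← derivative_map, sub_eq_zero] at h2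
    exact h2
  have key : ∀ F G : ℚ[X], IsCoprime F G → derivative F * G = F * derivative G →
      derivative F = 0 := by
    intro F G hco h1
    have h2 : F ∣ derivative F := hco.dvd_of_dvd_mul_right ⟨derivative G, h1⟩
    by_contra h3
    have h4 := natDegree_le_of_dvd h2 h3
    have h5 : F.natDegree ≠ 0 := by
      intro h5
      apply h3
      rw [eq_C_of_natDegree_eq_zero h5, derivative_C]
    have h6 := natDegree_derivative_lt h5
    omega
  have hF' := key F G hco h1
  have hG' := key G F hco.symm (by linear_combination -h1)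
  have h2 := derivative_eq_zero.1 hF'
  have h3 := derivative_eq_zero.1 hG'
  have h4 : F.coeff (d i) = 0 := coeff_eq_zero_of_natDegree_lt (by omega)
  have h5 : G.coeff (d i) = 0 := coeff_eq_zero_of_natDegree_lt (by omega)
  rw [hF, coeff_map, pf_coeff_top] at h4
  rw [hG, coeff_map, pf_coeff_top] at h5
  rcases noz_top hz i with h6 | h6
  · exact h6 (FaithfulSMul.algebraMap_injective ℤ ℚ (h4.trans (map_zero _).symm))
  · exact h6 (FaithfulSMul.algebraMap_injective ℤ ℚ (h5.trans (map_zero _).symm))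

theorem exists_eval_ne {f : ℤ[X]} (hf : f ≠ 0) : ∃ z : ℤ, f.eval z ≠ 0 := by
  by_contra hcon
  push Not at hcon
  apply hf
  apply Polynomial.funext
  intro r
  rw [hcon r, eval_zero]

/-- the conditions modulo `p` -/
structure TwOk (h : Co k d → ℤ) (r : Fin k → ℤ[X]) (p : ℕ) [Fact p.Prime] (s : ZMod p)
    (y0 y1 : Fin k → ZMod p) : Prop where
  rs : ∀ j, (redp p (r j)).Splits
  rsep : ∀ j, (redp p (r j)).Separable
  rl : ∀ j, (((r j).leadingCoeff : ℤ) : ZMod p) ≠ 0
  js : ∀ j, (JP (fun e => ((h e : ℤ) : ZMod p)) j).eval s ≠ 0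
  om : ∀ i x, y0 i * (pf fun e => ((h ⟨i, (1, e)⟩ : ℤ) : ZMod p)).eval x -
    y1 i * (pf fun e => ((h ⟨i, (0, e)⟩ : ℤ) : ZMod p)).eval x ≠ 0
  om' : ∀ i, y0 i * ((h ⟨i, (1, Fin.last (d i))⟩ : ℤ) : ZMod p) -
    y1 i * ((h ⟨i, (0, Fin.last (d i))⟩ : ℤ) : ZMod p) ≠ 0

theorem exists_tw (hd : ∀ i, 2 ≤ d i) (hz : NoZ h) (r : Fin k → ℤ[X]) (hr0 : ∀ j, r j ≠ 0)
    (hr : ∀ j, ((r j).map (algebraMap ℤ ℚ)).Separable) :
    ∃ (p : ℕ) (_ : Fact p.Prime) (s : ZMod p) (y0 y1 : Fin k → ZMod p), TwOk h r p s y0 y1 := by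
  classical
  have hd1 : ∀ i, 1 ≤ d i := fun i => by have := hd i; omega
  -- notation
  let A : Fin k → ℤ[X] := fun i => pf fun e => h ⟨i, (0, e)⟩
  let B : Fin k → ℤ[X] := fun i => pf fun e => h ⟨i, (1, e)⟩
  let ad : Fin k → ℤ := fun i => h ⟨i, (0, Fin.last (d i))⟩
  let bd : Fin k → ℤ := fun i => h ⟨i, (1, Fin.last (d i))⟩
  have hW : ∀ i, Wr h i ≠ 0 := fun i => Wr_ne hz i (hd1 i)
  have hE : ∀ i, C (ad i) * B i - C (bd i) * A i ≠ 0 := by
    intro i h0
    have h1 : C (ad i) * B i = C (bd i) * A i := sub_eq_zero.1 h0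
    have h2 := congrArg derivative h1
    rw [derivative_C_mul, derivative_C_mul] at h2
    have h3 : C (ad i) * Wr h i = 0 := by
      change C (ad i) * (derivative (A i) * B i - A i * derivative (B i)) = 0
      linear_combination derivative (A i) * h1 - A i * h2
    have h4 : C (bd i) * Wr h i = 0 := by
      change C (bd i) * (derivative (A i) * B i - A i * derivative (B i)) = 0
      linear_combination derivative (B i) * h1 - B i * h2
    rcases noz_top hz i with h5 | h5
    · exact mul_ne_zero (C_ne_zero.2 h5) (hW i) h3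
    · exact mul_ne_zero (C_ne_zero.2 h5) (hW i) h4
  choose z hz1 using fun i => exists_eval_ne (mul_ne_zero (hW i) (hE i))
  have hzW : ∀ i, (Wr h i).eval (z i) ≠ 0 := fun i h0 => hz1 i (by rw [eval_mul, h0, zero_mul])
  have hzE : ∀ i, (C (ad i) * B i - C (bd i) * A i).eval (z i) ≠ 0 :=
    fun i h0 => hz1 i (by rw [eval_mul, h0, mul_zero])
  let q : Fin k → ℤ[X] := fun i => C ((B i).eval (z i)) * A i - C ((A i).eval (z i)) * B i
  have hqtop : ∀ i, (q i).coeff (d i) = (C (ad i) * B i - C (bd i) * A i).eval (z i) := by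
    intro i
    simp only [q, A, B, coeff_sub, coeff_C_mul, pf_coeff_top, eval_sub, eval_mul, eval_C]
    ring
  have hq0 : ∀ i, q i ≠ 0 := by
    intro i h0
    apply hzE i
    rw [← hqtop, h0, coeff_zero]
  have hJ0 : (∏ i, Wr h i) ≠ 0 := Finset.prod_ne_zero_iff.2 fun i _ => hW i
  obtain ⟨s, hs⟩ := exists_eval_ne hJ0
  rw [eval_prod, Finset.prod_ne_zero_iff] at hs
  choose B1 hB1 using fun i => separable_large (hr i)
  choose B2 hB2 using fun i => coprime_large (noz_coprime hz i)
  obtain ⟨p, hp, hpB, hsp⟩ := exists_prime_split'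
    ((Finset.univ.image r) ∪ (Finset.univ.image q))
    (by
      intro f hf
      rw [Finset.mem_union, Finset.mem_image, Finset.mem_image] at hf
      rcases hf with ⟨i, -, rfl⟩ | ⟨i, -, rfl⟩
      · exact hr0 i
      · exact hq0 i)
    (∑ i, (B1 i + B2 i + d i + ((Wr h i).eval s).natAbs + ((Wr h i).eval (z i)).natAbs +
      ((C (ad i) * B i - C (bd i) * A i).eval (z i)).natAbs + (ad i).natAbs + (bd i).natAbs +
      (r i).leadingCoeff.natAbs))
  have hF : Fact p.Prime := ⟨hp⟩
  have hlt : ∀ i, B1 i + B2 i + d i + ((Wr h i).eval s).natAbs + ((Wr h i).eval (z i)).natAbs +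
      ((C (ad i) * B i - C (bd i) * A i).eval (z i)).natAbs + (ad i).natAbs + (bd i).natAbs +
      (r i).leadingCoeff.natAbs < p := by
    intro i
    refine lt_of_le_of_lt ?_ hpB
    exact Finset.single_le_sum (f := fun i => B1 i + B2 i + d i + ((Wr h i).eval s).natAbs +
      ((Wr h i).eval (z i)).natAbs + ((C (ad i) * B i - C (bd i) * A i).eval (z i)).natAbs +
      (ad i).natAbs + (bd i).natAbs + (r i).leadingCoeff.natAbs)
      (fun i _ => Nat.zero_le _) (Finset.mem_univ i)
  have hdne : ∀ i, ((d i : ℕ) : ZMod p) ≠ 0 := by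
    intro i h0
    rw [CharP.cast_eq_zero_iff (ZMod p) p] at h0
    have h1 := Nat.le_of_dvd (hd1 i) h0
    have h2 := hlt i
    omega
  have hJP : ∀ i, JP (fun e => ((h e : ℤ) : ZMod p)) i = C ((d i : ℕ) : ZMod p) * redp p (Wr h i) := by
    intro i
    rw [JP_eq]
    unfold Wr
    simp only [redp, Polynomial.map_sub, Polynomial.map_mul, ← derivative_map, map_pf]
    rfl
  have hev : ∀ (f : ℤ[X]) (m : ℤ), (redp p f).eval ((m : ℤ) : ZMod p) =
      ((f.eval m : ℤ) : ZMod p) := by
    intro f m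
    have := eval_intCast_map (Int.castRingHom (ZMod p)) f m
    exact this
  have hAp : ∀ i, redp p (A i) = pf fun e => ((h ⟨i, (0, e)⟩ : ℤ) : ZMod p) := fun i => map_pf _ _
  have hBp : ∀ i, redp p (B i) = pf fun e => ((h ⟨i, (1, e)⟩ : ℤ) : ZMod p) := fun i => map_pf _ _
  have hom : ∀ i, ∃ y0 y1 : ZMod p, (∀ x, y0 * (redp p (B i)).eval x -
      y1 * (redp p (A i)).eval x ≠ 0) ∧ y0 * ((bd i : ℤ) : ZMod p) - y1 * ((ad i : ℤ) : ZMod p) ≠ 0 := by
    intro i
    have h2 := hlt i
    -- a second root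
    have hqp : redp p (q i) = C (((B i).eval (z i) : ℤ) : ZMod p) * redp p (A i) -
        C (((A i).eval (z i) : ℤ) : ZMod p) * redp p (B i) := by
      simp only [q, redp, Polynomial.map_sub, Polynomial.map_mul, Polynomial.map_C]
      rfl
    have hqd : 2 ≤ (redp p (q i)).natDegree := by
      refine (hd i).trans (le_natDegree_of_ne_zero ?_)
      rw [redp, coeff_map, hqtop]
      exact int_ne hp (hzE i) (by omega)
    have hqz : (derivative (redp p (q i))).eval ((z i : ℤ) : ZMod p) ≠ 0 := by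
      have e1 : (derivative (redp p (q i))).eval ((z i : ℤ) : ZMod p) =
          (((Wr h i).eval (z i) : ℤ) : ZMod p) := by
        rw [redp, derivative_map, ← redp, hev]
        congr 1
        simp only [q, Wr, A, B, derivative_sub, derivative_C_mul, eval_sub, eval_mul, eval_C]
        ring
      rw [e1]
      exact int_ne hp (hzW i) (by omega)
    obtain ⟨u, hu, hqu⟩ := second_root (hsp _ (Finset.mem_union_right _
      (Finset.mem_image_of_mem _ (Finset.mem_univ i)))) hqd hqz
    rw [hqp, eval_sub, eval_mul, eval_mul, eval_C, eval_C, ← hev, ← hev] at hqu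
    refine exists_omit' (A := redp p (A i)) (B := redp p (B i)) (a := ((ad i : ℤ) : ZMod p))
      (b := ((bd i : ℤ) : ZMod p)) (hB2 i p hp (by omega)) ?_ hu ?_
    · rcases noz_top hz i with h5 | h5
      · exact Or.inl (int_ne hp h5 (by
          have : (ad i).natAbs < p := by omega
          exact this))
      · exact Or.inr (int_ne hp h5 (by
          have : (bd i).natAbs < p := by omega
          exact this))
    · linear_combination -hqu
  choose y0 y1 hy1 hy2 using hom
  refine ⟨p, hF, (s : ZMod p), y0, y1, ⟨?_, ?_, ?_, ?_, ?_, ?_⟩⟩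
  · intro j
    exact hsp _ (Finset.mem_union_left _ (Finset.mem_image_of_mem _ (Finset.mem_univ j)))
  · intro j
    exact hB1 j p hp (by have := hlt j; omega)
  · intro j
    exact int_ne hp (leadingCoeff_ne_zero.2 (hr0 j)) (by have := hlt j; omega)
  · intro j
    rw [hJP, eval_mul, eval_C, hev]
    exact mul_ne_zero (hdne j) (int_ne hp (hs j (Finset.mem_univ j)) (by have := hlt j; omega))
  · intro i x
    have h3 := hy1 i x
    rw [hAp, hBp] at h3
    exact h3
  · intro i
    exact hy2 i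

end

end Pool.Agent.V7H60.GH
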