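import Pool.Agent.V7H60.GH.Poly2
import Pool.Agent.V7H60.GH.TwRed

set_option autoImplicit false
set_option linter.unusedSectionVars false

/-!
# Polynomials outside of thin sets
-/

namespace Pool.Agent.V7H60.GH

open Polynomial Pool.Agent.V7H60.GC Pool.Agent.N455.HT

variable {k : ℕ}

/-- from the data to the thin set -/
theorem thin_of {ι : Type} [Finite ι] (A : Dat k (MvPolynomial ι ℤ))
    (hr : ∀ j, (A.r j).natDegree ≤ A.N j) (hr0 : ∀ j, A.r j ≠ 0)
    (h : (∃ (Ω : Type) (_ : Field Ω) (j : MvPolynomial ι ℤ →+* Ω) (τ : Ω ≃+* Ω),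
      Function.Injective j ∧ FM A.r (TQ A) j τ) ∧ (∀ q, TQ A q ≠ 0)) :
    ∃ (W : Finset (MvPolynomial ι ℤ)[X]) (Z : Finset (MvPolynomial ι ℤ)),
      (∀ p ∈ W, p.Monic ∧ 2 ≤ p.natDegree ∧ Irreducible p) ∧ (∀ z ∈ Z, z ≠ 0) ∧
      ∀ c : ι → ℤ, (∀ p ∈ W, ∀ a : ℤ, (p.map (ev c)).eval a ≠ 0) →
        (∀ z ∈ Z, ev c z ≠ 0) → ∃ σ : ℂ ≃+* ℂ, ∀ j (x : ℂ),
          ((A.r j).map (toC (ev c))).eval x = 0 → σ x = x ∧ ∀ y : ℂ, σ y = y → ∀ i,
            ((A.F i).map (toC (ev c))).eval y + toC (ev c) (A.l i) ≠ toC (ev c) (A.D i) * x := by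
  obtain ⟨⟨Ω, hΩ, j, τ, hj, hFM⟩, hQ⟩ := h
  obtain ⟨W, Z, hW, hZ, H⟩ := gal_spec A.r (TQ A) hr0 hQ j hj τ hFM
  refine ⟨W, Z, hW, hZ, fun c h1 h2 => ?_⟩
  obtain ⟨σ, hσ1, hσ2⟩ := H (ev c) h1 h2
  refine ⟨σ, fun j x hx => ⟨hσ1 j x hx, fun y hy i hyx => ?_⟩⟩
  apply hσ2 (i, j) y ?_ hy
  rw [map_TQ, eval_TQ]
  change hq (A.N j) ((A.r j).map (toC (ev c)))
    (((A.F i).map (toC (ev c))).eval y + toC (ev c) (A.l i)) (toC (ev c) (A.D i)) = 0
  rw [hyx]
  have h3 := hq_smul (A.N j) ((A.r j).map (toC (ev c))) (toC (ev c) (A.D i)) x 1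
  rw [mul_one] at h3
  rw [h3, hq_one (natDegree_map_le.trans (hr j)), hx, mul_zero]

/-! ### Translates of given polynomials -/

section lin

variable {n : ℕ}

/-- the linear form -/
noncomputable def lf {K : Type} [CommRing K] (a : Fin n → ℤ) (v : Fin n → K) : K :=
  ∑ m, ((a m : ℤ) : K) * v m

theorem map_lf {K S : Type} [CommRing K] [CommRing S] (φ : K →+* S) (a : Fin n → ℤ)
    (v : Fin n → K) : φ (lf a v) = lf a fun m => φ (v m) := by
  unfold lf
  rw [map_sum]
  refine Finset.sum_congr rfl fun m _ => ?_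
  rw [map_mul, map_intCast]

theorem exists_point (a : Fin k → Fin n → ℤ) (ha : ∀ i, a i ≠ 0) :
    ∃ v : Fin n → ℤ, ∀ i, lf (a i) v ≠ 0 := by
  classical
  let P : MvPolynomial (Fin n) ℤ := ∏ i, lf (a i) MvPolynomial.X
  have h1 : ∀ (i : Fin k) (v : Fin n → ℤ), MvPolynomial.eval v (lf (a i) MvPolynomial.X) =
      lf (a i) v := by
    intro i v
    rw [map_lf]
    congr 1
    funext m
    exact MvPolynomial.eval_X _
  have h2 : P ≠ 0 := by
    refine Finset.prod_ne_zero_iff.2 fun i _ h0 => ?_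
    obtain ⟨m, hm⟩ := Function.ne_iff.1 (ha i)
    apply hm
    have h3 := h1 i (Pi.single m 1)
    rw [h0, map_zero] at h3
    unfold lf at h3
    rw [Finset.sum_eq_single m (fun b _ hb => by rw [Pi.single_eq_of_ne hb, mul_zero])
      (fun h => absurd (Finset.mem_univ _) h), Pi.single_eq_same, mul_one] at h3
    exact h3.symm
  by_contra hcon
  push Not at hcon
  apply h2
  apply MvPolynomial.funext
  intro v
  obtain ⟨i, hi⟩ := hcon v
  rw [map_zero, map_prod]
  refine Finset.prod_eq_zero (Finset.mem_univ i) ?_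
  rw [h1, hi]

theorem core_lin (F r : Fin k → ℤ[X]) (hF : ∀ i, 2 ≤ (F i).natDegree) (D : Fin k → ℤ)
    (a : Fin k → Fin n → ℤ) (ha : ∀ i, a i ≠ 0)
    (hr0 : ∀ j, r j ≠ 0) (hr : ∀ j, ((r j).map (algebraMap ℤ ℚ)).Separable) :
    ∃ (W : Finset (MvPolynomial (Fin n) ℤ)[X]) (Z : Finset (MvPolynomial (Fin n) ℤ)),
      (∀ p ∈ W, p.Monic ∧ 2 ≤ p.natDegree ∧ Irreducible p) ∧ (∀ z ∈ Z, z ≠ 0) ∧
      ∀ c : Fin n → ℤ, (∀ p ∈ W, ∀ a : ℤ, (p.map (ev c)).eval a ≠ 0) →
        (∀ z ∈ Z, ev c z ≠ 0) → ∃ σ : ℂ ≃+* ℂ, ∀ j (x : ℂ),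
          ((r j).map (Int.castRingHom ℂ)).eval x = 0 → σ x = x ∧ ∀ y : ℂ, σ y = y → ∀ i,
            ((F i).map (Int.castRingHom ℂ)).eval y + ((lf (a i) c : ℤ) : ℂ) ≠
              ((D i : ℤ) : ℂ) * x := by
  classical
  let R := MvPolynomial (Fin n) ℤ
  let A : Dat k R := ⟨fun j => (r j).natDegree, fun i => (F i).natDegree,
    fun j => (r j).map (Int.castRingHom R), fun i => (F i).map (Int.castRingHom R),
    fun i => ((D i : ℤ) : R), fun i => lf (a i) MvPolynomial.X⟩
  have hF0 : ∀ i, F i ≠ 0 := by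
    intro i h0
    have := hF i
    rw [h0, natDegree_zero] at this
    omega
  obtain ⟨v, hv⟩ := exists_point a ha
  choose B1 hB1 using fun i => separable_large (hr i)
  obtain ⟨p, hp, hpB, hsp⟩ := exists_prime_split'
    (((Finset.univ.image r) ∪ (Finset.univ.image fun i => (X ^ (F i).natDegree - 1 : ℤ[X]))) ∪
      (Finset.univ.image fun i =>
        (C (F i).leadingCoeff * X ^ (F i).natDegree - C (lf (a i) v) : ℤ[X])))
    (by
      intro f hf
      rw [Finset.mem_union, Finset.mem_union, Finset.mem_image, Finset.mem_image,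
        Finset.mem_image] at hf
      rcases hf with (⟨i, -, rfl⟩ | ⟨i, -, rfl⟩) | ⟨i, -, rfl⟩
      · exact hr0 i
      · have h1 := hF i
        have h2 := X_pow_sub_C_ne_zero (R := ℤ) (n := (F i).natDegree) (by omega) 1
        rwa [C_1] at h2
      · intro h0
        have h1 := congrArg natDegree h0
        rw [natDegree_sub_C, natDegree_C_mul_X_pow _ _ (leadingCoeff_ne_zero.2 (hF0 i)),
          natDegree_zero] at h1
        have := hF i
        omega)
    (∑ i, (B1 i + (F i).natDegree + (F i).leadingCoeff.natAbs + (r i).leadingCoeff.natAbs +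
      (lf (a i) v).natAbs))
  have hFt : Fact p.Prime := ⟨hp⟩
  have hlt : ∀ i, B1 i + (F i).natDegree + (F i).leadingCoeff.natAbs +
      (r i).leadingCoeff.natAbs + (lf (a i) v).natAbs < p := by
    intro i
    refine lt_of_le_of_lt ?_ hpB
    exact Finset.single_le_sum (f := fun i => B1 i + (F i).natDegree +
      (F i).leadingCoeff.natAbs + (r i).leadingCoeff.natAbs + (lf (a i) v).natAbs)
      (fun i _ => Nat.zero_le _) (Finset.mem_univ i)
  have hdne : ∀ i, (((F i).natDegree : ℕ) : ZMod p) ≠ 0 := by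
    intro i h0
    rw [CharP.cast_eq_zero_iff (ZMod p) p] at h0
    have h1 := Nat.le_of_dvd (by have := hF i; omega) h0
    have h2 := hlt i
    omega
  have hFl : ∀ i, (((F i).leadingCoeff : ℤ) : ZMod p) ≠ 0 := fun i =>
    int_ne hp (leadingCoeff_ne_zero.2 (hF0 i)) (by have := hlt i; omega)
  have hrl : ∀ i, (((r i).leadingCoeff : ℤ) : ZMod p) ≠ 0 := fun i =>
    int_ne hp (leadingCoeff_ne_zero.2 (hr0 i)) (by have := hlt i; omega)
  have hvl : ∀ i, ((lf (a i) v : ℤ) : ZMod p) ≠ 0 := fun i =>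
    int_ne hp (hv i) (by have := hlt i; omega)
  obtain ⟨g, hg0, hg⟩ := exists_nonpower (p := p)
  let ρ : R →+* ZMod p := ev fun m => g * ((v m : ℤ) : ZMod p)
  have hρ : ∀ f : ℤ[X], (f.map (Int.castRingHom R)).map ρ = redp p f := by
    intro f
    rw [Polynomial.map_map]
    congr 1
    exact RingHom.ext_int _ _
  have hρc : ∀ (f : ℤ[X]) (n : ℕ), ρ ((f.map (Int.castRingHom R)).coeff n) =
      ((f.coeff n : ℤ) : ZMod p) := by
    intro f n
    rw [coeff_map]
    exact map_intCast ρ _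
  have hρl : ∀ i, ρ (A.l i) = g * ((lf (a i) v : ℤ) : ZMod p) := by
    intro i
    change ρ (lf (a i) MvPolynomial.X) = _
    rw [map_lf]
    have e1 : (fun m => ρ (MvPolynomial.X m)) = fun m => g * ((v m : ℤ) : ZMod p) := by
      funext m
      exact ev_X _ m
    rw [e1]
    unfold lf
    push_cast
    rw [Finset.mul_sum]
    refine Finset.sum_congr rfl fun m _ => ?_
    ring
  have hcore := core A hF (fun i => natDegree_map_le) (fun i => natDegree_map_le) ρ
    (fun j => by
      change ρ (((r j).map (Int.castRingHom R)).coeff (r j).natDegree) ≠ 0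
      rw [hρc]
      exact hrl j)
    (fun i => by
      change ρ (((F i).map (Int.castRingHom R)).coeff (F i).natDegree) ≠ 0
      rw [hρc]
      exact hFl i)
    (fun j => by
      change (((r j).map (Int.castRingHom R)).map ρ).Splits
      rw [hρ]
      exact hsp _ (Finset.mem_union_left _ (Finset.mem_union_left _
        (Finset.mem_image_of_mem _ (Finset.mem_univ j)))))
    (fun j => by
      change (((r j).map (Int.castRingHom R)).map ρ).Separable
      rw [hρ]
      exact hB1 j p hp (by have := hlt j; omega))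
    (fun i w => by
      rw [hρl]
      change ρ (((F i).map (Int.castRingHom R)).coeff (F i).natDegree) * w ^ (F i).natDegree -
        g * ((lf (a i) v : ℤ) : ZMod p) ≠ 0
      rw [hρc]
      intro h0
      -- a root of `lc X ^ d - l`
      have h1 := hsp _ (Finset.mem_union_right _ (Finset.mem_image_of_mem
        (fun i => (C (F i).leadingCoeff * X ^ (F i).natDegree - C (lf (a i) v) : ℤ[X]))
        (Finset.mem_univ i)))
      have h2 : redp p (C (F i).leadingCoeff * X ^ (F i).natDegree - C (lf (a i) v)) =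
          C (((F i).leadingCoeff : ℤ) : ZMod p) * X ^ (F i).natDegree -
            C ((lf (a i) v : ℤ) : ZMod p) := by
        simp [redp]
      rw [h2] at h1
      obtain ⟨u, hu⟩ := h1.exists_eval_eq_zero (by
        rw [degree_sub_C (by
          rw [degree_C_mul_X_pow _ (hFl i)]
          have := hF i
          exact_mod_cast (by omega : 0 < (F i).natDegree)), degree_C_mul_X_pow _ (hFl i)]
        have := hF i
        exact_mod_cast (by omega : (F i).natDegree ≠ 0))
      rw [eval_sub, eval_mul, eval_C, eval_pow, eval_X, eval_C, sub_eq_zero] at hu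
      have hu0 : u ≠ 0 := by
        rintro rfl
        rw [zero_pow (by have := hF i; omega), mul_zero] at hu
        exact hvl i hu.symm
      apply hg (F i).natDegree (hF i) (hdne i)
        (hsp _ (Finset.mem_union_left _ (Finset.mem_union_right _
          (Finset.mem_image_of_mem (fun i => (X ^ (F i).natDegree - 1 : ℤ[X]))
            (Finset.mem_univ i))))) (w / u)
      rw [← hu] at h0
      rw [div_pow, div_eq_iff (pow_ne_zero _ hu0)]
      have h3 : (((F i).leadingCoeff : ℤ) : ZMod p) *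
          (w ^ (F i).natDegree - g * u ^ (F i).natDegree) = 0 := by
        rw [← h0]
        unfold leadingCoeff
        ring
      exact sub_eq_zero.1 ((mul_eq_zero.1 h3).resolve_left (hFl i)))
    (fun _ => True)
    (by
      intro Ω _ j j' u hu h
      refine ⟨fun i => ?_, fun i => ?_, fun i => ?_, fun i => ?_⟩
      · change ((r i).map (Int.castRingHom R)).map j = ((r i).map (Int.castRingHom R)).map j'
        rw [Polynomial.map_map, Polynomial.map_map]
        congr 1
        exact RingHom.ext_int _ _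
      · change ((F i).map (Int.castRingHom R)).map j = ((F i).map (Int.castRingHom R)).map j'
        rw [Polynomial.map_map, Polynomial.map_map]
        congr 1
        exact RingHom.ext_int _ _
      · change j ((D i : ℤ) : R) = j' ((D i : ℤ) : R)
        rw [map_intCast, map_intCast]
      · change j (lf (a i) MvPolynomial.X) = -(j' (lf (a i) MvPolynomial.X)) / u
        rw [map_lf, map_lf]
        unfold lf
        rw [← Finset.sum_neg_distrib, Finset.sum_div]
        refine Finset.sum_congr rfl fun m _ => ?_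
        change ((a i m : ℤ) : Ω) * j (MvPolynomial.X m) =
          -(((a i m : ℤ) : Ω) * j' (MvPolynomial.X m)) / u
        rw [h m, if_pos trivial]
        ring)
  have hAr0 : ∀ j, A.r j ≠ 0 := fun j =>
    (Polynomial.map_ne_zero_iff (Int.castRingHom R).injective_int).2 (hr0 j)
  obtain ⟨W, Z, hW, hZ, H⟩ := thin_of A (fun i => natDegree_map_le) hAr0 hcore
  refine ⟨W, Z, hW, hZ, fun c h1 h2 => ?_⟩
  obtain ⟨σ, hσ⟩ := H c h1 h2
  have hm : ∀ f : ℤ[X], (f.map (Int.castRingHom R)).map (toC (ev c)) =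
      f.map (Int.castRingHom ℂ) := by
    intro f
    rw [Polynomial.map_map]
    congr 1
    exact RingHom.ext_int _ _
  have hl : ∀ i, toC (ev c) (A.l i) = ((lf (a i) c : ℤ) : ℂ) := by
    intro i
    change ((ev c (lf (a i) MvPolynomial.X) : ℤ) : ℂ) = _
    rw [map_lf]
    congr 2
    funext m
    exact ev_X _ m
  refine ⟨σ, fun j x hx => ?_⟩
  obtain ⟨h3, h4⟩ := hσ j x (by
    change (((r j).map (Int.castRingHom R)).map (toC (ev c))).eval x = 0
    rw [hm]
    exact hx)
  refine ⟨h3, fun y hy i => ?_⟩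
  have h5 := h4 y hy i
  rw [hl] at h5
  change (((F i).map (Int.castRingHom R)).map (toC (ev c))).eval y + _ ≠
    toC (ev c) ((D i : ℤ) : R) * x at h5
  rw [hm, map_intCast] at h5
  exact h5

/-- **Translates of arbitrary polynomials.** -/
theorem thin_lin (f : Fin k → ℚ[X]) (hf : ∀ i, 2 ≤ (f i).natDegree) (lam : Fin k → Fin n → ℚ)
    (hlam : ∀ i, lam i ≠ 0) :
    ∃ (W : Finset (MvPolynomial (Fin n) ℤ)[X]) (Z : Finset (MvPolynomial (Fin n) ℤ)),
      (∀ p ∈ W, p.Monic ∧ 2 ≤ p.natDegree ∧ Irreducible p) ∧ (∀ z ∈ Z, z ≠ 0) ∧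
      ∀ c : Fin n → ℤ, (∀ p ∈ W, ∀ a : ℤ, (p.map (ev c)).eval a ≠ 0) →
        (∀ z ∈ Z, ev c z ≠ 0) → ∃ σ : ℂ ≃+* ℂ, ∀ j (x : ℂ), aeval x (derivative (f j)) = 0 →
          σ x = x ∧ ∀ y : ℂ, σ y = y → ∀ i,
            aeval y (f i) + ((∑ m, lam i m * (c m : ℚ) : ℚ) : ℂ) ≠ x := by
  classical
  choose D' hD' hDF using fun i =>
    IsLocalization.integerNormalization_spec (nonZeroDivisors ℤ) (f i)
  choose E hE using fun i =>
    IsLocalization.exist_integer_multiples_of_finite (nonZeroDivisors ℤ) (lam i)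
  choose a' ha' using hE
  let F' : Fin k → ℤ[X] := fun i => IsLocalization.integerNormalization (nonZeroDivisors ℤ) (f i)
  have hD0' : ∀ i, D' i ≠ 0 := fun i => nonZeroDivisors.ne_zero (hD' i)
  have hE0 : ∀ i, ((E i : ℤ)) ≠ 0 := fun i => nonZeroDivisors.ne_zero (E i).2
  let D : Fin k → ℤ := fun i => D' i * (E i : ℤ)
  have hD0 : ∀ i, D i ≠ 0 := fun i => mul_ne_zero (hD0' i) (hE0 i)
  let F : Fin k → ℤ[X] := fun i => C (E i : ℤ) * F' i
  let a : Fin k → Fin n → ℤ := fun i m => D' i * a' i m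
  have haQ : ∀ i m, ((a i m : ℤ) : ℚ) = ((D i : ℤ) : ℚ) * lam i m := by
    intro i m
    have h1 := ha' i m
    rw [eq_intCast, zsmul_eq_mul] at h1
    simp only [a, D]
    push_cast
    rw [h1]
    ring
  have ha0 : ∀ i, a i ≠ 0 := by
    intro i h0
    apply hlam i
    funext m
    have h1 := haQ i m
    rw [h0] at h1
    have h2 : ((D i : ℤ) : ℚ) ≠ 0 := Int.cast_ne_zero.2 (hD0 i)
    rw [Pi.zero_apply, Int.cast_zero] at h1
    exact (mul_eq_zero.1 h1.symm).resolve_left h2
  have hDQ : ∀ i, (algebraMap ℤ ℚ (D i)) ≠ 0 := fun i h =>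
    hD0 i (FaithfulSMul.algebraMap_injective ℤ ℚ (by rw [h, map_zero]))
  have hFf : ∀ i, (F i).map (algebraMap ℤ ℚ) = C (algebraMap ℤ ℚ (D i)) * f i := by
    intro i
    simp only [F, D]
    rw [Polynomial.map_mul, Polynomial.map_C, hDF i, ← algebraMap_smul ℚ (D' i) (f i),
      smul_eq_C_mul, map_mul, C_mul]
    ring
  have hFd : ∀ i, 2 ≤ (F i).natDegree := by
    intro i
    rw [← natDegree_map_eq_of_injective (FaithfulSMul.algebraMap_injective ℤ ℚ) (F i), hFf,
      natDegree_C_mul (hDQ i)]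
    exact hf i
  have hF' : ∀ i, derivative (F i) ≠ 0 := by
    intro i h0
    have h1 := derivative_eq_zero.1 h0
    have := hFd i
    omega
  choose r hr0 hr hrC using fun i => exists_sep (hF' i)
  obtain ⟨W, Z, hW, hZ, H⟩ := core_lin F r hFd D a ha0 hr0 hr
  refine ⟨W, Z, hW, hZ, fun c h1 h2 => ?_⟩
  obtain ⟨σ, hσ⟩ := H c h1 h2
  have hC : (algebraMap ℚ ℂ).comp (algebraMap ℤ ℚ) = Int.castRingHom ℂ := RingHom.ext_int _ _
  have hFC : ∀ i, (F i).map (Int.castRingHom ℂ) = C ((D i : ℤ) : ℂ) * (f i).map (algebraMap ℚ ℂ) := by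
    intro i
    rw [← hC, ← Polynomial.map_map, hFf, Polynomial.map_mul, Polynomial.map_C]
    congr 2
  refine ⟨σ, fun j x hx => ?_⟩
  obtain ⟨h3, h4⟩ := hσ j x (by
    apply hrC j x
    rw [← derivative_map, hFC, derivative_C_mul, eval_mul, derivative_map, eval_map_algebraMap, hx,
      mul_zero])
  refine ⟨h3, fun y hy i hyx => h4 y hy i ?_⟩
  have h5 : ((lf (a i) c : ℤ) : ℂ) = ((D i : ℤ) : ℂ) * ((∑ m, lam i m * (c m : ℚ) : ℚ) : ℂ) := by
    have h6 : ((lf (a i) c : ℤ) : ℚ) = ((D i : ℤ) : ℚ) * (∑ m, lam i m * (c m : ℚ)) := by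
      unfold lf
      push_cast
      rw [Finset.mul_sum]
      refine Finset.sum_congr rfl fun m _ => ?_
      rw [haQ]
      ring
    exact_mod_cast congrArg (fun t : ℚ => (t : ℂ)) h6
  rw [h5, hFC, eval_mul, eval_C, eval_map_algebraMap, ← hyx]
  ring

end lin

end Pool.Agent.V7H60.GH
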