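import Pool.Agent.V7H60.GH.Spec2

set_option autoImplicit false
set_option linter.unusedSectionVars false

/-!
# Specialisation of Galois groups: fixed and moved roots
-/

namespace Pool.Agent.V7H60.GH

open Polynomial

section

variable {R K L : Type} [CommRing R] [IsDomain R] [IsIntegrallyClosed R] [Field K] [Algebra R K]
  [IsFractionRing R K] [Field L] [Algebra K L] [Algebra R L] [IsScalarTower R K L]
  [FiniteDimensional K L] [IsGalois K L]

open Classical in
/-- the integral multiple of a root -/
noncomputable def bet (p : R[X]) (r : L) : integralClosure R L :=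
  if h : IsIntegral R (p.leadingCoeff • r) then ⟨p.leadingCoeff • r, h⟩ else 0

omit [IsDomain R] [IsIntegrallyClosed R] in
theorem bet_coe {p : R[X]} {r : L} (h : aeval r p = 0) :
    ((bet p r : integralClosure R L) : L) = p.leadingCoeff • r := by
  unfold bet
  rw [dif_pos (isIntegral_leadingCoeff_smul p r h)]

open Classical in
/-- the integral multiples of the roots -/
noncomputable def rts (L : Type) [Field L] [Algebra R L] (p : R[X]) :
    Finset (integralClosure R L) :=
  (p.map (algebraMap R L)).roots.toFinset.image (bet p)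

omit [IsDomain R] [IsIntegrallyClosed R] in
theorem mem_rts {p : R[X]} {b : integralClosure R L} (h : b ∈ rts L p) :
    ∃ r : L, aeval r p = 0 ∧ (b : L) = p.leadingCoeff • r := by
  classical
  obtain ⟨r, hr, rfl⟩ := Finset.mem_image.1 h
  rw [Multiset.mem_toFinset] at hr
  have h1 : aeval r p = 0 := by
    have h2 := (mem_roots'.1 hr).2
    rw [IsRoot.def, eval_map_algebraMap] at h2
    exact h2
  exact ⟨r, h1, bet_coe h1⟩

theorem bet_prod (hinj : Function.Injective (algebraMap R L)) {p : R[X]}
    (hs : (p.map (algebraMap R L)).Splits) :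
    C (algebraMap R (integralClosure R L) p.leadingCoeff) *
      ((p.map (algebraMap R L)).roots.map fun r =>
        C (algebraMap R (integralClosure R L) p.leadingCoeff) * X - C (bet p r)).prod =
      C (algebraMap R (integralClosure R L) p.leadingCoeff) ^
        (Multiset.card (p.map (algebraMap R L)).roots) *
        p.map (algebraMap R (integralClosure R L)) := by
  have hinjL : Function.Injective (algebraMap (integralClosure R L) L) :=
    FaithfulSMul.algebraMap_injective _ _
  apply Polynomial.map_injective _ hinjL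
  have hc : ∀ a : R, algebraMap (integralClosure R L) L (algebraMap R (integralClosure R L) a) =
      algebraMap R L a := fun a => rfl
  have hcomp : (algebraMap (integralClosure R L) L).comp (algebraMap R (integralClosure R L)) =
      algebraMap R L := rfl
  rw [Polynomial.map_mul, Polynomial.map_mul, Polynomial.map_pow, Polynomial.map_C,
    Polynomial.map_multiset_prod, Multiset.map_map, hc, Polynomial.map_map, hcomp]
  have h1 : ((p.map (algebraMap R L)).roots.map ((Polynomial.map (algebraMap (integralClosure R L) L)) ∘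
      fun r => C (algebraMap R (integralClosure R L) p.leadingCoeff) * X - C (bet p r))) =
      (p.map (algebraMap R L)).roots.map fun r =>
        C (algebraMap R L p.leadingCoeff) * (X - C r) := by
    refine Multiset.map_congr rfl fun r hr => ?_
    have h2 : aeval r p = 0 := by
      have h2 := (mem_roots'.1 hr).2
      rw [IsRoot.def, eval_map_algebraMap] at h2
      exact h2
    have h3 := bet_coe h2
    rw [Function.comp_apply, Polynomial.map_sub, Polynomial.map_mul, Polynomial.map_C,
      Polynomial.map_X, Polynomial.map_C, hc]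
    have h4 : algebraMap (integralClosure R L) L (bet p r) = algebraMap R L p.leadingCoeff * r := by
      rw [← Algebra.smul_def]
      exact h3
    rw [h4, C_mul]
    ring
  rw [h1, Multiset.prod_map_mul, Multiset.map_const', Multiset.prod_replicate]
  have h2 := hs.eq_prod_roots
  rw [leadingCoeff_map_of_injective hinj] at h2
  linear_combination (-(C (algebraMap R L p.leadingCoeff) ^
    (Multiset.card (p.map (algebraMap R L)).roots))) * h2

theorem root_lift (hinj : Function.Injective (algebraMap R L)) {p : R[X]}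
    (hs : (p.map (algebraMap R L)).Splits) {χ : R →+* ℤ} (hχ : χ p.leadingCoeff ≠ 0)
    {φ : integralClosure R L →+* ℂ}
    (hφ : ∀ r, φ (algebraMap R (integralClosure R L) r) = toC χ r) {z : ℂ}
    (hz : (p.map (toC χ)).eval z = 0) :
    ∃ b ∈ rts L p, ((χ p.leadingCoeff : ℤ) : ℂ) * z = φ b := by
  classical
  have h1 := congrArg (fun q => (q.map φ).eval z) (bet_prod hinj hs)
  have hcomp : φ.comp (algebraMap R (integralClosure R L)) = toC χ := by
    ext r
    exact hφ r
  simp only [Polynomial.map_mul, Polynomial.map_pow, Polynomial.map_C, Polynomial.map_map, hcomp,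
    eval_mul, hz, mul_zero, eval_C, hφ, Polynomial.map_multiset_prod, Multiset.map_map] at h1
  have hℓ : toC χ p.leadingCoeff ≠ 0 := Int.cast_ne_zero.2 hχ
  have h2 := (mul_eq_zero.1 h1).resolve_left hℓ
  rw [eval_multiset_prod, Multiset.map_map, Multiset.prod_eq_zero_iff, Multiset.mem_map] at h2
  obtain ⟨r, hr, h3⟩ := h2
  refine ⟨bet p r, Finset.mem_image_of_mem _ (Multiset.mem_toFinset.2 hr), ?_⟩
  simp only [Function.comp_apply, Polynomial.map_sub, Polynomial.map_mul, Polynomial.map_C,
    Polynomial.map_X, eval_sub, eval_mul, eval_C, eval_X, hφ] at h3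
  exact sub_eq_zero.1 h3

theorem gal_spec_L {κ κ' : Type} [Fintype κ] [Fintype κ'] (P : κ → R[X]) (Q : κ' → R[X])
    (hP : ∀ k, P k ≠ 0) (hQ : ∀ k, Q k ≠ 0)
    (hPs : ∀ k, ((P k).map (algebraMap R L)).Splits)
    (hQs : ∀ k, ((Q k).map (algebraMap R L)).Splits) (g : L ≃ₐ[K] L)
    (hPg : ∀ k (r : L), aeval r (P k) = 0 → g r = r)
    (hQg : ∀ k (r : L), aeval r (Q k) = 0 → g r ≠ r) :
    ∃ (W : Finset R[X]) (Z : Finset R), (∀ p ∈ W, p.Monic ∧ 2 ≤ p.natDegree ∧ Irreducible p) ∧
      (∀ z ∈ Z, z ≠ 0) ∧
      ∀ χ : R →+* ℤ, (∀ p ∈ W, ∀ a : ℤ, (p.map χ).eval a ≠ 0) → (∀ z ∈ Z, χ z ≠ 0) →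
      ∃ σ : ℂ ≃+* ℂ, (∀ k (z : ℂ), ((P k).map (toC χ)).eval z = 0 → σ z = z) ∧
        ∀ k (z : ℂ), ((Q k).map (toC χ)).eval z = 0 → σ z ≠ z := by
  classical
  have hinj := inj_RL R K L
  have hinjA := inj_RA hinj
  have hinjL : Function.Injective (algebraMap (integralClosure R L) L) :=
    FaithfulSMul.algebraMap_injective _ _
  have hAint : Algebra.IsIntegral R (integralClosure R L) := inferInstance
  obtain ⟨W, Z, hW, hZ, h1⟩ := conj g ((Finset.univ.biUnion fun k => rts L (P k)) ∪
    (Finset.univ.biUnion fun k => rts L (Q k)))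
  have h2 : ∀ b : integralClosure R L, ∃ z : R, z ≠ 0 ∧ (act g b ≠ b → ∀ χ : R →+* ℤ, χ z ≠ 0 →
      ∀ φ : integralClosure R L →+* ℂ,
        (∀ r, φ (algebraMap R (integralClosure R L) r) = toC χ r) → φ (act g b) ≠ φ b) := by
    intro b
    by_cases hb : act g b = b
    · exact ⟨1, one_ne_zero, fun h => absurd hb h⟩
    · obtain ⟨z, hz, h3⟩ := exists_ne (R := R) (L := L) (sub_ne_zero.2 hb)
      refine ⟨z, hz, fun _ χ hχ φ hφ h => ?_⟩
      apply h3 χ hχ φ hφ
      rw [map_sub, h, sub_self]
  choose zz hzz0 hzz using h2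
  refine ⟨W, Z ∪ (Finset.univ.image fun k => (P k).leadingCoeff) ∪
    (Finset.univ.image fun k => (Q k).leadingCoeff) ∪
    ((Finset.univ.biUnion fun k => rts L (Q k)).image zz), hW, ?_, ?_⟩
  · intro z hz
    simp only [Finset.mem_union, Finset.mem_image] at hz
    rcases hz with ((hz | ⟨k, -, rfl⟩) | ⟨k, -, rfl⟩) | ⟨b, -, rfl⟩
    · exact hZ z hz
    · exact leadingCoeff_ne_zero.2 (hP k)
    · exact leadingCoeff_ne_zero.2 (hQ k)
    · exact hzz0 b
  · intro χ hχ hχZ
    obtain ⟨φ, hφ⟩ := exists_phi hinjA (toC χ)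
    obtain ⟨σ, hσ⟩ := h1 χ hχ (fun z hz => hχZ z (by simp only [Finset.mem_union]; tauto)) φ hφ
    refine ⟨σ, fun k z hz => ?_, fun k z hz hσz => ?_⟩
    · have hl : χ (P k).leadingCoeff ≠ 0 := hχZ _ (by
        simp only [Finset.mem_union, Finset.mem_image]
        exact Or.inl (Or.inl (Or.inr ⟨k, Finset.mem_univ _, rfl⟩)))
      obtain ⟨b, hb, h3⟩ := root_lift hinj (hPs k) hl hφ hz
      obtain ⟨r, hr, hbr⟩ := mem_rts hb
      have h4 : act g b = b := by
        apply hinjL
        rw [alg_act, hbr]
        change g _ = (b : L)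
        rw [hbr, Algebra.smul_def, map_mul, hPg k r hr]
        congr 1
        rw [IsScalarTower.algebraMap_apply R K L, AlgEquiv.commutes]
      have h5 := hσ b (Finset.mem_union_left _ (Finset.mem_biUnion.2 ⟨k, Finset.mem_univ _, hb⟩))
      rw [h4, ← h3, map_mul, map_intCast] at h5
      exact mul_left_cancel₀ (Int.cast_ne_zero.2 hl) h5
    · have hl : χ (Q k).leadingCoeff ≠ 0 := hχZ _ (by
        simp only [Finset.mem_union, Finset.mem_image]
        exact Or.inl (Or.inr ⟨k, Finset.mem_univ _, rfl⟩))
      obtain ⟨b, hb, h3⟩ := root_lift hinj (hQs k) hl hφ hz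
      obtain ⟨r, hr, hbr⟩ := mem_rts hb
      have h4 : act g b ≠ b := by
        intro h4
        apply hQg k r hr
        have h5 := congrArg (algebraMap (integralClosure R L) L) h4
        rw [alg_act] at h5
        change g (b : L) = (b : L) at h5
        rw [hbr, Algebra.smul_def, map_mul, IsScalarTower.algebraMap_apply R K L,
          AlgEquiv.commutes] at h5
        refine mul_left_cancel₀ ?_ h5
        rw [← IsScalarTower.algebraMap_apply R K L]
        intro h6
        exact leadingCoeff_ne_zero.2 (hQ k) (hinj (h6.trans (map_zero _).symm))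
      have h5 := hσ b (Finset.mem_union_right _ (Finset.mem_biUnion.2 ⟨k, Finset.mem_univ _, hb⟩))
      have h6 := hzz b h4 χ (hχZ _ (by
        simp only [Finset.mem_union, Finset.mem_image]
        exact Or.inr ⟨b, Finset.mem_biUnion.2 ⟨k, Finset.mem_univ _, hb⟩, rfl⟩)) φ hφ
      apply h6
      rw [← h5, ← h3, map_mul, map_intCast, hσz]

end

end Pool.Agent.V7H60.GH
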