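import Pool.Agent.V7H60.GH.Base

set_option autoImplicit false
set_option linter.unusedSectionVars false

/-!
# Specialisation of Galois groups
-/

namespace Pool.Agent.V7H60.GH

open Polynomial

theorem inj_RL (R K L : Type) [CommRing R] [Field K] [Algebra R K] [IsFractionRing R K] [Field L]
    [Algebra K L] [Algebra R L] [IsScalarTower R K L] : Function.Injective (algebraMap R L) := by
  rw [IsScalarTower.algebraMap_eq R K L]
  exact (algebraMap K L).injective.comp (IsFractionRing.injective R K)

theorem inj_RA {R L : Type} [CommRing R] [Field L] [Algebra R L]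
    (h : Function.Injective (algebraMap R L)) :
    Function.Injective (algebraMap R (integralClosure R L)) := by
  intro a b hab
  apply h
  have := congrArg (algebraMap (integralClosure R L) L) hab
  exact this

section

variable {R K L : Type} [CommRing R] [IsDomain R] [IsIntegrallyClosed R] [Field K] [Algebra R K]
  [IsFractionRing R K] [Field L] [Algebra K L] [Algebra R L] [IsScalarTower R K L]
  [FiniteDimensional K L] [IsGalois K L]

/-- the action on the integral closure -/
noncomputable def act (g : L ≃ₐ[K] L) : integralClosure R L ≃ₐ[R] integralClosure R L :=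
  galRestrict R K L (integralClosure R L) g

theorem coe_act (g : L ≃ₐ[K] L) (a : integralClosure R L) :
    ((act g a : integralClosure R L) : L) = g (a : L) :=
  algebraMap_galRestrict_apply R g a

theorem alg_act (g : L ≃ₐ[K] L) (a : integralClosure R L) :
    algebraMap (integralClosure R L) L (act g a) = g (a : L) :=
  algebraMap_galRestrict_apply R g a

variable (R K L) in
theorem exists_theta : ∃ θ : integralClosure R L, IntermediateField.adjoin K {(θ : L)} = ⊤ := by
  obtain ⟨α, hα⟩ := Field.exists_primitive_element K L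
  have halg : IsAlgebraic R α :=
    (IsFractionRing.isAlgebraic_iff R K L).2 (Algebra.IsAlgebraic.isAlgebraic α)
  obtain ⟨y, hy, hint⟩ := IsAlgebraic.exists_integral_multiple halg
  refine ⟨⟨y • α, hint⟩, ?_⟩
  rw [eq_top_iff, ← hα, IntermediateField.adjoin_simple_le_iff]
  have hyK : algebraMap R K y ≠ 0 := fun h => hy ((FaithfulSMul.algebraMap_injective R K) (by
    rw [h, map_zero]))
  have h1 : α = (algebraMap R K y)⁻¹ • (y • α) := by
    rw [← algebraMap_smul K y α, inv_smul_smul₀ hyK]
  have h2 : (algebraMap R K y)⁻¹ • (y • α) ∈ IntermediateField.adjoin K {y • α} :=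
    IntermediateField.smul_mem _ (IntermediateField.mem_adjoin_simple_self K _)
  rwa [← h1] at h2

omit [IsDomain R] [IsIntegrallyClosed R] [IsFractionRing R K] [IsScalarTower R K L]
  [Algebra R K] [Algebra R L] [IsGalois K L] [CommRing R] in
theorem exists_aeval {θ : L} (hθ : IntermediateField.adjoin K {θ} = ⊤) (a : L) :
    ∃ T : K[X], a = aeval θ T := by
  have h1 : a ∈ (IntermediateField.adjoin K {θ}).toSubalgebra := by
    rw [hθ]
    exact IntermediateField.mem_top
  rw [IntermediateField.adjoin_simple_toSubalgebra_of_isAlgebraic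
    (Algebra.IsAlgebraic.isAlgebraic θ), Algebra.adjoin_singleton_eq_range_aeval] at h1
  obtain ⟨T, hT⟩ := h1
  exact ⟨T, hT.symm⟩

theorem exists_T {θ : integralClosure R L} (hθ : IntermediateField.adjoin K {(θ : L)} = ⊤)
    (a : integralClosure R L) : ∃ s : R, s ≠ 0 ∧ ∃ T : R[X], s • a = aeval θ T := by
  obtain ⟨T', hT'⟩ := exists_aeval hθ (a : L)
  obtain ⟨b, hb0, hb⟩ := IsLocalization.integerNormalization_spec (nonZeroDivisors R) T'
  refine ⟨b, nonZeroDivisors.ne_zero hb0,
    IsLocalization.integerNormalization (nonZeroDivisors R) T', ?_⟩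
  apply Subtype.ext
  change b • (a : L) = algebraMap (integralClosure R L) L
    (aeval θ (IsLocalization.integerNormalization (nonZeroDivisors R) T'))
  rw [← aeval_algebraMap_apply]
  change b • (a : L) = aeval (θ : L) _
  rw [← aeval_map_algebraMap K, hb, hT']
  exact (LinearMap.map_smul_of_tower (aeval (θ : L)).toLinearMap b T').symm

theorem card_le {θ : L} (hθ : IntermediateField.adjoin K {θ} = ⊤) {g : L ≃ₐ[K] L} {q : K[X]}
    (hq : q ≠ 0) (h : aeval (g θ) q = 0) : Fintype.card (L ≃ₐ[K] L) ≤ q.natDegree := by
  have h1 : aeval θ q = 0 := by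
    apply g.injective
    rw [map_zero, ← h, ← AlgEquiv.coe_toAlgHom, ← aeval_algHom_apply]
  have h2 : (minpoly K θ).natDegree ≤ q.natDegree := natDegree_le_of_dvd (minpoly.dvd K θ h1) hq
  rw [← Nat.card_eq_fintype_card, IsGalois.card_aut_eq_finrank]
  refine le_trans (le_of_eq ?_) h2
  rw [← IntermediateField.adjoin.finrank (Algebra.IsIntegral.isIntegral θ), hθ,
    IntermediateField.finrank_top']

/-- the product of the linear factors of a set of conjugates -/
noncomputable def prodI (θ : integralClosure R L) (I : Finset (L ≃ₐ[K] L)) :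
    (integralClosure R L)[X] := ∏ g ∈ I, (X - C (act g θ))

theorem prodI_monic (θ : integralClosure R L) (I : Finset (L ≃ₐ[K] L)) : (prodI θ I).Monic :=
  monic_prod_of_monic _ _ fun g _ => monic_X_sub_C _

theorem prodI_natDegree (θ : integralClosure R L) (I : Finset (L ≃ₐ[K] L)) :
    (prodI θ I).natDegree = I.card := by
  unfold prodI
  rw [natDegree_prod_of_monic _ _ fun g _ => monic_X_sub_C _]
  simp

theorem prodI_map (θ : integralClosure R L) (I : Finset (L ≃ₐ[K] L)) :
    (prodI θ I).map (algebraMap (integralClosure R L) L) =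
      ∏ g ∈ I, (X - C (g (θ : L))) := by
  unfold prodI
  rw [Polynomial.map_prod]
  refine Finset.prod_congr rfl fun g _ => ?_
  rw [Polynomial.map_sub, Polynomial.map_X, Polynomial.map_C, alg_act]

/-- proper subproducts are not rational -/
theorem exists_coeff {θ : integralClosure R L} (hθ : IntermediateField.adjoin K {(θ : L)} = ⊤)
    {I : Finset (L ≃ₐ[K] L)} (hI : I.Nonempty) (hI' : I ≠ Finset.univ) :
    ∃ w : integralClosure R L, w ∉ (algebraMap R (integralClosure R L)).range ∧
      ∃ k, (prodI θ I).coeff k = w := by
  by_contra hcon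
  push Not at hcon
  have h1 : ∀ k, (prodI θ I).coeff k ∈ (algebraMap R (integralClosure R L)).range := by
    intro k
    by_contra h
    exact hcon _ h k rfl
  obtain ⟨m, hm⟩ := (mem_lifts _).1 ((lifts_iff_coeffs_subset_range
    (f := algebraMap R (integralClosure R L)) (prodI θ I)).2 (by
    intro c hc
    obtain ⟨k, -, rfl⟩ := mem_coeffs_iff.1 hc
    obtain ⟨r, hr⟩ := h1 k
    exact ⟨r, hr⟩))
  obtain ⟨g, hg⟩ := hI
  have hinj : Function.Injective (algebraMap R (integralClosure R L)) :=
    inj_RA (inj_RL R K L)
  have h2 : m.natDegree = I.card := by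
    rw [← prodI_natDegree θ I, ← hm, natDegree_map_eq_of_injective hinj]
  have h3 : m ≠ 0 := by
    rintro rfl
    rw [Polynomial.map_zero] at hm
    exact (prodI_monic θ I).ne_zero hm.symm
  have h4 : m.map (algebraMap R K) ≠ 0 :=
    (Polynomial.map_ne_zero_iff (FaithfulSMul.algebraMap_injective R K)).2 h3
  have h5 : aeval (g (θ : L)) (m.map (algebraMap R K)) = 0 := by
    rw [aeval_map_algebraMap]
    have h6 : aeval (act g θ) m = 0 := by
      rw [aeval_def, ← eval_map, hm]
      unfold prodI
      rw [eval_prod]
      exact Finset.prod_eq_zero hg (by rw [eval_sub, eval_X, eval_C, sub_self])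
    have h7 := congrArg (algebraMap (integralClosure R L) L) h6
    rw [← aeval_algebraMap_apply, map_zero, alg_act] at h7
    exact h7
  have h6 := card_le hθ h4 h5
  rw [natDegree_map_eq_of_injective (FaithfulSMul.algebraMap_injective R K), h2] at h6
  exact hI' (Finset.card_eq_iff_eq_univ _ |>.1 (le_antisymm (Finset.card_le_univ I) h6))

theorem act_inj {θ : integralClosure R L} (hθ : IntermediateField.adjoin K {(θ : L)} = ⊤) :
    Function.Injective fun g : L ≃ₐ[K] L => (g (θ : L)) := by
  intro g h hgh
  apply AlgEquiv.ext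
  intro a
  obtain ⟨T, rfl⟩ := exists_aeval hθ a
  have e1 : g (aeval (θ : L) T) = aeval (g (θ : L)) T := (aeval_algHom_apply (g : L →ₐ[K] L) _ _).symm
  have e2 : h (aeval (θ : L) T) = aeval (h (θ : L)) T := (aeval_algHom_apply (h : L →ₐ[K] L) _ _).symm
  rw [e1, e2]
  exact congrArg (fun z => aeval z T) hgh

theorem minpoly_eq {θ : integralClosure R L} (hθ : IntermediateField.adjoin K {(θ : L)} = ⊤) :
    (minpoly R θ).map (algebraMap R (integralClosure R L)) = prodI (K := K) θ Finset.univ := by
  have hint : IsIntegral R θ := Algebra.IsIntegral.isIntegral θ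
  have hinjL : Function.Injective (algebraMap (integralClosure R L) L) :=
    FaithfulSMul.algebraMap_injective _ _
  have h0 : ((minpoly R θ).map (algebraMap R (integralClosure R L))).map
      (algebraMap (integralClosure R L) L) = (minpoly K (θ : L)).map (algebraMap K L) := by
    have h1 := minpoly.isIntegrallyClosed_eq_field_fractions K L hint
    change minpoly K (θ : L) = _ at h1
    rw [h1, Polynomial.map_map, Polynomial.map_map]
    congr 1
    ext r
    exact IsScalarTower.algebraMap_apply R K L r
  apply Polynomial.map_injective _ hinjL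
  rw [h0]
  have hm : ((minpoly K (θ : L)).map (algebraMap K L)).Monic :=
    (minpoly.monic (Algebra.IsIntegral.isIntegral _)).map _
  refine (eq_of_monic_of_dvd_of_natDegree_le ((prodI_monic (K := K) θ Finset.univ).map _) hm
    ?_ ?_)
  · rw [prodI_map]
    apply Finset.prod_dvd_of_coprime
    · intro g _ h _ hgh
      exact pairwise_coprime_X_sub_C (act_inj (K := K) hθ) hgh
    · intro g _
      rw [dvd_iff_isRoot, IsRoot.def, eval_map_algebraMap]
      have e1 := (aeval_algHom_apply (g : L →ₐ[K] L) (θ : L) (minpoly K (θ : L)))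
      rw [minpoly.aeval, map_zero] at e1
      exact e1
  · rw [(prodI_monic (K := K) θ Finset.univ).natDegree_map, prodI_natDegree, natDegree_map,
      Finset.card_univ, ← Nat.card_eq_fintype_card, IsGalois.card_aut_eq_finrank,
      ← IntermediateField.adjoin.finrank (Algebra.IsIntegral.isIntegral (θ : L)), hθ,
      IntermediateField.finrank_top']

end

end Pool.Agent.V7H60.GH
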