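import Pool.Agent.V7H60.GH.Spec

set_option autoImplicit false
set_option linter.unusedSectionVars false

/-!
# Specialisation of Galois groups: conjugates stay conjugate
-/

namespace Pool.Agent.V7H60.GH

open Polynomial

section

variable {R K L : Type} [CommRing R] [IsDomain R] [IsIntegrallyClosed R] [Field K] [Algebra R K]
  [IsFractionRing R K] [Field L] [Algebra K L] [Algebra R L] [IsScalarTower R K L]
  [FiniteDimensional K L] [IsGalois K L]

/-- the homomorphism `R → ℂ` -/
noncomputable def toC (χ : R →+* ℤ) : R →+* ℂ := (Int.castRingHom ℂ).comp χ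

omit [IsDomain R] [IsIntegrallyClosed R] in
theorem eval_phi {χ : R →+* ℤ} {φ : integralClosure R L →+* ℂ}
    (hφ : ∀ r, φ (algebraMap R (integralClosure R L) r) = toC χ r) (p : R[X])
    (a : integralClosure R L) : φ (aeval a p) = aeval (φ a) (p.map χ) := by
  rw [aeval_def, hom_eval₂, aeval_def, eval₂_map]
  congr 1
  ext r
  exact hφ r

theorem spec {θ : integralClosure R L} (hθ : IntermediateField.adjoin K {(θ : L)} = ⊤) :
    ∃ W : Finset R[X], (∀ p ∈ W, p.Monic ∧ 2 ≤ p.natDegree ∧ Irreducible p) ∧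
      ∀ χ : R →+* ℤ, (∀ p ∈ W, ∀ a : ℤ, (p.map χ).eval a ≠ 0) →
      ∀ φ : integralClosure R L →+* ℂ,
        (∀ r, φ (algebraMap R (integralClosure R L) r) = toC χ r) →
        ∀ g : L ≃ₐ[K] L, ∃ σ : ℂ ≃+* ℂ, σ (φ θ) = φ (act g θ) := by
  classical
  have h1 : ∀ I : Finset (L ≃ₐ[K] L), ∃ w : integralClosure R L, (I.Nonempty ∧ I ≠ Finset.univ) →
      w ∉ (algebraMap R (integralClosure R L)).range ∧ ∃ k, (prodI θ I).coeff k = w := by
    intro I
    by_cases hI : I.Nonempty ∧ I ≠ Finset.univ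
    · obtain ⟨w, hw⟩ := exists_coeff hθ hI.1 hI.2
      exact ⟨w, fun _ => hw⟩
    · exact ⟨0, fun h => absurd h hI⟩
  choose w hw using h1
  refine ⟨((Finset.univ : Finset (Finset (L ≃ₐ[K] L))).filter fun I =>
    I.Nonempty ∧ I ≠ Finset.univ).image fun I => minpoly R (w I), ?_, ?_⟩
  · intro p hp
    obtain ⟨I, hI, rfl⟩ := Finset.mem_image.1 hp
    have hI' := (Finset.mem_filter.1 hI).2
    have hint : IsIntegral R (w I) := Algebra.IsIntegral.isIntegral _
    refine ⟨minpoly.monic hint, ?_, minpoly.irreducible hint⟩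
    have h2 := minpoly.natDegree_pos hint
    have h3 : (minpoly R (w I)).natDegree ≠ 1 := fun h =>
      (hw I hI').1 ((minpoly.natDegree_eq_one_iff).1 h)
    omega
  · intro χ hχ φ hφ g
    have hintθ : IsIntegral R θ := Algebra.IsIntegral.isIntegral _
    have hrootM : aeval (φ θ) ((minpoly R θ).map χ) = 0 := by
      rw [← eval_phi hφ, minpoly.aeval, map_zero]
    have hintZ : IsIntegral ℤ (φ θ) := ⟨(minpoly R θ).map χ, (minpoly.monic hintθ).map _, hrootM⟩
    have hdvd : minpoly ℤ (φ θ) ∣ (minpoly R θ).map χ := minpoly.isIntegrallyClosed_dvd hintZ hrootM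
    have hprod : ((minpoly R θ).map χ).map (Int.castRingHom ℂ) =
        ∏ h : L ≃ₐ[K] L, (X - C (φ (act h θ))) := by
      have h2 := congrArg (Polynomial.map φ) (minpoly_eq (K := K) hθ)
      rw [Polynomial.map_map] at h2
      have h3 : φ.comp (algebraMap R (integralClosure R L)) = (Int.castRingHom ℂ).comp χ := by
        ext r
        exact hφ r
      rw [h3] at h2
      rw [Polynomial.map_map, h2]
      unfold prodI
      rw [Polynomial.map_prod]
      refine Finset.prod_congr rfl fun h _ => ?_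
      rw [Polynomial.map_sub, Polynomial.map_X, Polynomial.map_C]
    have hdvd' : (minpoly ℤ (φ θ)).map (Int.castRingHom ℂ) ∣
        ∏ h : L ≃ₐ[K] L, (X - C (φ (act h θ))) := by
      rw [← hprod]
      exact Polynomial.map_dvd _ hdvd
    obtain ⟨I, -, hI⟩ := dvd_prod (fun h : L ≃ₐ[K] L => φ (act h θ)) Finset.univ _
      ((minpoly.monic hintZ).map _) hdvd'
    have hIne : I.Nonempty := by
      rw [Finset.nonempty_iff_ne_empty]
      rintro rfl
      rw [Finset.prod_empty] at hI
      have h2 := congrArg natDegree hI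
      rw [(minpoly.monic hintZ).natDegree_map, natDegree_one] at h2
      exact (minpoly.natDegree_pos hintZ).ne' h2
    by_cases hIu : I = Finset.univ
    · apply exists_sigma (hintZ.tower_top)
      have h2 : minpoly ℚ (φ θ) = (minpoly ℤ (φ θ)).map (algebraMap ℤ ℚ) :=
        minpoly.isIntegrallyClosed_eq_field_fractions' ℚ hintZ
      rw [h2, aeval_map_algebraMap, aeval_def, ← eval_map]
      change eval _ ((minpoly ℤ (φ θ)).map (Int.castRingHom ℂ)) = 0
      rw [hI, hIu, eval_prod]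
      exact Finset.prod_eq_zero (Finset.mem_univ g) (by rw [eval_sub, eval_X, eval_C, sub_self])
    · exfalso
      obtain ⟨-, k, hk⟩ := hw I ⟨hIne, hIu⟩
      have h2 : φ (w I) = (((minpoly ℤ (φ θ)).coeff k : ℤ) : ℂ) := by
        have h3 : (prodI θ I).map φ = ∏ h ∈ I, (X - C (φ (act h θ))) := by
          unfold prodI
          rw [Polynomial.map_prod]
          refine Finset.prod_congr rfl fun h _ => ?_
          rw [Polynomial.map_sub, Polynomial.map_X, Polynomial.map_C]
        have h4 := congrArg (fun q => q.coeff k) (h3.trans hI.symm)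
        simp only [coeff_map] at h4
        rw [hk] at h4
        exact h4
      apply hχ (minpoly R (w I)) (Finset.mem_image.2 ⟨I, Finset.mem_filter.2
        ⟨Finset.mem_univ _, hIne, hIu⟩, rfl⟩) ((minpoly ℤ (φ θ)).coeff k)
      have h3 : aeval (φ (w I)) ((minpoly R (w I)).map χ) = 0 := by
        rw [← eval_phi hφ, minpoly.aeval, map_zero]
      rw [h2] at h3
      have h4 : aeval (((minpoly ℤ (φ θ)).coeff k : ℤ) : ℂ) ((minpoly R (w I)).map χ) =
          ((((minpoly R (w I)).map χ).eval ((minpoly ℤ (φ θ)).coeff k) : ℤ) : ℂ) := by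
        have h5 := eval_intCast_map (Int.castRingHom ℂ) ((minpoly R (w I)).map χ)
          ((minpoly ℤ (φ θ)).coeff k)
        rw [aeval_def, ← eval_map]
        exact h5
      rw [h4] at h3
      exact_mod_cast h3

/-- conjugation of finitely many elements -/
theorem conj (g : L ≃ₐ[K] L) (E : Finset (integralClosure R L)) :
    ∃ (W : Finset R[X]) (Z : Finset R), (∀ p ∈ W, p.Monic ∧ 2 ≤ p.natDegree ∧ Irreducible p) ∧
      (∀ z ∈ Z, z ≠ 0) ∧
      ∀ χ : R →+* ℤ, (∀ p ∈ W, ∀ a : ℤ, (p.map χ).eval a ≠ 0) → (∀ z ∈ Z, χ z ≠ 0) →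
      ∀ φ : integralClosure R L →+* ℂ,
        (∀ r, φ (algebraMap R (integralClosure R L) r) = toC χ r) →
        ∃ σ : ℂ ≃+* ℂ, ∀ a ∈ E, σ (φ a) = φ (act g a) := by
  classical
  obtain ⟨θ, hθ⟩ := exists_theta R K L
  obtain ⟨W, hW, h1⟩ := spec (K := K) hθ
  choose s hs T hT using fun a => exists_T (K := K) hθ a
  refine ⟨W, E.image s, hW, ?_, ?_⟩
  · intro z hz
    obtain ⟨a, -, rfl⟩ := Finset.mem_image.1 hz
    exact hs a
  · intro χ hχ hZ φ hφ
    obtain ⟨σ, hσ⟩ := h1 χ hχ φ hφ g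
    refine ⟨σ, fun a ha => ?_⟩
    have hsa : ((χ (s a) : ℤ) : ℂ) ≠ 0 := Int.cast_ne_zero.2 (hZ _ (Finset.mem_image_of_mem _ ha))
    have e1 : ((χ (s a) : ℤ) : ℂ) * φ a = aeval (φ θ) ((T a).map χ) := by
      rw [← eval_phi hφ, ← hT a, Algebra.smul_def, map_mul, hφ]
      rfl
    have e2 : ((χ (s a) : ℤ) : ℂ) * φ (act g a) = aeval (φ (act g θ)) ((T a).map χ) := by
      have h2 : s a • act g a = aeval (act g θ) (T a) := by
        have h3 := congrArg (act g) (hT a)
        rw [map_smul] at h3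
        rw [h3]
        exact (aeval_algHom_apply (act (R := R) g).toAlgHom θ (T a)).symm
      rw [← eval_phi hφ, ← h2, Algebra.smul_def, map_mul, hφ]
      rfl
    have e3 : ((χ (s a) : ℤ) : ℂ) * σ (φ a) = ((χ (s a) : ℤ) : ℂ) * φ (act g a) := by
      rw [e2, ← hσ]
      have h3 := congrArg σ e1
      rw [map_mul, map_intCast] at h3
      rw [h3, aeval_def, aeval_def]
      have h4 := hom_eval₂ ((T a).map χ) (algebraMap ℤ ℂ) (σ : ℂ →+* ℂ) (φ θ)
      have h5 : (σ : ℂ →+* ℂ).comp (algebraMap ℤ ℂ) = algebraMap ℤ ℂ := RingHom.ext_int _ _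
      rw [h5] at h4
      exact h4
    exact mul_left_cancel₀ hsa e3

/-- nonzero elements stay nonzero -/
theorem exists_ne {a : integralClosure R L} (ha : a ≠ 0) :
    ∃ z : R, z ≠ 0 ∧ ∀ χ : R →+* ℤ, χ z ≠ 0 → ∀ φ : integralClosure R L →+* ℂ,
        (∀ r, φ (algebraMap R (integralClosure R L) r) = toC χ r) → φ a ≠ 0 := by
  have hint : IsIntegral R a := Algebra.IsIntegral.isIntegral _
  obtain ⟨q, hq, hqa⟩ := hint.isAlgebraic.exists_nonzero_coeff_and_aeval_eq_zero
    (mem_nonZeroDivisors_of_ne_zero ha)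
  refine ⟨q.coeff 0, hq, fun χ hχ φ hφ h0 => ?_⟩
  have h1 : aeval (φ a) (q.map χ) = 0 := by
    rw [← eval_phi hφ, hqa, map_zero]
  rw [h0, aeval_def, eval₂_at_zero, coeff_map] at h1
  exact hχ (Int.cast_eq_zero.1 h1)

end

end Pool.Agent.V7H60.GH
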