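import Pool.Agent.V7H60.GH.TwRed
import Pool.Agent.V7H60.GH.Almost

set_option autoImplicit false
set_option linter.unusedSectionVars false

/-!
# Moebius twists of given rational functions
-/

namespace Pool.Agent.V7H60.GH

open Polynomial Pool.Agent.TH838.DS Pool.Agent.H936R2 Pool.Agent.V7H60.GC Pool.Agent.N455.HT
  Pool.Agent.H905R3.DML

section

variable {k : ℕ} {d : Fin k → ℕ}

section smul

variable {K : Type} [CommRing K]

theorem D0_smul {n : ℕ} (c : Fin (n + 1) → K) (l : K) (y : Fin 2 → K) :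
    D0 c (fun a => l * y a) = l ^ (n - 1) * D0 c y := by
  unfold D0
  rw [Finset.mul_sum]
  refine Finset.sum_congr rfl fun e _ => ?_
  rcases Nat.eq_zero_or_pos (e : ℕ) with h | h
  · rw [h]; simp
  · have he : (e : ℕ) ≤ n := by omega
    have h1 : l ^ (n - 1) = l ^ ((e : ℕ) - 1) * l ^ (n - (e : ℕ)) := by
      rw [← pow_add]
      congr 1
      omega
    rw [h1, mul_pow, mul_pow]
    ring

theorem D1_smul {n : ℕ} (c : Fin (n + 1) → K) (l : K) (y : Fin 2 → K) :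
    D1 c (fun a => l * y a) = l ^ (n - 1) * D1 c y := by
  unfold D1
  rw [Finset.mul_sum]
  refine Finset.sum_congr rfl fun e _ => ?_
  rcases Nat.eq_zero_or_pos (n - (e : ℕ)) with h | h
  · rw [h]; simp
  · have h1 : l ^ (n - 1) = l ^ (e : ℕ) * l ^ (n - (e : ℕ) - 1) := by
      rw [← pow_add]
      congr 1
      omega
    rw [h1, mul_pow, mul_pow]
    ring

theorem J_smul' (v : Co k d → K) (i : Fin k) (l : K) (y : Fin 2 → K) :
    J v i (fun a => l * y a) = l ^ (2 * (d i - 1)) * J v i y := by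
  rw [J_eq, J_eq, D0_smul, D0_smul, D1_smul, D1_smul, two_mul, pow_add]
  ring

/-- the twist by matrices -/
def tw (M : Fin k × Fin 2 × Fin 2 → K) (h : Co k d → K) : Co k d → K :=
  fun e => M (e.1, e.2.1, 0) * h ⟨e.1, (0, e.2.2)⟩ + M (e.1, e.2.1, 1) * h ⟨e.1, (1, e.2.2)⟩

/-- the determinants -/
def dt (M : Fin k × Fin 2 × Fin 2 → K) (i : Fin k) : K :=
  M (i, 0, 0) * M (i, 1, 1) - M (i, 0, 1) * M (i, 1, 0)

theorem J_tw (M : Fin k × Fin 2 × Fin 2 → K) (h : Co k d → K) (i : Fin k) (z : Fin 2 → K) :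
    J (tw M h) i z = dt M i * J h i z := by
  have h0 : ∀ a, D0 (fun e => tw M h ⟨i, (a, e)⟩) z = M (i, a, 0) * D0 (fun e => h ⟨i, (0, e)⟩) z +
      M (i, a, 1) * D0 (fun e => h ⟨i, (1, e)⟩) z := by
    intro a
    unfold D0 tw
    rw [Finset.mul_sum, Finset.mul_sum, ← Finset.sum_add_distrib]
    exact Finset.sum_congr rfl fun e _ => by ring
  have h1 : ∀ a, D1 (fun e => tw M h ⟨i, (a, e)⟩) z = M (i, a, 0) * D1 (fun e => h ⟨i, (0, e)⟩) z +
      M (i, a, 1) * D1 (fun e => h ⟨i, (1, e)⟩) z := by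
    intro a
    unfold D1 tw
    rw [Finset.mul_sum, Finset.mul_sum, ← Finset.sum_add_distrib]
    exact Finset.sum_congr rfl fun e _ => by ring
  rw [J_eq, J_eq, h0, h0, h1, h1]
  unfold dt
  ring

theorem pt_tw (M : Fin k × Fin 2 × Fin 2 → K) (h : Co k d → K) (i : Fin k) (z : Fin 2 → K)
    (a : Fin 2) : pt (bs fun e => tw M h ⟨i, e⟩) z a =
      M (i, a, 0) * pt (bs fun e => h ⟨i, e⟩) z 0 + M (i, a, 1) * pt (bs fun e => h ⟨i, e⟩) z 1 := by
  change MvPolynomial.eval z (bs (fun e => tw M h ⟨i, e⟩) a) =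
    M (i, a, 0) * MvPolynomial.eval z (bs (fun e => h ⟨i, e⟩) 0) +
      M (i, a, 1) * MvPolynomial.eval z (bs (fun e => h ⟨i, e⟩) 1)
  rw [bs, bs, bs, eval_bf, eval_bf, eval_bf, Finset.mul_sum, Finset.mul_sum,
    ← Finset.sum_add_distrib]
  refine Finset.sum_congr rfl fun e _ => ?_
  simp only [tw]
  ring

theorem WP_tw (M : Fin k × Fin 2 × Fin 2 → K) (h : Co k d → K) (i : Fin k) (a : Fin 2) :
    WP (tw M h) [i] a = C (M (i, a, 0)) * (pf fun e => h ⟨i, (0, e)⟩) +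
      C (M (i, a, 1)) * (pf fun e => h ⟨i, (1, e)⟩) := by
  rw [WP_eq]
  unfold pf
  rw [Finset.mul_sum, Finset.mul_sum, ← Finset.sum_add_distrib]
  refine Finset.sum_congr rfl fun e _ => ?_
  simp only [tw, C_add, C_mul]
  ring

/-- the preimages of critical points -/
noncomputable def RQ (h : Co k d → K) (M : Fin k × Fin 2 × Fin 2 → K) (q : Fin k × Fin k) : K[X] :=
  J (fun e => C (h e)) q.2 (fun a => WP (tw M h) [q.1] a)

variable {S : Type} [CommRing S] (φ : K →+* S)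

theorem map_tw (M : Fin k × Fin 2 × Fin 2 → K) (h : Co k d → K) :
    (fun e => φ (tw M h e)) = tw (fun m => φ (M m)) fun e => φ (h e) := by
  funext e
  unfold tw
  rw [map_add, map_mul, map_mul]

theorem map_RQ (h : Co k d → K) (M : Fin k × Fin 2 × Fin 2 → K) (q : Fin k × Fin k) :
    (RQ h M q).map φ = RQ (fun e => φ (h e)) (fun m => φ (M m)) q := by
  have h1 := J_nat (Polynomial.mapRingHom φ) (fun e => C (h e)) q.2
    (fun a => WP (tw M h) [q.1] a)
  simp only [Polynomial.coe_mapRingHom, Polynomial.map_C, map_WP', map_tw] at h1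
  exact h1.symm

theorem eval_RQ (h : Co k d → K) (M : Fin k × Fin 2 × Fin 2 → K) (q : Fin k × Fin k) (u : K) :
    (RQ h M q).eval u = J h q.2 (wv (tw M h) [q.1] ![u, 1]) := by
  have h1 := J_nat (Polynomial.evalRingHom u) (fun e => C (h e)) q.2
    (fun a => WP (tw M h) [q.1] a)
  simp only [Polynomial.coe_evalRingHom, Polynomial.eval_C, eval_WP] at h1
  exact h1.symm

theorem natDegree_RQ (h : Co k d → K) (M : Fin k × Fin 2 × Fin 2 → K) (q : Fin k × Fin k) :
    (RQ h M q).natDegree ≤ 2 * (d q.2 - 1) * d q.1 :=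
  natDegree_J h q.2 _ _ fun a => by
    rw [WP_eq]
    exact natDegree_pf _

end smul

section red

variable {h : Co k d → ℤ} {r : Fin k → ℤ[X]} {p : ℕ} [Fact p.Prime] {s : ZMod p}
  {y0 y1 : Fin k → ZMod p}

/-- the matrices of rank one -/
def Mbar (s : ZMod p) (y0 y1 : Fin k → ZMod p) : Fin k × Fin 2 × Fin 2 → ZMod p :=
  fun m => (![s, 1] : Fin 2 → ZMod p) m.2.1 * (![-(y1 m.1), y0 m.1] : Fin 2 → ZMod p) m.2.2

/-- the form `y0 B - y1 A` -/
noncomputable def LL (h : Co k d → ℤ) (y0 y1 : Fin k → ZMod p) (i : Fin k) : (ZMod p)[X] :=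
  C (y0 i) * (pf fun e => ((h ⟨i, (1, e)⟩ : ℤ) : ZMod p)) -
    C (y1 i) * (pf fun e => ((h ⟨i, (0, e)⟩ : ℤ) : ZMod p))

theorem LL_deg (H : TwOk h r p s y0 y1) (i : Fin k) :
    (LL h y0 y1 i).natDegree = d i ∧ LL h y0 y1 i ≠ 0 := by
  have h1 : (LL h y0 y1 i).coeff (d i) ≠ 0 := by
    unfold LL
    rw [coeff_sub, coeff_C_mul, coeff_C_mul, pf_coeff_top, pf_coeff_top]
    exact H.om' i
  refine ⟨le_antisymm ?_ (le_natDegree_of_ne_zero h1), ?_⟩
  · unfold LL
    refine (natDegree_sub_le _ _).trans (max_le ?_ ?_)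
    · exact (natDegree_C_mul_le _ _).trans (natDegree_pf _)
    · exact (natDegree_C_mul_le _ _).trans (natDegree_pf _)
  · intro h2
    rw [h2, coeff_zero] at h1
    exact h1 rfl

theorem RQ_red (q : Fin k × Fin k) :
    RQ (fun e => ((h e : ℤ) : ZMod p)) (Mbar s y0 y1) q =
      LL h y0 y1 q.1 ^ (2 * (d q.2 - 1)) *
        C ((JP (fun e => ((h e : ℤ) : ZMod p)) q.2).eval s) := by
  have h1 : (fun a => WP (tw (Mbar s y0 y1) fun e => ((h e : ℤ) : ZMod p)) [q.1] a) =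
      fun a => LL h y0 y1 q.1 * (fun a => C ((![s, 1] : Fin 2 → ZMod p) a)) a := by
    funext a
    rw [WP_tw]
    unfold LL Mbar
    simp only [Matrix.cons_val_zero, Matrix.cons_val_one, C_mul, C_neg]
    ring
  unfold RQ
  rw [h1, J_smul', J_nat C, eval_JP]

end red

/-- the family of all twists -/
theorem exists_FM_tw {h : Co k d → ℤ} (hd : ∀ i, 2 ≤ d i) (hz : NoZ h) (r : Fin k → ℤ[X])
    (hr0 : ∀ j, r j ≠ 0) (hr : ∀ j, ((r j).map (algebraMap ℤ ℚ)).Separable) :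
    (∃ (Ω : Type) (_ : Field Ω) (j : MvPolynomial (Fin k × Fin 2 × Fin 2) ℤ →+* Ω) (τ : Ω ≃+* Ω),
      Function.Injective j ∧ FM (fun i => (r i).map (Int.castRingHom _))
        (RQ (fun e => ((h e : ℤ) : MvPolynomial (Fin k × Fin 2 × Fin 2) ℤ)) MvPolynomial.X) j τ) ∧
    (∀ q, RQ (fun e => ((h e : ℤ) : MvPolynomial (Fin k × Fin 2 × Fin 2) ℤ)) MvPolynomial.X q ≠ 0) ∧
    ∀ i i', J (fun e => ((h e : ℤ) : MvPolynomial (Fin k × Fin 2 × Fin 2) ℤ)) i
      (wv (tw MvPolynomial.X fun e => ((h e : ℤ) : MvPolynomial (Fin k × Fin 2 × Fin 2) ℤ)) [i']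
        ![1, 0]) ≠ 0 := by
  classical
  obtain ⟨p, hF, s, y0, y1, H⟩ := exists_tw hd hz r hr0 hr
  let R := MvPolynomial (Fin k × Fin 2 × Fin 2) ℤ
  let ρ : R →+* ZMod p := ev (Mbar s y0 y1)
  have hρX : (fun m => ρ (MvPolynomial.X m)) = Mbar s y0 y1 := by
    funext m
    exact ev_X _ m
  have hρh : (fun e => ρ ((h e : ℤ) : R)) = fun e => ((h e : ℤ) : ZMod p) := by
    funext e
    exact map_intCast ρ _
  have hPred : ∀ i, ((r i).map (Int.castRingHom R)).map ρ = redp p (r i) := by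
    intro i
    rw [Polynomial.map_map]
    congr 1
    exact RingHom.ext_int _ _
  have hQred : ∀ q, (RQ (fun e => ((h e : ℤ) : R)) MvPolynomial.X q).map ρ =
      LL h y0 y1 q.1 ^ (2 * (d q.2 - 1)) *
        C ((JP (fun e => ((h e : ℤ) : ZMod p)) q.2).eval s) := by
    intro q
    rw [map_RQ, hρX, hρh, RQ_red]
  have hQne : ∀ q, (RQ (fun e => ((h e : ℤ) : R)) MvPolynomial.X q).map ρ ≠ 0 := by
    intro q
    rw [hQred]
    exact mul_ne_zero (pow_ne_zero _ (LL_deg H q.1).2) (C_ne_zero.2 (H.js _))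
  have hinjZ : Function.Injective (Int.castRingHom R) := (Int.castRingHom R).injective_int
  obtain ⟨Ω, hΩ, j', τ, hj', hFM⟩ := frob (p := p) ρ (fun i => (r i).map (Int.castRingHom R))
    (RQ (fun e => ((h e : ℤ) : R)) MvPolynomial.X)
    (fun i => by
      rw [leadingCoeff_map_of_injective hinjZ]
      have e1 : ρ (Int.castRingHom R (r i).leadingCoeff) = (((r i).leadingCoeff : ℤ) : ZMod p) :=
        map_intCast ρ _
      rw [e1]
      exact H.rl i)
    (fun q => lead_ne ρ (natDegree_RQ _ _ q) (by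
      rw [hQred, natDegree_mul_C (H.js _), natDegree_pow, (LL_deg H q.1).1]) (hQne q))
    (fun i => by
      rw [hPred]
      exact H.rs i)
    (fun i => by
      rw [hPred]
      exact H.rsep i)
    (fun q a => by
      rw [hQred, eval_mul, eval_C, eval_pow]
      refine mul_ne_zero (pow_ne_zero _ ?_) (H.js _)
      unfold LL
      rw [eval_sub, eval_mul, eval_mul, eval_C, eval_C]
      exact H.om q.1 a)
  refine ⟨⟨Ω, hΩ, j', τ, hj', hFM⟩, ?_, ?_⟩
  · intro q h0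
    apply hQne q
    rw [h0, Polynomial.map_zero]
  · intro i i' h0
    have h1 := J_nat ρ (fun e => ((h e : ℤ) : R)) i
      (wv (tw MvPolynomial.X fun e => ((h e : ℤ) : R)) [i'] ![1, 0])
    have h2 := wv_nat ρ (tw MvPolynomial.X fun e => ((h e : ℤ) : R)) [i'] ![1, 0]
    have e2 : (fun a => ρ ((![1, 0] : Fin 2 → R) a)) = ![1, 0] := by
      funext a
      fin_cases a <;> simp
    rw [e2, map_tw, hρX, hρh] at h2
    rw [h0, map_zero, hρh, ← h2] at h1
    have h3 : wv (tw (Mbar s y0 y1) fun e => ((h e : ℤ) : ZMod p)) [i'] ![1, 0] =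
        fun a => (y0 i' * ((h ⟨i', (1, Fin.last (d i'))⟩ : ℤ) : ZMod p) -
          y1 i' * ((h ⟨i', (0, Fin.last (d i'))⟩ : ℤ) : ZMod p)) * (![s, 1] : Fin 2 → ZMod p) a := by
      funext a
      change pt (bs fun e => tw (Mbar s y0 y1) (fun e => ((h e : ℤ) : ZMod p)) ⟨i', e⟩) ![1, 0] a = _
      rw [pt_tw, pt_inf (fun e => ((h e : ℤ) : ZMod p)), pt_inf (fun e => ((h e : ℤ) : ZMod p))]
      simp only [Mbar, Matrix.cons_val_zero, Matrix.cons_val_one]
      ring
    rw [h3, J_smul', ← eval_JP] at h1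
    exact mul_ne_zero (pow_ne_zero _ (H.om' i')) (H.js i) h1

/-- from the automorphism to the hypotheses of the criterion, second version -/
theorem crit' (hd : ∀ i, 2 ≤ d i) (v : Co k d → ℂ) (σ : ℂ ≃+* ℂ)
    (h1 : ∀ i (z : ℂ), (JP v i).eval z = 0 → σ z = z)
    (h2 : ∀ q (z : ℂ), (QP v q).eval z = 0 → σ z ≠ z)
    (h4 : ∀ i i', J v i (wv v [i'] ![1, 0]) ≠ 0) :
    (∀ i (z : Fin 2 → ℂ), z ≠ 0 → pt (bs fun e => v ⟨i, e⟩) z ≠ 0) ∧
    ∀ i (z : Fin 2 → ℂ), z ≠ 0 → J v i z = 0 →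
      ∃ e, 1 ≤ e ∧ FixC σ e z ∧ ∀ y : Fin 2 → ℂ, y ≠ 0 → FixC σ e y →
        ∀ w : List (Fin k), w.length = 1 → ¬ Same (wv v w y) z := by
  -- critical points are fixed
  have hfin : ∀ i (z : Fin 2 → ℂ), z ≠ 0 → J v i z = 0 → z 1 ≠ 0 → σ (z 0 / z 1) = z 0 / z 1 := by
    intro i z hz hJ hz1
    refine h1 i _ ?_
    rw [eval_JP]
    rw [nrm_one hz1, J_smul] at hJ
    exact (mul_eq_zero.1 hJ).resolve_left (pow_ne_zero _ hz1)
  -- preimages of critical points
  have hpre : ∀ i i' (y : Fin 2 → ℂ), y ≠ 0 → J v i (wv v [i'] y) = 0 →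
      y 1 ≠ 0 ∧ σ (y 0 / y 1) ≠ y 0 / y 1 := by
    intro i i' y hy hJ
    obtain ⟨D, hD⟩ := wv_smul v [i']
    have hy1 : y 1 ≠ 0 := by
      intro hy1
      apply h4 i i'
      have hy0 := z0_ne hy hy1
      rw [nrm_zero hy1, hD, J_smul] at hJ
      exact (mul_eq_zero.1 hJ).resolve_left (pow_ne_zero _ (pow_ne_zero _ hy0))
    refine ⟨hy1, h2 (i', i) _ ?_⟩
    rw [eval_QP]
    rw [nrm_one hy1, hD, J_smul] at hJ
    exact (mul_eq_zero.1 hJ).resolve_left (pow_ne_zero _ (pow_ne_zero _ hy1))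
  have hreg : ∀ i (z : Fin 2 → ℂ), z ≠ 0 → pt (bs fun e => v ⟨i, e⟩) z ≠ 0 := by
    intro i z hz h0
    have h5 : J v i (wv v [i] z) = 0 := by
      have h6 : wv v [i] z = 0 := h0
      rw [h6]
      exact J_zero v i (hd i)
    have h6 := hpre i i z hz h5
    exact h6.2 (hfin i z hz (J_of_zero v i z hz h0) h6.1)
  refine ⟨hreg, fun i z hz hJ => ⟨1, le_rfl, ?_, ?_⟩⟩
  · by_cases hz1 : z 1 = 0
    · have hz0 := z0_ne hz hz1
      refine ⟨σ (z 0) / z 0, fun a => ?_⟩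
      change σ (z a) = _
      fin_cases a
      · change σ (z 0) = σ (z 0) / z 0 * z 0
        rw [div_mul_cancel₀ _ hz0]
      · change σ (z 1) = σ (z 0) / z 0 * z 1
        rw [hz1, map_zero, mul_zero]
    · have hfix := hfin i z hz hJ hz1
      refine ⟨σ (z 1) / z 1, fun a => ?_⟩
      change σ (z a) = _
      fin_cases a
      · change σ (z 0) = σ (z 1) / z 1 * z 0
        rw [map_div₀] at hfix
        have hσ1 : σ (z 1) ≠ 0 := (map_ne_zero_iff σ σ.injective).2 hz1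
        rw [div_eq_div_iff hσ1 hz1] at hfix
        rw [div_mul_eq_mul_div, eq_div_iff hz1]
        linear_combination hfix
      · change σ (z 1) = σ (z 1) / z 1 * z 1
        rw [div_mul_cancel₀ _ hz1]
  · intro y hy hyf w hw hS
    obtain ⟨i', rfl⟩ := List.length_eq_one_iff.1 hw
    have hw0 : wv v [i'] y ≠ 0 := hreg i' y hy
    -- the value is a multiple of `z`
    have hJ' : J v i (wv v [i'] y) = 0 := by
      obtain ⟨l, hl⟩ : ∃ l : ℂ, wv v [i'] y = fun a => l * z a := by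
        unfold Same at hS
        by_cases hz1 : z 1 = 0
        · have hz0 := z0_ne hz hz1
          refine ⟨wv v [i'] y 0 / z 0, ?_⟩
          rw [hz1, mul_zero] at hS
          have hS' := (mul_eq_zero.1 hS.symm).resolve_right hz0
          funext a
          fin_cases a
          · change wv v [i'] y 0 = wv v [i'] y 0 / z 0 * z 0
            rw [div_mul_cancel₀ _ hz0]
          · change wv v [i'] y 1 = wv v [i'] y 0 / z 0 * z 1
            rw [hS', hz1, mul_zero]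
        · refine ⟨wv v [i'] y 1 / z 1, ?_⟩
          funext a
          fin_cases a
          · change wv v [i'] y 0 = wv v [i'] y 1 / z 1 * z 0
            rw [div_mul_eq_mul_div, eq_div_iff hz1]
            exact hS
          · change wv v [i'] y 1 = wv v [i'] y 1 / z 1 * z 1
            rw [div_mul_cancel₀ _ hz1]
      rw [hl, J_smul, hJ, mul_zero]
    obtain ⟨hy1, hmov⟩ := hpre i i' y hy hJ'
    apply hmov
    obtain ⟨l, hl⟩ := hyf
    have e0 : σ (y 0) = l * y 0 := hl 0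
    have e1 : σ (y 1) = l * y 1 := hl 1
    have hl0 : l ≠ 0 := by
      rintro rfl
      rw [zero_mul] at e1
      exact hy1 ((map_eq_zero_iff σ σ.injective).1 e1)
    rw [map_div₀, e0, e1, mul_div_mul_left _ _ hl0]

theorem good_of' (hd : ∀ i, 2 ≤ d i) (v : Co k d → ℤ) (σ : ℂ ≃+* ℂ)
    (h1 : ∀ i (z : ℂ), (JP (fun e => ((v e : ℤ) : ℂ)) i).eval z = 0 → σ z = z)
    (h2 : ∀ q (z : ℂ), (QP (fun e => ((v e : ℤ) : ℂ)) q).eval z = 0 → σ z ≠ z)
    (h4 : ∀ i i', J (fun e => ((v e : ℤ) : ℂ)) i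
      (wv (fun e => ((v e : ℤ) : ℂ)) [i'] ![1, 0]) ≠ 0) : Good v := by
  obtain ⟨g1, g2⟩ := crit' hd _ σ h1 h2 h4
  refine ⟨g1, fun N τ s => ?_⟩
  refine all_points_g (g := σ) le_rfl (d := fun i => d (τ i))
    (fun i => by have := hd (τ i); omega) (pull τ v) (fun i z hz => g1 (τ i) z hz) ?_ s
  intro i z hz hJ
  obtain ⟨e, he, hf, hno⟩ := g2 (τ i) z hz hJ
  refine ⟨e, he, hf, fun y hy hyf w hw hS => ?_⟩
  apply hno y hy hyf (w.map τ) (by rw [List.length_map, hw])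
  rw [← wv_pull]
  exact hS

/-- **Almost all Moebius twists.** -/
theorem thin_tw (h : Co k d → ℤ) (hd : ∀ i, 2 ≤ d i) (hz : NoZ h) :
    ∃ (W : Finset (MvPolynomial (Fin k × Fin 2 × Fin 2) ℤ)[X])
      (Z : Finset (MvPolynomial (Fin k × Fin 2 × Fin 2) ℤ)),
      (∀ p ∈ W, p.Monic ∧ 2 ≤ p.natDegree ∧ Irreducible p) ∧ (∀ z ∈ Z, z ≠ 0) ∧
      ∀ M : Fin k × Fin 2 × Fin 2 → ℤ, (∀ p ∈ W, ∀ a : ℤ, (p.map (ev M)).eval a ≠ 0) →
        (∀ z ∈ Z, ev M z ≠ 0) → Good (tw M h) := by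
  classical
  let R := MvPolynomial (Fin k × Fin 2 × Fin 2) ℤ
  have hJ0 : ∀ i, JP h i ≠ 0 := by
    intro i
    rw [JP_eq]
    have hdi := hd i
    refine mul_ne_zero (C_ne_zero.2 (Nat.cast_ne_zero.2 (by omega))) (Wr_ne hz i (by omega))
  choose r hr0 hr hrC using fun i => exists_sep (hJ0 i)
  obtain ⟨⟨Ω, hΩ, j, τ, hj, hFM⟩, hQ, hB⟩ := exists_FM_tw hd hz r hr0 hr
  have hinjZ : Function.Injective (Int.castRingHom R) := (Int.castRingHom R).injective_int
  have hP : ∀ i, (r i).map (Int.castRingHom R) ≠ 0 := fun i =>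
    (Polynomial.map_ne_zero_iff hinjZ).2 (hr0 i)
  obtain ⟨W, Z, hW, hZ, H⟩ := gal_spec (fun i => (r i).map (Int.castRingHom R))
    (RQ (fun e => ((h e : ℤ) : R)) MvPolynomial.X) hP hQ j hj τ hFM
  have hdt : ∀ i, dt (MvPolynomial.X : Fin k × Fin 2 × Fin 2 → R) i ≠ 0 := by
    intro i h0
    have h1 := congrArg (ev (fun m : Fin k × Fin 2 × Fin 2 => if m.2.1 = m.2.2 then (1 : ℤ) else 0)) h0
    unfold dt at h1
    rw [map_sub, map_mul, map_mul, ev_X, ev_X, ev_X, ev_X, map_zero] at h1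
    simp at h1
  refine ⟨W, Z ∪ (Finset.univ.image fun i => dt (MvPolynomial.X : Fin k × Fin 2 × Fin 2 → R) i) ∪
    (Finset.univ.image fun q : Fin k × Fin k => J (fun e => ((h e : ℤ) : R)) q.1
      (wv (tw MvPolynomial.X fun e => ((h e : ℤ) : R)) [q.2] ![1, 0])), hW, ?_, ?_⟩
  · intro z hz
    simp only [Finset.mem_union, Finset.mem_image] at hz
    rcases hz with (hz | ⟨i, -, rfl⟩) | ⟨q, -, rfl⟩
    · exact hZ z hz
    · exact hdt i
    · exact hB _ _
  · intro M hM1 hM2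
    obtain ⟨σ, hσ1, hσ2⟩ := H (ev M) hM1 (fun z hz => hM2 z (by
      simp only [Finset.mem_union]; tauto))
    let θ : R →+* ℂ := toC (ev M)
    have eX : (fun m => θ (MvPolynomial.X m)) = fun m => ((M m : ℤ) : ℂ) := by
      funext m
      change ((ev M (MvPolynomial.X m) : ℤ) : ℂ) = _
      rw [ev_X]
    have eh : (fun e => θ ((h e : ℤ) : R)) = fun e => ((h e : ℤ) : ℂ) := by
      funext e
      exact map_intCast θ _
    have etw : (fun e => ((tw M h e : ℤ) : ℂ)) =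
        tw (fun m => ((M m : ℤ) : ℂ)) fun e => ((h e : ℤ) : ℂ) :=
      map_tw (Int.castRingHom ℂ) M h
    have hdtM : ∀ i, dt (fun m => ((M m : ℤ) : ℂ)) i ≠ 0 := by
      intro i
      have h1 := hM2 (dt (MvPolynomial.X : Fin k × Fin 2 × Fin 2 → R) i) (by
        simp only [Finset.mem_union, Finset.mem_image]
        exact Or.inl (Or.inr ⟨i, Finset.mem_univ _, rfl⟩))
      unfold dt at h1 ⊢
      rw [map_sub, map_mul, map_mul, ev_X, ev_X, ev_X, ev_X] at h1
      change ((M (i, 0, 0) : ℤ) : ℂ) * ((M (i, 1, 1) : ℤ) : ℂ) -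
        ((M (i, 0, 1) : ℤ) : ℂ) * ((M (i, 1, 0) : ℤ) : ℂ) ≠ 0
      exact_mod_cast h1
    refine good_of' hd (tw M h) σ ?_ ?_ ?_
    · intro i z hz0
      rw [eval_JP, etw, J_tw] at hz0
      have h1 := (mul_eq_zero.1 hz0).resolve_left (hdtM i)
      apply hσ1 i z
      have e1 : ((r i).map (Int.castRingHom R)).map (toC (ev M)) = (r i).map (Int.castRingHom ℂ) := by
        rw [Polynomial.map_map]
        congr 1
        exact RingHom.ext_int _ _
      rw [e1]
      apply hrC i z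
      have e2 : (JP h i).map (Int.castRingHom ℂ) = JP (fun e => ((h e : ℤ) : ℂ)) i := map_JP' _ _ _
      rw [e2, eval_JP]
      exact h1
    · intro q z hz0
      rw [eval_QP, etw, J_tw] at hz0
      have h1 := (mul_eq_zero.1 hz0).resolve_left (hdtM q.2)
      apply hσ2 q z
      rw [map_RQ]
      change eval z (RQ (fun e => θ ((h e : ℤ) : R)) (fun m => θ (MvPolynomial.X m)) q) = 0
      rw [eX, eh, eval_RQ]
      exact h1
    · intro i i' h0
      rw [etw, J_tw] at h0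
      have h1 := (mul_eq_zero.1 h0).resolve_left (hdtM i)
      have h2 := J_nat θ (fun e => ((h e : ℤ) : R)) i
        (wv (tw MvPolynomial.X fun e => ((h e : ℤ) : R)) [i'] ![1, 0])
      have h3 := wv_nat θ (tw MvPolynomial.X fun e => ((h e : ℤ) : R)) [i'] ![1, 0]
      have e2 : (fun a => θ ((![1, 0] : Fin 2 → R) a)) = ![1, 0] := by
        funext a
        fin_cases a <;> simp
      rw [e2, map_tw, eX, eh] at h3
      rw [eh, ← h3, h1] at h2
      apply hM2 (J (fun e => ((h e : ℤ) : R)) i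
        (wv (tw MvPolynomial.X fun e => ((h e : ℤ) : R)) [i'] ![1, 0])) (by
        simp only [Finset.mem_union, Finset.mem_image]
        exact Or.inr ⟨(i, i'), Finset.mem_univ _, rfl⟩)
      have h5 : ((ev M (J (fun e => ((h e : ℤ) : R)) i
        (wv (tw MvPolynomial.X fun e => ((h e : ℤ) : R)) [i'] ![1, 0])) : ℤ) : ℂ) = 0 := h2.symm
      exact_mod_cast h5

end

end Pool.Agent.V7H60.GH
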